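import Pool.Agent.Lib_helper2.QG.Defs
import Pool.Agent.Lib_helper99.QGDegree

/-!
# Degrees of real numbers
-/

open scoped Polynomial
open IntermediateField

namespace QG

lemma lowDeg_iff {D : ℕ} {z : ℝ} : LowDeg D z ↔ ∃ F : IntermediateField ℚ ℝ,
    FiniteDimensional ℚ F ∧ z ∈ F ∧ Module.finrank ℚ F ≤ D := by
  constructor
  · rintro ⟨f, hf0, hfz, hfd⟩
    set g : ℚ[X] := f.map (Int.castRingHom ℚ) with hg
    have hg0 : g ≠ 0 := by
      rw [hg, Ne, Polynomial.map_eq_zero_iff (RingHom.injective_int (Int.castRingHom ℚ))]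
      exact hf0
    have hgz : Polynomial.aeval z g = 0 := by
      rw [hg, show Int.castRingHom ℚ = algebraMap ℤ ℚ from rfl, Polynomial.aeval_map_algebraMap]
      exact hfz
    have hint : IsIntegral ℚ z := by
      rw [← isAlgebraic_iff_isIntegral]
      exact ⟨g, hg0, hgz⟩
    refine ⟨ℚ⟮z⟯, adjoin.finiteDimensional hint, mem_adjoin_simple_self ℚ z, ?_⟩
    rw [adjoin.finrank hint]
    calc (minpoly ℚ z).natDegree ≤ g.natDegree :=
          Polynomial.natDegree_le_of_dvd (minpoly.dvd ℚ z hgz) hg0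
      _ ≤ f.natDegree := Polynomial.natDegree_map_le
      _ ≤ D := hfd
  · rintro ⟨F, hF, hz, hD⟩
    set x : F := ⟨z, hz⟩ with hx
    have h1 : (minpoly ℚ x).natDegree ≤ D := (minpoly.natDegree_le x).trans hD
    have hint : IsIntegral ℚ x := IsIntegral.of_finite ℚ x
    have h2 : Polynomial.aeval z (minpoly ℚ x) = 0 := by
      have := minpoly.aeval ℚ x
      have h3 := congrArg (algebraMap F ℝ) this
      rw [← Polynomial.aeval_algebraMap_apply, map_zero] at h3
      exact h3
    obtain ⟨b, hbm, hb⟩ :=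
      IsLocalization.integerNormalization_spec (nonZeroDivisors ℤ) (minpoly ℚ x)
    have hb0 : (b : ℤ) ≠ 0 := nonZeroDivisors.ne_zero hbm
    have hb0' : (algebraMap ℤ ℚ b) ≠ 0 := by
      rw [Ne, map_eq_zero_iff _ (RingHom.injective_int (algebraMap ℤ ℚ))]
      exact hb0
    refine ⟨IsLocalization.integerNormalization (nonZeroDivisors ℤ) (minpoly ℚ x), ?_, ?_, ?_⟩
    · intro h0
      rw [h0, Polynomial.map_zero] at hb
      have := smul_eq_zero.1 hb.symm
      rcases this with h | h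
      · exact hb0 h
      · exact minpoly.ne_zero hint h
    · exact IsLocalization.integerNormalization_aeval_eq_zero (nonZeroDivisors ℤ)
        (minpoly ℚ x) h2
    · have h5 := congrArg Polynomial.natDegree hb
      rw [Polynomial.natDegree_map_eq_of_injective (RingHom.injective_int (algebraMap ℤ ℚ))] at h5
      rw [h5]
      exact (Polynomial.natDegree_smul_le b _).trans h1

lemma lowDeg_affine {D : ℕ} {z : ℝ} (h : LowDeg D z) (r s : ℚ) :
    LowDeg D ((r : ℝ) + z * (s : ℝ)) := by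
  rw [lowDeg_iff] at h ⊢
  obtain ⟨F, hF, hz, hD⟩ := h
  refine ⟨F, hF, ?_, hD⟩
  have h1 : ∀ r : ℚ, (r : ℝ) ∈ F := fun r => F.algebraMap_mem r
  exact F.add_mem (h1 r) (F.mul_mem hz (h1 s))

lemma lowDeg_rat {D : ℕ} (hD : 1 ≤ D) (r : ℚ) : LowDeg D (r : ℝ) := by
  rw [lowDeg_iff]
  refine ⟨⊥, inferInstance, ?_, ?_⟩
  · exact (⊥ : IntermediateField ℚ ℝ).algebraMap_mem r
  · rw [IntermediateField.finrank_bot]; exact hD

end QG
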