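import Pool.Agent.Lib_helper2.QG.High
import Pool.Agent.Lib_helper2.QG.Deg
import Pool.Agent.Lib_helper52.QGLiberman

/-!
# From closed quasigeodesics to paths
-/

open scoped RealInnerProductSpace

namespace QG

variable {κ : ℝ} {m : ℕ} (f : Fam κ m)

/-- Liberman's inequality on the polytope `f.K`. -/
lemma lib_K {p u v : E3} {j1 j2 : J m} (hp : p ∈ f.K) (h1 : f.con j1 p = 0)
    (h2 : f.con j2 p = 0) (hl : LinearIndependent ℝ ![f.nrm j1, f.nrm j2]) (hu : u ≠ 0)
    (hv : v ≠ 0) (h : QuasigeodesicAt f.K p u v) (x : E3) (hx : x ∈ f.K) :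
    0 ≤ ⟪un v + un u, x - p⟫ := by
  set e := Fintype.equivFin (J m) with he
  have hK : f.K = {x : E3 | ∀ i : Fin (Fintype.card (J m)),
      ⟪(f.nrm ∘ e.symm) i, x⟫ ≤ (f.bnd ∘ e.symm) i} := by
    ext y
    simp only [Fam.K, HP, Set.mem_ofPred_eq, Function.comp]
    constructor
    · intro h i; exact h _
    · intro h j
      have := h (e j)
      rwa [Equiv.symm_apply_apply] at this
  have h3 := liberman (f.nrm ∘ e.symm) (f.bnd ∘ e.symm) f.K hK p u v hp (e j1) (e j2)
    (by simp only [Function.comp, Equiv.symm_apply_apply]; rw [Fam.con] at h1; linarith)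
    (by simp only [Function.comp, Equiv.symm_apply_apply]; rw [Fam.con] at h2; linarith)
    (by simpa only [Function.comp, Equiv.symm_apply_apply] using hl) hu hv h x hx
  rw [add_comm]
  exact h3

variable {f} {P : Poly} (hP : P.body = f.K) (γ : ClosedQuasigeodesic P)

include hP

lemma crn_aux (i : ZMod γ.N) : γ.pt i ∈ f.K ∧ ∃ j1 j2, f.con j1 (γ.pt i) = 0 ∧
    f.con j2 (γ.pt i) = 0 ∧ LinearIndependent ℝ ![f.nrm j1, f.nrm j2] := by
  obtain ⟨a, b, hab, hmem⟩ := γ.onEdge i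
  obtain ⟨ha, hb, hne, hext⟩ := hab
  rw [hP] at hext
  have hne' : toE a ≠ toE b := by
    intro h
    apply hne
    have h1 : ∀ j, (toE a) j = (toE b) j := fun j => by rw [h]
    funext j
    have := h1 j
    simp only [toE] at this
    exact_mod_cast this
  refine ⟨hext.1 hmem, ?_⟩
  obtain ⟨j1, j2, h1, h2, h3⟩ := edge_HP f.nrm f.bnd hne' hext hmem
  refine ⟨j1, j2, ?_, ?_, h3⟩
  · rw [Fam.con, h1, sub_self]
  · rw [Fam.con, h2, sub_self]

/-- the path of a closed quasigeodesic -/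
noncomputable def toLPath : LPath f.K where
  N := γ.N
  hN := Nat.pos_of_ne_zero γ.hN
  p := fun i => γ.pt (i : ZMod γ.N)
  per := fun i => by
    congr 1
    push_cast
    simp
  ne := fun i => by
    have := γ.ne (i : ZMod γ.N)
    push_cast
    exact this.symm
  lib := fun i x hx => by
    obtain ⟨hmem, j1, j2, h1, h2, h3⟩ := crn_aux hP γ (i : ZMod γ.N)
    have hq := γ.quasi (i : ZMod γ.N)
    have hn1 := γ.ne (i : ZMod γ.N)
    have hn2 := γ.ne ((i : ZMod γ.N) - 1)
    rw [sub_add_cancel] at hn2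
    rw [hP] at hq
    have := lib_K f hmem h1 h2 h3 (sub_ne_zero.2 hn2) (sub_ne_zero.2 hn1.symm) hq x hx
    push_cast
    exact this

lemma toLPath_p (i : ℤ) : (toLPath hP γ).p i = γ.pt (i : ZMod γ.N) := rfl

lemma toPPath : PPath f (toLPath hP γ) where
  mem := fun i => (crn_aux hP γ (i : ZMod γ.N)).1
  seg := fun i => by
    have hs := γ.onSurface (i : ZMod γ.N)
    rw [hP] at hs
    have hmid : (1 / 2 : ℝ) • γ.pt (i : ZMod γ.N) + (1 / 2 : ℝ) • γ.pt ((i : ZMod γ.N) + 1) ∈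
        frontier f.K := by
      apply hs
      exact ⟨1 / 2, 1 / 2, by norm_num, by norm_num, by norm_num, rfl⟩
    obtain ⟨h1, j, hj⟩ := frontier_HP f.nrm f.bnd hmid
    have m1 := f.mem_K.1 (crn_aux hP γ (i : ZMod γ.N)).1 j
    have m2 := f.mem_K.1 (crn_aux hP γ ((i : ZMod γ.N) + 1)).1 j
    rw [Fam.con] at m1 m2
    rw [inner_add_right, real_inner_smul_right, real_inner_smul_right] at hj
    refine ⟨j, ?_, ?_⟩
    · rw [toLPath_p, Fam.con]; linarith
    · rw [toLPath_p, Fam.con]; push_cast; linarith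
  crn := fun i => (crn_aux hP γ (i : ZMod γ.N)).2

/-- The micro edge at a transversal crossing. -/
lemma edge_of_at {A B : Fin 6} {F G : Fin 8} (h : IsE A B F G) (hFG : F < G) {σ : ℝ}
    (hσ : 15601 * κ < σ) {i : ℤ} {k : ℕ} (hAt : At (toLPath hP γ) A B F G σ (f.ch F G) i k)
    (ht : ⟪ed A B, (toLPath hP γ).u i⟫ ^ 2 < 1) {D : ℕ} (hD1 : 1 ≤ D)
    (hD : ¬ LowDeg D ⟪pv B - pv A, (toLPath hP γ).p i⟫) :
    ∃ (a b : Fin 3 → ℚ) (t : ℝ), IsEdge P a b ∧ 0 < t ∧ t < 1 ∧
      γ.pt (i : ZMod γ.N) = toE a + t • (toE b - toE a) ∧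
      (∀ s : ℝ, γ.pt ((i : ZMod γ.N) + 1) ≠ toE a + s • (toE b - toE a)) ∧
      (∀ s : ℝ, γ.pt ((i : ZMod γ.N) - 1) ≠ toE a + s • (toE b - toE a)) ∧
      ¬ LowDeg D t ∧ ∀ j, a j ≠ b j → ¬ LowDeg D (γ.pt (i : ZMod γ.N) j) := by
  have Y := toPPath hP γ
  have X := Y.cross h hFG hσ
  have hk := hAt.1
  obtain ⟨a, b, hab, hmem⟩ := γ.onEdge (i : ZMod γ.N)
  obtain ⟨t, ht0, ht1, hpt⟩ : ∃ t : ℝ, 0 ≤ t ∧ t ≤ 1 ∧
      γ.pt (i : ZMod γ.N) = toE a + t • (toE b - toE a) := by
    obtain ⟨x, y, hx, hy, hxy, h1⟩ := hmem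
    refine ⟨y, hy, by linarith, ?_⟩
    rw [← h1, show x = 1 - y by linarith, sub_smul, one_smul, smul_sub]
    abel
  have hE : ∀ v : Fin 3 → ℚ, ∃ r : ℚ, ⟪pv B - pv A, toE v⟫ = (r : ℝ) := by
    intro v
    refine ⟨∑ j, ((V B j - V A j : ℤ) : ℚ) * v j, ?_⟩
    rw [pv_sub, inner_vec]
    push_cast
    rfl
  obtain ⟨ra, hra⟩ := hE a
  obtain ⟨rb, hrb⟩ := hE b
  have hz : ⟪pv B - pv A, (toLPath hP γ).p i⟫ = (ra : ℝ) + t * ((rb - ra : ℚ) : ℝ) := by
    rw [toLPath_p, hpt, inner_add_right, real_inner_smul_right, inner_sub_right, hra, hrb]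
    push_cast; ring
  have hDt : ¬ LowDeg D t := by
    intro hlow
    apply hD
    rw [hz]
    exact lowDeg_affine hlow _ _
  have ht0' : 0 < t := by
    refine lt_of_le_of_ne ht0 ?_
    rintro rfl
    apply hDt
    have := lowDeg_rat hD1 0
    simpa using this
  have ht1' : t < 1 := by
    refine lt_of_le_of_ne ht1 ?_
    rintro rfl
    apply hDt
    have := lowDeg_rat hD1 1
    simpa using this
  -- the two active constraints vanish on the whole edge
  obtain ⟨ha, hb, hne, hext⟩ := hab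
  have hseg : segment ℝ (toE a) (toE b) ⊆ f.K := hP ▸ hext.1
  have haK : toE a ∈ f.K := hseg (left_mem_segment _ _ _)
  have hbK : toE b ∈ f.K := hseg (right_mem_segment _ _ _)
  have hall : ∀ x ∈ f.K, ∀ j ≤ m + 1, 0 ≤ (f.ch F G).h j (sl F x) (sl G x) := by
    intro x hx j hj
    have h1 := f.mem_K.1 hx (F, G, ⟨j, by omega⟩)
    rw [f.con_of ⟨hFG, ⟨A, B, h⟩⟩] at h1
    exact h1
  have haff : ∀ (H : Fin 8) (s : ℝ), sl H (toE a + s • (toE b - toE a)) =
      (1 - s) * sl H (toE a) + s * sl H (toE b) := by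
    intro H s
    have h1 := sl_sub H (toE b) (toE a)
    rw [sl_add, real_inner_smul_right]
    have h2 : ⟪na H, toE b - toE a⟫ = sl H (toE a) - sl H (toE b) := by linarith
    rw [h2]; ring
  have hval : sl F (toE a) = (f.ch F G).α k ∧ sl G (toE a) = (f.ch F G).β k ∧
      sl F (toE b) = (f.ch F G).α k ∧ sl G (toE b) = (f.ch F G).β k := by
    obtain ⟨_, e1, e2, _, _⟩ := hAt
    rw [toLPath_p, hpt, haff] at e1 e2
    have key : ∀ j ≤ m + 1, (f.ch F G).h j ((f.ch F G).α k) ((f.ch F G).β k) = 0 →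
        (f.ch F G).h j (sl F (toE a)) (sl G (toE a)) = 0 ∧
        (f.ch F G).h j (sl F (toE b)) (sl G (toE b)) = 0 := by
      intro j hj h0
      have h1 := hall _ haK j hj
      have h2 := hall _ hbK j hj
      rw [← e1, ← e2] at h0
      have h3 : (f.ch F G).h j ((1 - t) * sl F (toE a) + t * sl F (toE b))
          ((1 - t) * sl G (toE a) + t * sl G (toE b)) =
          (1 - t) * (f.ch F G).h j (sl F (toE a)) (sl G (toE a)) +
          t * (f.ch F G).h j (sl F (toE b)) (sl G (toE b)) := by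
        simp only [Chain.h]; ring
      rw [h3] at h0
      have h4 : 0 ≤ (1 - t) * (f.ch F G).h j (sl F (toE a)) (sl G (toE a)) :=
        mul_nonneg (by linarith) h1
      have h5 : 0 ≤ t * (f.ch F G).h j (sl F (toE b)) (sl G (toE b)) :=
        mul_nonneg ht0 h2
      constructor
      · have h6 : (1 - t) * (f.ch F G).h j (sl F (toE a)) (sl G (toE a)) = 0 := by linarith
        exact (mul_eq_zero.1 h6).resolve_left (by linarith)
      · have h6 : t * (f.ch F G).h j (sl F (toE b)) (sl G (toE b)) = 0 := by linarith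
        exact (mul_eq_zero.1 h6).resolve_left (by linarith)
    obtain ⟨k1, k2⟩ := key k (by omega) ((f.ch F G).h_on1 hk)
    obtain ⟨k3, k4⟩ := key (k + 1) (by omega) ((f.ch F G).h_on2 hk)
    obtain ⟨_, p1, p2⟩ := (f.ch F G).pair (hall _ haK) (Nat.lt_succ_self k) (by omega) k1 k3
    obtain ⟨_, p3, p4⟩ := (f.ch F G).pair (hall _ hbK) (Nat.lt_succ_self k) (by omega) k2 k4
    exact ⟨p1, p2, p3, p4⟩
  have hline : ∀ s : ℝ, sl F (toE a + s • (toE b - toE a)) = (f.ch F G).α k ∧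
      sl G (toE a + s • (toE b - toE a)) = (f.ch F G).β k := by
    intro s
    rw [haff, haff, hval.1, hval.2.1, hval.2.2.1, hval.2.2.2]
    constructor <;> ring
  have hnotline : ∀ y : E3, (UpPt (f.ch F G) F G k y ∨ DownPt (f.ch F G) F G k y) →
      ∀ s : ℝ, y ≠ toE a + s • (toE b - toE a) := by
    rintro y (⟨r, hr, h1, h2⟩ | ⟨r, hr, h1, h2⟩) s rfl
    · rw [(hline s).1, sub_self] at h1
      have := (f.ch F G).Qpos (k + 1) (by omega) (by omega)
      have := mul_pos hr (by linarith : 0 < (f.ch F G).Q (k + 1))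
      linarith
    · rw [(hline s).2, sub_self] at h2
      have := (f.ch F G).Ppos k (by omega)
      have := mul_pos hr (by linarith : 0 < (f.ch F G).P k)
      linarith
  refine ⟨a, b, t, ⟨ha, hb, hne, hext⟩, ht0', ht1', hpt, ?_, ?_, hDt, ?_⟩
  · apply hnotline
    have h1 := X.cases_next hAt ht
    rw [toLPath_p] at h1
    push_cast at h1
    exact h1
  · apply hnotline
    have h1 := X.cases_prev hAt (by rw [← X.perp hAt]; exact ht)
    rw [toLPath_p] at h1
    push_cast at h1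
    exact h1
  · intro j hj hlow
    apply hDt
    have h1 : t = ((-(a j) / (b j - a j) : ℚ) : ℝ) +
        (γ.pt (i : ZMod γ.N) j) * ((1 / (b j - a j) : ℚ) : ℝ) := by
      rw [hpt]
      have h2 : (b j : ℝ) - a j ≠ 0 := by
        intro h3
        apply hj
        have : (a j : ℝ) = b j := by linarith
        exact_mod_cast this
      simp only [toE, PiLp.add_apply, PiLp.smul_apply, PiLp.sub_apply, smul_eq_mul]
      push_cast
      field_simp
      ring
    rw [h1]
    exact lowDeg_affine hlow _ _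

end QG
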