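import Pool.Agent.Lib_helper2.QG.Defs

/-!
# The base polytope

An explicit simplicial polytope with integer vertices.
-/

open scoped RealInnerProductSpace

namespace QG

/-- The vertices of the base polytope. -/
def V : Fin 6 → Fin 3 → ℤ :=
  ![![7, 8, 1], ![1, 4, 2], ![1, 5, 4], ![8, 7, 2], ![2, 0, 7], ![1, 5, 2]]

/-- The outer normals of the faces of the base polytope. -/
def NA : Fin 8 → Fin 3 → ℤ :=
  ![![3, -7, -10], ![-1, 0, -6], ![0, 1, 1], ![-1, 2, 0], ![-13, -2, 1], ![-1, 0, 0],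
    ![15, -35, -31], ![4, 23, 37]]

/-- The right hand sides of the face inequalities of the base polytope. -/
def NB : Fin 8 → ℤ := ![-45, -13, 9, 9, -19, -1, -187, 267]

/-- The slack of the vertex `k` with respect to the face `F`. -/
def S (F : Fin 8) (k : Fin 6) : ℤ := NB F - ∑ j, NA F j * V k j

/-- `A B` is an edge of the base polytope, the intersection of the faces `F` and `G`. -/
def IsE (A B : Fin 6) (F G : Fin 8) : Prop :=
  A ≠ B ∧ F ≠ G ∧ S F A = 0 ∧ S F B = 0 ∧ S G A = 0 ∧ S G B = 0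

instance (A B : Fin 6) (F G : Fin 8) : Decidable (IsE A B F G) := by
  unfold IsE; infer_instance

/-- adjacent vertices -/
def Adj (A B : Fin 6) : Prop := ∃ F G, IsE A B F G

instance (A B : Fin 6) : Decidable (Adj A B) := by
  unfold Adj; infer_instance

lemma IsE.symm {A B : Fin 6} {F G : Fin 8} (h : IsE A B F G) : IsE B A F G :=
  ⟨h.1.symm, h.2.1, h.2.2.2.1, h.2.2.1, h.2.2.2.2.2, h.2.2.2.2.1⟩

lemma IsE.swap {A B : Fin 6} {F G : Fin 8} (h : IsE A B F G) : IsE A B G F :=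
  ⟨h.1, h.2.1.symm, h.2.2.2.2.1, h.2.2.2.2.2, h.2.2.1, h.2.2.2.1⟩

lemma Adj.symm {A B : Fin 6} (h : Adj A B) : Adj B A := by
  obtain ⟨F, G, h⟩ := h
  exact ⟨F, G, h.symm⟩

lemma S_nonneg : ∀ F k, 0 ≤ S F k := by decide +kernel

lemma S_off : ∀ A B F G, IsE A B F G → ∀ H, H ≠ F → H ≠ G → 1 ≤ S H A + S H B := by
  decide +kernel

lemma S_vert : ∀ A B F G, IsE A B F G → ∀ k, k ≠ A → k ≠ B → 1 ≤ S F k + S G k := by
  decide +kernel

lemma S_nonadj : ∀ A B, A ≠ B → ¬ Adj A B → ∀ H, 1 ≤ S H A + S H B := by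
  decide +kernel

lemma S_pair : ∀ F G, F ≠ G → (∃ A B, IsE A B F G) ∨
    ∃ k, ∀ l, S F l = 0 → S G l = 0 → l = k := by
  decide +kernel

lemma exists_adj : ∀ A, ∃ B, Adj A B := by decide +kernel

lemma S_row : ∀ F, 6 ≤ ∑ k, S F k := by decide +kernel

lemma NA_sq : ∀ F, ∑ j, (NA F j) ^ 2 ≤ 2500 := by decide +kernel

lemma NA_sq_pos : ∀ F, 1 ≤ ∑ j, (NA F j) ^ 2 := by decide +kernel

lemma V_sq : ∀ A B, ∑ j, (V B j - V A j) ^ 2 ≤ 144 := by decide +kernel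

lemma V_sq_pos : ∀ A B, A ≠ B → 1 ≤ ∑ j, (V B j - V A j) ^ 2 := by decide +kernel

/-- distinct faces -/
lemma NA_indep : ∀ F G, F ≠ G →
    (∑ j, NA F j * NA G j) ^ 2 < (∑ j, (NA F j) ^ 2) * (∑ j, (NA G j) ^ 2) := by
  decide +kernel

/-- the opposite vertices of the two faces at an edge project to different points -/
lemma M5 : ∀ A B F G, IsE A B F G → ∀ W W', W ≠ A → W ≠ B → S F W = 0 → W' ≠ A → W' ≠ B →
    S G W' = 0 → ∑ j, (V W j - V W' j) * (V B j - V A j) ≠ 0 := by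
  decide +kernel

/-- each edge vertex, other than ... there is a face which contains `B` but not `A`. -/
lemma S_sep : ∀ A B, A ≠ B → ∃ H, S H B = 0 ∧ 1 ≤ S H A := by decide +kernel

/-- A rank function on directed edges which decreases at every turn that a quasigeodesic
could make. -/
def rk : Fin 6 → Fin 6 → ℕ :=
  ![![0, 1, 0, 5, 0, 0], ![6, 0, 0, 3, 4, 0], ![6, 7, 0, 3, 4, 0], ![2, 1, 0, 0, 4, 0],
    ![0, 1, 0, 3, 0, 0], ![6, 5, 0, 0, 0, 0]]

/-- integer inner product of differences of vertices -/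
def ip (A B C D : Fin 6) : ℤ := ∑ j, (V A j - V B j) * (V C j - V D j)

/-- integer criterion for `m1 / √n1 + m2 / √n2 < 0` -/
def Neg (m1 n1 m2 n2 : ℤ) : Prop :=
  (m1 ≤ 0 ∧ m2 < 0) ∨ (m1 < 0 ∧ m2 ≤ 0) ∨ (m1 < 0 ∧ m2 ^ 2 * n1 < m1 ^ 2 * n2) ∨
    (m2 < 0 ∧ m1 ^ 2 * n2 < m2 ^ 2 * n1)

instance (m1 n1 m2 n2 : ℤ) : Decidable (Neg m1 n1 m2 n2) := by
  unfold Neg; infer_instance

lemma turn : ∀ A B C, Adj A B → Adj B C → rk B C < rk A B ∨
    ∃ k, Neg (ip A B k B) (ip A B A B) (ip C B k B) (ip C B C B) := by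
  decide +kernel
end QG
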