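import Pool.Agent.Lib_helper2.QG.LPath

/-!
# The base argument
-/

open scoped RealInnerProductSpace

namespace QG

/-- the parameter of the projection of `x` to the line through the vertices `A` and `B` -/
noncomputable def sp (A B : Fin 6) (x : E3) : ℝ := ⟪x - pv A, ed A B⟫ / ‖pv B - pv A‖

lemma sp_add {A B : Fin 6} (x w : E3) :
    sp A B (x + w) = sp A B x + ⟪w, ed A B⟫ / ‖pv B - pv A‖ := by
  rw [sp, sp, ← add_div, ← inner_add_left]; congr 3; abel

lemma sp_line {A B : Fin 6} (hAB : A ≠ B) (s : ℝ) : sp A B (pv A + s • (pv B - pv A)) = s := by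
  have h := one_le_norm_pv hAB
  have h2 : ‖pv B - pv A‖ ≠ 0 := by linarith
  rw [sp, add_sub_cancel_left, ed, real_inner_smul_left, real_inner_smul_right,
    real_inner_self_eq_norm_sq]
  field_simp

lemma abs_sp_sub_le {A B : Fin 6} (hAB : A ≠ B) (x y : E3) : |sp A B x - sp A B y| ≤ ‖x - y‖ := by
  have h := one_le_norm_pv hAB
  have h1 : sp A B x - sp A B y = ⟪x - y, ed A B⟫ / ‖pv B - pv A‖ := by
    rw [sp, sp, ← sub_div, ← inner_sub_left, sub_sub_sub_cancel_right]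
  rw [h1, abs_div, abs_of_pos (by linarith : 0 < ‖pv B - pv A‖)]
  have h2 : |⟪x - y, ed A B⟫| ≤ ‖x - y‖ := by
    have := abs_real_inner_le_norm (x - y) (ed A B)
    rwa [norm_ed hAB, mul_one] at this
  rw [div_le_iff₀ (by linarith)]
  nlinarith [norm_nonneg (x - y)]

lemma sp_symm {A B : Fin 6} (hAB : A ≠ B) (x : E3) : sp B A x = 1 - sp A B x := by
  have h := one_le_norm_pv hAB
  have h2 : ‖pv B - pv A‖ ≠ 0 := by linarith
  have h3 : ⟪pv B - pv A, ed A B⟫ = ‖pv B - pv A‖ := by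
    rw [ed, real_inner_smul_right, real_inner_self_eq_norm_sq]; field_simp
  rw [sp, sp, ed_symm A B, norm_sub_rev (pv A), inner_neg_right]
  have h4 : x - pv B = (x - pv A) - (pv B - pv A) := by abel
  rw [h4, inner_sub_left, h3]
  field_simp
  ring

/-- closeness to the line in terms of the projection parameter -/
lemma line_dist {A B : Fin 6} (hAB : A ≠ B) {x : E3} {s η : ℝ}
    (hx : ‖x - (pv A + s • (pv B - pv A))‖ ≤ η) :
    |sp A B x - s| ≤ η ∧ ‖x - (pv A + sp A B x • (pv B - pv A))‖ ≤ 13 * η := by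
  have h1 : |sp A B x - s| ≤ η := by
    have := abs_sp_sub_le hAB x (pv A + s • (pv B - pv A))
    rw [sp_line hAB] at this
    linarith
  refine ⟨h1, ?_⟩
  have h2 : x - (pv A + sp A B x • (pv B - pv A)) =
      (x - (pv A + s • (pv B - pv A))) + (s - sp A B x) • (pv B - pv A) := by
    rw [sub_smul]; abel
  rw [h2]
  refine (norm_add_le _ _).trans ?_
  rw [norm_smul, Real.norm_eq_abs, abs_sub_comm]
  have h3 : |sp A B x - s| * ‖pv B - pv A‖ ≤ η * 12 :=
    mul_le_mul h1 (norm_pv_le A B) (norm_nonneg _) ((abs_nonneg _).trans h1)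
  linarith

lemma near_sp {A B : Fin 6} {F G : Fin 8} (h : IsE A B F G) {x : E3} (hx : x ∈ Qs) {κ : ℝ}
    (hF : sl F x ≤ κ) (hG : sl G x ≤ κ) :
    -(24 * κ) ≤ sp A B x ∧ sp A B x ≤ 1 + 24 * κ ∧
      ‖x - (pv A + sp A B x • (pv B - pv A))‖ ≤ 312 * κ := by
  obtain ⟨s, h0, h1, hs⟩ := near_metric h hx hF hG
  obtain ⟨h2, h3⟩ := line_dist h.ne hs
  rw [abs_le] at h2
  exact ⟨by linarith, by linarith, by linarith⟩

lemma sl_line (H : Fin 8) (A B : Fin 6) (s : ℝ) :
    sl H (pv A + s • (pv B - pv A)) = (1 - s) * S H A + s * S H B := by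
  have h1 := sl_pv H A
  have h2 := sl_sub H (pv B) (pv A)
  rw [sl_pv, sl_pv] at h2
  rw [sl_add, sl_pv, real_inner_smul_right]
  have h3 : ⟪na H, pv B - pv A⟫ = (S H A : ℝ) - S H B := by linarith
  rw [h3]; ring

/-- the slack of the other faces in the middle of an edge -/
lemma sl_mid {A B : Fin 6} {F G : Fin 8} (h : IsE A B F G) {x : E3} {s η ρ : ℝ}
    (hx : ‖x - (pv A + s • (pv B - pv A))‖ ≤ η) (h0 : ρ ≤ s) (h1 : s ≤ 1 - ρ) (hρ : 0 ≤ ρ)
    {H : Fin 8} (hF : H ≠ F) (hG : H ≠ G) : ρ - 50 * η ≤ sl H x := by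
  have h2 := sl_lip H x (pv A + s • (pv B - pv A))
  have h3 := S_off A B F G h H hF hG
  have h4 := S_nonneg H A
  have h5 := S_nonneg H B
  have h3' : (1 : ℝ) ≤ S H A + S H B := by exact_mod_cast h3
  have h4' : (0 : ℝ) ≤ S H A := by exact_mod_cast h4
  have h5' : (0 : ℝ) ≤ S H B := by exact_mod_cast h5
  rw [sl_line] at h2
  have h6 := (abs_le.1 (h2.trans (mul_le_mul_of_nonneg_left hx (by norm_num)))).1
  nlinarith

lemma IsE_unique : ∀ A B F G, IsE A B F G → ∀ A' B', IsE A' B' F G →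
    (A' = A ∧ B' = B) ∨ (A' = B ∧ B' = A) := by
  decide +kernel

/-- a point near the middle of an edge and near some edge is near the first edge. -/
lemma near_unique {A B : Fin 6} {F G : Fin 8} (h : IsE A B F G) {x : E3} {s η ρ κ : ℝ}
    (hx : ‖x - (pv A + s • (pv B - pv A))‖ ≤ η) (h0 : ρ ≤ s) (h1 : s ≤ 1 - ρ) (hρ : 0 ≤ ρ)
    (hκ : κ < ρ - 50 * η) {A' B' : Fin 6} {F' G' : Fin 8} (h' : IsE A' B' F' G')
    (hF : sl F' x ≤ κ) (hG : sl G' x ≤ κ) : (F' = F ∧ G' = G) ∨ (F' = G ∧ G' = F) := by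
  have hF' : F' = F ∨ F' = G := by
    by_contra hcon
    push Not at hcon
    have := sl_mid h hx h0 h1 hρ hcon.1 hcon.2
    linarith
  have hG' : G' = F ∨ G' = G := by
    by_contra hcon
    push Not at hcon
    have := sl_mid h hx h0 h1 hρ hcon.1 hcon.2
    linarith
  have hne := h'.2.1
  rcases hF' with rfl | rfl <;> rcases hG' with rfl | rfl
  · exact absurd rfl hne
  · exact Or.inl ⟨rfl, rfl⟩
  · exact Or.inr ⟨rfl, rfl⟩
  · exact absurd rfl hne

/-- `x` is near the middle of the edge `A B`. -/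
def Mid (κ ρ : ℝ) (A B : Fin 6) (x : E3) : Prop :=
  ∃ F G, IsE A B F G ∧ sl F x ≤ κ ∧ sl G x ≤ κ ∧ ρ ≤ sp A B x ∧ sp A B x ≤ 1 - ρ

lemma Mid.symm {κ ρ : ℝ} {A B : Fin 6} {x : E3} (h : Mid κ ρ A B x) : Mid κ ρ B A x := by
  obtain ⟨F, G, h, h1, h2, h3, h4⟩ := h
  exact ⟨F, G, h.symm, h1, h2, by rw [sp_symm h.ne]; linarith, by rw [sp_symm h.ne]; linarith⟩

lemma Mid.adj {κ ρ : ℝ} {A B : Fin 6} {x : E3} (h : Mid κ ρ A B x) : Adj A B := by
  obtain ⟨F, G, h, _⟩ := h
  exact ⟨F, G, h⟩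

/-- classification of the points near edges -/
lemma classify {x : E3} (hx : x ∈ Qs) {κ ρ : ℝ} (hκ : 0 < κ) (hκρ : 1000000 * κ ≤ ρ)
    (hnear : ∃ A B F G, IsE A B F G ∧ sl F x ≤ κ ∧ sl G x ≤ κ) :
    (∃ B, ‖x - pv B‖ ≤ 20 * ρ) ∨ ∃ A B, Mid κ ρ A B x := by
  obtain ⟨A, B, F, G, h, hF, hG⟩ := hnear
  obtain ⟨h1, h2, h3⟩ := near_sp h hx hF hG
  have hn := norm_pv_le A B
  rcases lt_or_ge (sp A B x) ρ with h4 | h4
  · left
    refine ⟨A, ?_⟩
    have h5 : x - pv A = (x - (pv A + sp A B x • (pv B - pv A))) + sp A B x • (pv B - pv A) := by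
      abel
    rw [h5]
    refine (norm_add_le _ _).trans ?_
    rw [norm_smul, Real.norm_eq_abs]
    have h6 : |sp A B x| ≤ ρ := abs_le.2 ⟨by linarith, by linarith⟩
    have h7 : |sp A B x| * ‖pv B - pv A‖ ≤ ρ * 12 :=
      mul_le_mul h6 hn (norm_nonneg _) (by linarith [abs_nonneg (sp A B x)])
    linarith
  rcases lt_or_ge (1 - ρ) (sp A B x) with h8 | h8
  · left
    refine ⟨B, ?_⟩
    have h5 : x - pv B = (x - (pv A + sp A B x • (pv B - pv A))) +
        (sp A B x - 1) • (pv B - pv A) := by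
      rw [sub_smul, one_smul]; abel
    rw [h5]
    refine (norm_add_le _ _).trans ?_
    rw [norm_smul, Real.norm_eq_abs]
    have h6 : |sp A B x - 1| ≤ ρ := abs_le.2 ⟨by linarith, by linarith⟩
    have h7 : |sp A B x - 1| * ‖pv B - pv A‖ ≤ ρ * 12 :=
      mul_le_mul h6 hn (norm_nonneg _) (by linarith [abs_nonneg (sp A B x - 1)])
    linarith
  · right
    exact ⟨A, B, F, G, h, hF, hG, h4, h8⟩

/-- The hypotheses of the base argument. -/
structure Hyp (K : Set E3) (γ : LPath K) (ε ρ κ ξ : ℝ) : Prop where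
  ε1 : ε ≤ 1
  turn : ∀ A B C, Adj A B → Adj B C → rk B C < rk A B ∨
    ∃ k, ⟪ed B C - ed A B, pv k - pv B⟫ ≤ - ε
  ρ0 : 0 < ρ
  ρε : 1000000 * ρ ≤ ε
  κ0 : 0 < κ
  κρ : 1000000 * κ ≤ ρ
  ξ0 : 0 < ξ
  ξρ : 100000 * ξ ≤ ρ
  KQ : K ⊆ Qs
  mem : ∀ i, γ.p i ∈ K
  ball : ∀ x, ‖x - ctr‖ ≤ 1 / 100 → x ∈ K
  vert : ∀ k, ∃ x ∈ K, ‖x - pv k‖ ≤ ρ
  near : ∀ i, ∃ A B F G, IsE A B F G ∧ sl F (γ.p i) ≤ κ ∧ sl G (γ.p i) ≤ κ
  nonadj : ∀ i A B, A ≠ B → ¬ Adj A B → ‖γ.p i - pv A‖ ≤ 20 * ρ →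
    ‖γ.p (i + 1) - pv B‖ ≤ 20 * ρ → False
  par : ∀ i A B, Mid κ ρ A B (γ.p i) →
    (‖γ.u i - ed A B‖ ≤ ξ ∧ ‖γ.u (i - 1) - ed A B‖ ≤ ξ) ∨
    (‖γ.u i + ed A B‖ ≤ ξ ∧ ‖γ.u (i - 1) + ed A B‖ ≤ ξ)

namespace Hyp

variable {K : Set E3} {γ : LPath K} {ε ρ κ ξ : ℝ} (H : Hyp K γ ε ρ κ ξ)

include H

lemma memQ (i : ℤ) : γ.p i ∈ Qs := H.KQ (H.mem i)

lemma len_le (i : ℤ) : γ.len i ≤ 12 := norm_sub_le_of_mem_mem (H.memQ _) (H.memQ _)

end Hyp

/-- The state of the base argument: the `i`-th segment goes along the edge from `A` to `B`. -/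
def State {K : Set E3} (γ : LPath K) (ρ κ : ℝ) (i : ℤ) (A B : Fin 6) : Prop :=
  Adj A B ∧ ‖γ.u i - ed A B‖ ≤ 100 * ρ ∧
    (Mid κ ρ A B (γ.p (i + 1)) ∨ ‖γ.p (i + 1) - pv B‖ ≤ 20 * ρ)

namespace Hyp

variable {K : Set E3} {γ : LPath K} {ε ρ κ ξ : ℝ} (H : Hyp K γ ε ρ κ ξ)

include H

lemma ρ1 : 1000000 * ρ ≤ 1 := H.ρε.trans H.ε1

/-- if two unit vectors are close then their inner product is positive -/
lemma inner_pos {w e : E3} (hw : ‖w‖ = 1) (he : ‖e‖ = 1) (h : ‖w - e‖ ≤ 100 * ρ) :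
    1 / 2 < ⟪w, e⟫ := by
  have h1 := norm_sub_sq_real w e
  rw [hw, he] at h1
  have h2 : ‖w - e‖ ^ 2 ≤ (100 * ρ) ^ 2 := by
    exact pow_le_pow_left₀ (norm_nonneg _) h 2
  have h3 := H.ρ1
  have h4 := H.ρ0
  nlinarith

/-- propagation along an edge -/
lemma prop {i : ℤ} {A B : Fin 6} (hs : State γ ρ κ i A B)
    (hB : ¬ ‖γ.p (i + 1) - pv B‖ ≤ 20 * ρ) :
    State γ ρ κ (i + 1) A B ∧ sp A B (γ.p (i + 1)) < sp A B (γ.p (i + 1 + 1)) := by
  obtain ⟨hadj, hu, hmid⟩ := hs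
  have hmid' := hmid.resolve_right hB
  have hne := hadj.ne
  have hρ0 := H.ρ0
  have hρ1 := H.ρ1
  have hκ := H.κρ
  have hκ0 := H.κ0
  have hξ0 := H.ξ0
  have hξρ := H.ξρ
  have he := norm_ed hne
  have hpos := H.inner_pos (γ.norm_u i) he hu
  have hu1 : ‖γ.u (i + 1) - ed A B‖ ≤ ξ := by
    rcases H.par (i + 1) A B hmid' with h | h
    · exact h.1
    · exfalso
      rw [add_sub_cancel_right] at h
      have h1 := norm_add_sq_real (γ.u i) (ed A B)
      rw [γ.norm_u, he] at h1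
      have h2 : ‖γ.u i + ed A B‖ ^ 2 ≤ ξ ^ 2 := pow_le_pow_left₀ (norm_nonneg _) h.2 2
      nlinarith
  have hpos1 := H.inner_pos (γ.norm_u (i + 1)) he (hu1.trans (by linarith))
  have hn := one_le_norm_pv hne
  have hlt : sp A B (γ.p (i + 1)) < sp A B (γ.p (i + 1 + 1)) := by
    rw [γ.step (i + 1), sp_add, real_inner_smul_left]
    have : 0 < γ.len (i + 1) * ⟪γ.u (i + 1), ed A B⟫ / ‖pv B - pv A‖ :=
      div_pos (mul_pos (γ.len_pos _) (by linarith)) (by linarith)
    linarith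
  refine ⟨⟨hadj, hu1.trans (by linarith), ?_⟩, hlt⟩
  obtain ⟨F, G, hE, hF, hG, hs0, hs1⟩ := hmid'
  -- distance to the line
  have hd := (near_sp hE (H.memQ _) hF hG).2.2
  set x := γ.p (i + 1) with hx
  set y := γ.p (i + 1 + 1) with hy
  set s' := sp A B x + γ.len (i + 1) * ‖pv B - pv A‖⁻¹ with hs'
  have hdy : ‖y - (pv A + s' • (pv B - pv A))‖ ≤ 312 * κ + 12 * ξ := by
    have h1 : y - (pv A + s' • (pv B - pv A)) = (x - (pv A + sp A B x • (pv B - pv A))) +
        γ.len (i + 1) • (γ.u (i + 1) - ed A B) := by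
      rw [hy, γ.step (i + 1), ← hx, hs', add_smul, mul_smul, smul_sub (γ.len (i + 1)), ed]
      abel
    rw [h1]
    refine (norm_add_le _ _).trans (add_le_add hd ?_)
    rw [norm_smul, Real.norm_of_nonneg (γ.len_pos _).le]
    exact mul_le_mul (H.len_le _) hu1 (norm_nonneg _) (by norm_num)
  obtain ⟨hd1, hd2⟩ := line_dist hne hdy
  set η := 13 * (312 * κ + 12 * ξ) with hη
  have hηρ : 50 * η ≤ 3 * ρ / 4 := by rw [hη]; linarith
  rcases le_or_gt (sp A B y) (1 - ρ) with h2 | h2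
  · left
    obtain ⟨A', B', F', G', hE', hF', hG'⟩ := H.near (i + 1 + 1)
    rcases near_unique hE hd2 (by linarith) h2 hρ0.le (by linarith) hE' hF' hG' with h | h
    · rw [h.1] at hF'
      rw [h.2] at hG'
      exact ⟨F, G, hE, hF', hG', by linarith, h2⟩
    · rw [h.1] at hF'
      rw [h.2] at hG'
      exact ⟨F, G, hE, hG', hF', by linarith, h2⟩
  · right
    -- bound on sp
    obtain ⟨Φ, hΦ1, hΦ2⟩ := S_sep A B hne
    have h3 := sl_lip Φ y (pv A + sp A B y • (pv B - pv A))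
    rw [sl_line, hΦ1] at h3
    have h4 : 0 ≤ sl Φ y := H.memQ _ Φ
    have h5 : (1 : ℝ) ≤ S Φ A := by exact_mod_cast hΦ2
    have h6 := (abs_le.1 (h3.trans (mul_le_mul_of_nonneg_left hd2 (by norm_num)))).2
    have h7 : sp A B y - 1 ≤ 50 * η := by
      by_contra hcon
      push Not at hcon
      have : (1 - sp A B y) * (S Φ A : ℝ) ≤ (1 - sp A B y) * 1 :=
        mul_le_mul_of_nonpos_left h5 (by linarith)
      push_cast at h6
      linarith
    have h8 : y - pv B = (y - (pv A + sp A B y • (pv B - pv A))) +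
        (sp A B y - 1) • (pv B - pv A) := by
      rw [sub_smul, one_smul]; abel
    rw [h8]
    refine (norm_add_le _ _).trans ?_
    rw [norm_smul, Real.norm_eq_abs]
    have h9 : |sp A B y - 1| ≤ ρ := abs_le.2 ⟨by linarith, by linarith⟩
    have h10 : |sp A B y - 1| * ‖pv B - pv A‖ ≤ ρ * 12 :=
      mul_le_mul h9 (norm_pv_le A B) (norm_nonneg _) hρ0.le
    linarith

/-- the path arrives near the end of the edge -/
lemma arrive {i : ℤ} {A B : Fin 6} (hs : State γ ρ κ i A B) :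
    ∃ j, State γ ρ κ j A B ∧ ‖γ.p (j + 1) - pv B‖ ≤ 20 * ρ := by
  by_contra hcon
  push Not at hcon
  have h1 : ∀ n : ℕ, State γ ρ κ (i + n) A B := by
    intro n
    induction n with
    | zero => simpa using hs
    | succ n ih =>
      have h2 := (H.prop ih (not_le.2 (hcon _ ih))).1
      have h3 : i + (n : ℤ) + 1 = i + ((n + 1 : ℕ) : ℤ) := by push_cast; ring
      rw [h3] at h2
      exact h2
  have h2 : StrictMono (fun n : ℕ => sp A B (γ.p (i + n + 1))) := by
    apply strictMono_nat_of_lt_succ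
    intro n
    have h3 := (H.prop (h1 n) (not_le.2 (hcon _ (h1 n)))).2
    have h4 : i + (n : ℤ) + 1 + 1 = i + ((n + 1 : ℕ) : ℤ) + 1 := by push_cast; ring
    rw [h4] at h3
    exact h3
  have h3 := h2 γ.hN
  simp only at h3
  have h4 : i + ((γ.N : ℕ) : ℤ) + 1 = (i + 1) + γ.N := by ring
  rw [h4, γ.per] at h3
  simp at h3

/-- the direction of a segment which leaves the neighbourhood of a vertex -/
lemma leave_state {l : ℤ} {B : Fin 6} (h1 : ‖γ.p l - pv B‖ ≤ 20 * ρ)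
    (h2 : 20 * ρ < ‖γ.p (l + 1) - pv B‖) : ∃ C, State γ ρ κ l B C := by
  have hρ0 := H.ρ0
  have hρ1 := H.ρ1
  have hκ := H.κρ
  have hκ0 := H.κ0
  have hξ0 := H.ξ0
  have hξρ := H.ξρ
  have hst := γ.step l
  have hlen := γ.len_pos l
  have hlen12 := H.len_le l
  rcases classify (H.memQ (l + 1)) H.κ0 H.κρ (H.near (l + 1)) with
    ⟨C, hC⟩ | ⟨C, D, hCD⟩
  · have hBC : B ≠ C := by
      rintro rfl
      linarith
    by_cases hadj : Adj B C
    · refine ⟨C, hadj, ?_, Or.inr hC⟩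
      have hn := one_le_norm_pv hBC
      have h3 := norm_un_sub_le (w := γ.p (l + 1) - γ.p l) (w0 := pv C - pv B)
        (sub_ne_zero.2 (γ.ne l)) (by
          intro h0
          rw [h0, norm_zero] at hn
          linarith)
      have h4 : ‖γ.p (l + 1) - γ.p l - (pv C - pv B)‖ ≤ 40 * ρ := by
        have h5 : γ.p (l + 1) - γ.p l - (pv C - pv B) =
            (γ.p (l + 1) - pv C) - (γ.p l - pv B) := by abel
        rw [h5]
        refine (norm_sub_le _ _).trans ?_
        linarith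
      have h6 : ‖γ.u l - ed B C‖ * 1 ≤ ‖γ.u l - ed B C‖ * ‖pv C - pv B‖ :=
        mul_le_mul_of_nonneg_left hn (norm_nonneg _)
      have h7 : ‖γ.u l - ed B C‖ * ‖pv C - pv B‖ ≤ 2 * (40 * ρ) := by
        refine h3.trans ?_
        linarith
      linarith
    · exact absurd hC (fun hC => H.nonadj l B C hBC hadj h1 hC)
  · -- the middle of the edge C D
    by_cases hB : B = C ∨ B = D
    · -- reduce to B = C
      have key : ∀ D, Mid κ ρ B D (γ.p (l + 1)) → State γ ρ κ l B D := by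
        intro D hBD
        have hne := hBD.adj.ne
        have hn := one_le_norm_pv hne
        have he := norm_ed hne
        refine ⟨hBD.adj, ?_, Or.inl hBD⟩
        rcases H.par (l + 1) B D hBD with h | h
        · have := h.2
          rw [add_sub_cancel_right] at this
          linarith
        · exfalso
          have h3 := h.2
          rw [add_sub_cancel_right] at h3
          obtain ⟨F, G, hE, hF, hG, hs0, hs1⟩ := hBD
          have hd := (near_sp hE (H.memQ _) hF hG).2.2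
          -- inner product of u with p (l+1) - B is negative
          have h4 : ⟪γ.u l, γ.p (l + 1) - pv B⟫ < 0 := by
            set x := γ.p (l + 1)
            have h5 : x - pv B = (x - (pv B + sp B D x • (pv D - pv B))) +
              (sp B D x * ‖pv D - pv B‖) • ed B D := by
              rw [mul_smul, norm_smul_ed hne]; abel
            have h6 : ⟪γ.u l, x - (pv B + sp B D x • (pv D - pv B))⟫ ≤ 312 * κ := by
              refine (real_inner_le_norm _ _).trans ?_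
              rw [γ.norm_u, one_mul]; exact hd
            have h7 : ⟪γ.u l, ed B D⟫ ≤ - (1 / 2) := by
              have h8 := norm_add_sq_real (γ.u l) (ed B D)
              rw [γ.norm_u, he] at h8
              have h9 : ‖γ.u l + ed B D‖ ^ 2 ≤ ξ ^ 2 := pow_le_pow_left₀ (norm_nonneg _) h3 2
              nlinarith
            have h10 : ρ * 1 ≤ sp B D x * ‖pv D - pv B‖ :=
              mul_le_mul hs0 hn (by norm_num) (by linarith)
            rw [h5, inner_add_right, real_inner_smul_right]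
            nlinarith
          -- so p l is farther
          have h5 : γ.p l - pv B = (γ.p (l + 1) - pv B) - γ.len l • γ.u l := by
            rw [hst]; abel
          have h6 : ‖γ.p (l + 1) - pv B‖ ^ 2 < ‖γ.p l - pv B‖ ^ 2 := by
            rw [h5, norm_sub_sq_real (γ.p (l + 1) - pv B), norm_smul, γ.norm_u,
              real_inner_smul_right, real_inner_comm, Real.norm_of_nonneg hlen.le]
            nlinarith [mul_pos hlen (neg_pos.2 h4), pow_pos hlen 2]
          have h7 := lt_of_pow_lt_pow_left₀ 2 (norm_nonneg _) h6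
          linarith
      rcases hB with rfl | rfl
      · exact ⟨D, key D hCD⟩
      · exact ⟨C, key C hCD.symm⟩
    · push Not at hB
      exfalso
      obtain ⟨F, G, hE, hF, hG, hs0, hs1⟩ := hCD
      have hne := hE.ne
      have hpar := H.par (l + 1) C D ⟨F, G, hE, hF, hG, hs0, hs1⟩
      rw [add_sub_cancel_right] at hpar
      have hv := S_vert C D F G hE B hB.1 hB.2
      -- one of the two faces does not contain B
      have key : ∀ Φ : Fin 8, ⟪na Φ, ed C D⟫ = 0 → sl Φ (γ.p (l + 1)) ≤ κ → 1 ≤ S Φ B →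
          False := by
        intro Φ hΦ hΦ2 hΦ3
        have h3 : |⟪na Φ, γ.u l⟫| ≤ 50 * ξ := by
          rcases hpar with h | h
          · have h4 : ⟪na Φ, γ.u l⟫ = ⟪na Φ, γ.u l - ed C D⟫ := by
              rw [inner_sub_right, hΦ, sub_zero]
            rw [h4]
            exact (abs_real_inner_le_norm _ _).trans
              (mul_le_mul (norm_na_le Φ) h.2 (norm_nonneg _) (by norm_num))
          · have h4 : ⟪na Φ, γ.u l⟫ = ⟪na Φ, γ.u l + ed C D⟫ := by
              rw [inner_add_right, hΦ, add_zero]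
            rw [h4]
            exact (abs_real_inner_le_norm _ _).trans
              (mul_le_mul (norm_na_le Φ) h.2 (norm_nonneg _) (by norm_num))
        have h4 : sl Φ (γ.p (l + 1)) = sl Φ (γ.p l) - γ.len l * ⟪na Φ, γ.u l⟫ := by
          rw [hst, sl_add, real_inner_smul_right]
        have h5 := sl_lip Φ (γ.p l) (pv B)
        rw [sl_pv] at h5
        have h6 := (abs_le.1 (h5.trans (mul_le_mul_of_nonneg_left h1 (by norm_num)))).1
        have h7 : (1 : ℝ) ≤ S Φ B := by exact_mod_cast hΦ3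
        have h8 : γ.len l * ⟪na Φ, γ.u l⟫ ≤ 12 * (50 * ξ) := by
          refine (le_abs_self _).trans ?_
          rw [abs_mul, abs_of_pos hlen]
          exact mul_le_mul hlen12 h3 (abs_nonneg _) (by norm_num)
        linarith
      have hzero : ∀ Φ : Fin 8, ⟪na Φ, pv D - pv C⟫ = 0 → ⟪na Φ, ed C D⟫ = 0 := by
        intro Φ h
        rw [ed, real_inner_smul_right, h, mul_zero]
      rcases lt_or_ge 0 (S F B) with h3 | h3
      · exact key F (hzero F hE.inner) hF h3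
      · exact key G (hzero G hE.swap.inner) hG (by linarith)

/-- The conclusion of the base argument. -/
lemma next_state {i : ℤ} {A B : Fin 6} (hs : State γ ρ κ i A B) :
    ∃ l C, State γ ρ κ l B C ∧ rk B C < rk A B := by
  obtain ⟨j, hj, hjB⟩ := H.arrive hs
  have hρ0 := H.ρ0
  have hρ1 := H.ρ1
  obtain ⟨n, hn, hn1, hn2⟩ := γ.leave (r := 1 / 100) (ρ := 20 * ρ) (c := ctr) (b := pv B)
    (by linarith) (by linarith) H.ball j hjB
  have h1 := hn1 (n - 1) (by omega)
  have h2 : j + ((n - 1 : ℕ) : ℤ) + 1 = j + n := by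
    push_cast [Nat.cast_sub hn]; ring
  rw [h2] at h1
  obtain ⟨C, hC⟩ := H.leave_state h1 hn2
  refine ⟨j + n, C, hC, ?_⟩
  rcases H.turn A B C hj.1 hC.1 with h3 | ⟨k, hk⟩
  · exact h3
  exfalso
  obtain ⟨x, hx, hxk⟩ := H.vert k
  have h4 := γ.curv (r := 1 / 100) (ρ := 20 * ρ) (c := ctr) (b := pv B) (by linarith)
    (by linarith) H.ball j n hn1
  have h5 := γ.sum_lib hx j n hn1
  set T := ∑ k ∈ Finset.range n, ‖γ.u (j + k + 1) - γ.u (j + k)‖ with hT
  have hT0 : 0 ≤ T := Finset.sum_nonneg fun _ _ => norm_nonneg _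
  have hu2 : ‖γ.u (j + n) - γ.u j‖ ≤ 2 := by
    refine (norm_sub_le _ _).trans ?_
    rw [γ.norm_u, γ.norm_u]; norm_num
  have h6 : ⟪γ.u (j + n) - γ.u j, ctr - pv B⟫ ≤ 24 := by
    refine (real_inner_le_norm _ _).trans ?_
    have := mul_le_mul hu2 (norm_ctr_sub_le B) (norm_nonneg _) (by norm_num)
    linarith
  have hT1 : T ≤ 4800 := by
    have h7 : (1 / 100 - 20 * ρ) * T ≤ 24 := h4.trans h6
    nlinarith
  -- compare
  have h8 : ⟪γ.u (j + n) - γ.u j, x - pv B⟫ ≤ ⟪ed B C - ed A B, pv k - pv B⟫ +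
      2400 * ρ + 2 * ρ := by
    have h9 : ⟪γ.u (j + n) - γ.u j, x - pv B⟫ = ⟪ed B C - ed A B, pv k - pv B⟫ +
        ⟪(γ.u (j + n) - ed B C) - (γ.u j - ed A B), pv k - pv B⟫ +
        ⟪γ.u (j + n) - γ.u j, x - pv k⟫ := by
      simp only [inner_sub_left, inner_sub_right]; ring
    have h10 : ⟪(γ.u (j + n) - ed B C) - (γ.u j - ed A B), pv k - pv B⟫ ≤ 2400 * ρ := by
      refine (real_inner_le_norm _ _).trans ?_
      have h11 : ‖(γ.u (j + n) - ed B C) - (γ.u j - ed A B)‖ ≤ 200 * ρ := by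
        refine (norm_sub_le _ _).trans ?_
        have := hC.2.1
        have := hj.2.1
        linarith
      have := mul_le_mul h11 (norm_pv_le B k) (norm_nonneg _) (by linarith)
      linarith
    have h12 : ⟪γ.u (j + n) - γ.u j, x - pv k⟫ ≤ 2 * ρ := by
      refine (real_inner_le_norm _ _).trans ?_
      exact mul_le_mul hu2 hxk (norm_nonneg _) (by norm_num)
    linarith
  have hε := H.ρε
  have h13 : 20 * ρ * T ≤ 20 * ρ * 4800 := mul_le_mul_of_nonneg_left hT1 (by linarith)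
  linarith

/-- There is a state. -/
lemma exists_state : ∃ i A B, State γ ρ κ i A B := by
  have hρ0 := H.ρ0
  have hρ1 := H.ρ1
  have hκ := H.κρ
  have hκ0 := H.κ0
  have hξρ := H.ξρ
  rcases classify (H.memQ 1) H.κ0 H.κρ (H.near 1) with
    ⟨B, hB⟩ | ⟨C, D, hCD⟩
  · obtain ⟨n, hn, hn1, hn2⟩ := γ.leave (r := 1 / 100) (ρ := 20 * ρ) (c := ctr) (b := pv B)
      (by linarith) (by linarith) H.ball 0 (by simpa using hB)
    have h1 := hn1 (n - 1) (by omega)
    have h2 : (0 : ℤ) + ((n - 1 : ℕ) : ℤ) + 1 = 0 + n := by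
      push_cast [Nat.cast_sub hn]; ring
    rw [h2] at h1
    obtain ⟨C, hC⟩ := H.leave_state h1 hn2
    exact ⟨_, _, _, hC⟩
  · rcases H.par 1 C D hCD with h | h
    · exact ⟨0, C, D, hCD.adj, h.2.trans (by linarith), Or.inl hCD⟩
    · refine ⟨0, D, C, hCD.adj.symm, ?_, Or.inl hCD.symm⟩
      rw [ed_symm C D, sub_neg_eq_add]
      exact h.2.trans (by linarith)

theorem contradiction : False := by
  have key : ∀ r : ℕ, ∀ i A B, rk A B = r → State γ ρ κ i A B → False := by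
    intro r
    induction r using Nat.strong_induction_on with
    | _ r ih =>
      intro i A B hr hs
      obtain ⟨l, C, hC, hlt⟩ := H.next_state hs
      exact ih (rk B C) (hr ▸ hlt) l B C rfl hC
  obtain ⟨i, A, B, hs⟩ := H.exists_state
  exact key _ i A B rfl hs

end Hyp

end QG
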