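import Pool.Agent.Lib_helper2.QG.Base

/-!
# The base polytope: real version
-/

open scoped RealInnerProductSpace

namespace QG

/-- integer vectors as vectors of Euclidean space -/
noncomputable def vec (v : Fin 3 → ℤ) : E3 := WithLp.toLp 2 (fun i => (v i : ℝ))

@[simp] lemma vec_apply (v : Fin 3 → ℤ) (i : Fin 3) : vec v i = (v i : ℝ) := rfl

lemma inner_vec (v : Fin 3 → ℤ) (x : E3) : ⟪vec v, x⟫ = ∑ j, (v j : ℝ) * x j := by
  simp [PiLp.inner_apply, mul_comm]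

lemma inner_vec_vec (v w : Fin 3 → ℤ) : ⟪vec v, vec w⟫ = ((∑ j, v j * w j : ℤ) : ℝ) := by
  rw [inner_vec]; simp

lemma vec_sub (v w : Fin 3 → ℤ) : vec v - vec w = vec (fun j => v j - w j) := by
  ext j; simp

lemma norm_vec_sq (v : Fin 3 → ℤ) : ‖vec v‖ ^ 2 = ((∑ j, (v j) ^ 2 : ℤ) : ℝ) := by
  rw [← real_inner_self_eq_norm_sq, inner_vec_vec]
  congr 1; congr 1; ext j; ring

/-- vertices of the base polytope -/
noncomputable def pv (k : Fin 6) : E3 := vec (V k)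

/-- outer normals of the base polytope -/
noncomputable def na (F : Fin 8) : E3 := vec (NA F)

/-- slack functions of the base polytope -/
noncomputable def sl (F : Fin 8) (x : E3) : ℝ := (NB F : ℝ) - ⟪na F, x⟫

lemma sl_pv (F : Fin 8) (k : Fin 6) : sl F (pv k) = (S F k : ℝ) := by
  simp only [sl, na, pv, inner_vec_vec, S]; push_cast; ring

lemma sl_sub (F : Fin 8) (x y : E3) : sl F x - sl F y = - ⟪na F, x - y⟫ := by
  simp only [sl, inner_sub_right]; ring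

lemma sl_add (F : Fin 8) (x w : E3) : sl F (x + w) = sl F x - ⟪na F, w⟫ := by
  simp only [sl, inner_add_right]; ring

lemma norm_na_le (F : Fin 8) : ‖na F‖ ≤ 50 := by
  have h := NA_sq F
  have h2 : ‖na F‖ ^ 2 ≤ 2500 := by
    rw [na, norm_vec_sq]; exact_mod_cast h
  nlinarith [norm_nonneg (na F)]

lemma one_le_norm_na (F : Fin 8) : 1 ≤ ‖na F‖ := by
  have h := NA_sq_pos F
  have h2 : 1 ≤ ‖na F‖ ^ 2 := by
    rw [na, norm_vec_sq]; exact_mod_cast h
  nlinarith [norm_nonneg (na F)]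

lemma pv_sub (A B : Fin 6) : pv B - pv A = vec (fun j => V B j - V A j) := vec_sub _ _

lemma norm_pv_le (A B : Fin 6) : ‖pv B - pv A‖ ≤ 12 := by
  have h := V_sq A B
  have h2 : ‖pv B - pv A‖ ^ 2 ≤ 144 := by
    rw [pv_sub, norm_vec_sq]; exact_mod_cast h
  nlinarith [norm_nonneg (pv B - pv A)]

lemma one_le_norm_pv {A B : Fin 6} (hAB : A ≠ B) : 1 ≤ ‖pv B - pv A‖ := by
  have h := V_sq_pos A B hAB
  have h2 : 1 ≤ ‖pv B - pv A‖ ^ 2 := by
    rw [pv_sub, norm_vec_sq]; exact_mod_cast h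
  nlinarith [norm_nonneg (pv B - pv A)]

lemma sl_lip (F : Fin 8) (x y : E3) : |sl F x - sl F y| ≤ 50 * ‖x - y‖ := by
  rw [sl_sub, abs_neg]
  exact (abs_real_inner_le_norm _ _).trans
    (mul_le_mul_of_nonneg_right (norm_na_le F) (norm_nonneg _))

lemma IsE.ne {A B : Fin 6} {F G : Fin 8} (h : IsE A B F G) : A ≠ B := h.1

lemma Adj.ne {A B : Fin 6} (h : Adj A B) : A ≠ B := by
  obtain ⟨F, G, h⟩ := h; exact h.1

lemma IsE.inner {A B : Fin 6} {F G : Fin 8} (h : IsE A B F G) : ⟪na F, pv B - pv A⟫ = 0 := by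
  have h1 := sl_sub F (pv B) (pv A)
  rw [sl_pv, sl_pv, h.2.2.1, h.2.2.2.1] at h1
  simp at h1
  linarith

/-- unit direction of an edge -/
noncomputable def ed (A B : Fin 6) : E3 := ‖pv B - pv A‖⁻¹ • (pv B - pv A)

lemma norm_ed {A B : Fin 6} (hAB : A ≠ B) : ‖ed A B‖ = 1 := by
  have h := one_le_norm_pv hAB
  rw [ed, norm_smul, norm_inv, norm_norm, inv_mul_cancel₀ (by linarith)]

lemma ed_symm (A B : Fin 6) : ed B A = - ed A B := by
  rw [ed, ed, norm_sub_rev, ← smul_neg, neg_sub]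

lemma norm_smul_ed {A B : Fin 6} (hAB : A ≠ B) : ‖pv B - pv A‖ • ed A B = pv B - pv A := by
  have h := one_le_norm_pv hAB
  rw [ed, smul_smul, mul_inv_cancel₀ (by linarith), one_smul]

/-- The base polytope, given by inequalities. -/
def Qs : Set E3 := {x | ∀ F, 0 ≤ sl F x}

private lemma sl_eq (F : Fin 8) (x : E3) : sl F x =
    (NB F : ℝ) - ((NA F 0 : ℝ) * x 0 + (NA F 1 : ℝ) * x 1 + (NA F 2 : ℝ) * x 2) := by
  rw [sl, na, inner_vec, Fin.sum_univ_three]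

/-- Every point of the base polytope is a convex combination of the vertices. -/
lemma vrep (x : E3) (hx : x ∈ Qs) : ∃ μ : Fin 6 → ℝ, (∀ k, 0 ≤ μ k) ∧ ∑ k, μ k = 1 ∧
    x = ∑ k, μ k • pv k := by
  have h : ∀ F, 0 ≤ sl F x := hx
  have h0 := h 0
  have h1 := h 1
  have h2 := h 2
  have h3 := h 3
  have h4 := h 4
  have h5 := h 5
  have h6 := h 6
  have h7 := h 7
  simp only [sl_eq] at h0 h1 h2 h3 h4 h5 h6 h7
  simp [NA, NB] at h0 h1 h2 h3 h4 h5 h6 h7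
  rcases le_or_gt 0 (-9 - (3 * x 0 - 4 * x 1 + 2 * x 2)) with hg | hg
  · refine ⟨![(-1 + x 0) / 6, (9 + x 0 - 2 * x 1) / 2, (-13 + x 0 + 6 * x 2) / 12, 0, 0,
      (-9 - (3 * x 0 - 4 * x 1 + 2 * x 2)) / 4], ?_, ?_, ?_⟩
    · intro k
      fin_cases k <;> simp <;> linarith
    · simp [Fin.sum_univ_succ]
      ring
    · ext j
      fin_cases j <;> simp [Fin.sum_univ_succ, pv, V, vec] <;> ring
  · rcases le_or_gt 0 (36 - (-6 * x 0 + 14 * x 1 - 7 * x 2)) with hh | hh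
    · refine ⟨![0, (267 - (4 * x 0 + 23 * x 1 + 37 * x 2)) / 97,
        (-187 - (15 * x 0 - 35 * x 1 - 31 * x 2)) / 97, (-19 - (-13 * x 0 - 2 * x 1 + x 2)) / 97,
        (36 - (-6 * x 0 + 14 * x 1 - 7 * x 2)) / 97, 0], ?_, ?_, ?_⟩
      · intro k
        fin_cases k <;> simp <;> linarith
      · simp [Fin.sum_univ_succ]
        ring
      · ext j
        fin_cases j <;> simp [Fin.sum_univ_succ, pv, V, vec] <;> ring
    · refine ⟨![-(36 - (-6 * x 0 + 14 * x 1 - 7 * x 2)) / 27, (9 - (x 1 + x 2)) / 3,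
        (-45 - (3 * x 0 - 7 * x 1 - 10 * x 2)) / 27,
        -(-9 - (3 * x 0 - 4 * x 1 + 2 * x 2)) / 9, 0, 0], ?_, ?_, ?_⟩
      · intro k
        fin_cases k <;> simp <;> linarith
      · simp [Fin.sum_univ_succ]
        ring
      · ext j
        fin_cases j <;> simp [Fin.sum_univ_succ, pv, V, vec] <;> ring

lemma Neg.lt {m1 n1 m2 n2 : ℤ} (h : Neg m1 n1 m2 n2) {r1 r2 : ℝ} (hr1 : 0 < r1) (hr2 : 0 < r2)
    (h1 : r1 ^ 2 = n1) (h2 : r2 ^ 2 = n2) : (m1 : ℝ) * r1⁻¹ + m2 * r2⁻¹ < 0 := by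
  have key : (m1 : ℝ) * r2 + m2 * r1 < 0 := by
    rcases h with ⟨ha, hb⟩ | ⟨ha, hb⟩ | ⟨ha, hb⟩ | ⟨ha, hb⟩
    · have ha' : (m1 : ℝ) ≤ 0 := by exact_mod_cast ha
      have hb' : (m2 : ℝ) < 0 := by exact_mod_cast hb
      nlinarith [mul_nonneg (neg_nonneg.2 ha') hr2.le, mul_pos (neg_pos.2 hb') hr1]
    · have ha' : (m1 : ℝ) < 0 := by exact_mod_cast ha
      have hb' : (m2 : ℝ) ≤ 0 := by exact_mod_cast hb
      nlinarith [mul_pos (neg_pos.2 ha') hr2, mul_nonneg (neg_nonneg.2 hb') hr1.le]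
    · have ha' : (m1 : ℝ) < 0 := by exact_mod_cast ha
      have hb' : (m2 : ℝ) ^ 2 * n1 < (m1 : ℝ) ^ 2 * n2 := by exact_mod_cast hb
      rw [← h1, ← h2] at hb'
      have h3 : (m2 * r1) ^ 2 < (-(m1 * r2)) ^ 2 := by nlinarith
      have h4 : 0 ≤ -((m1 : ℝ) * r2) := by nlinarith [mul_pos (neg_pos.2 ha') hr2]
      have h5 := (le_abs_self _).trans_lt (abs_lt_of_sq_lt_sq h3 h4)
      linarith
    · have ha' : (m2 : ℝ) < 0 := by exact_mod_cast ha
      have hb' : (m1 : ℝ) ^ 2 * n2 < (m2 : ℝ) ^ 2 * n1 := by exact_mod_cast hb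
      rw [← h1, ← h2] at hb'
      have h3 : (m1 * r2) ^ 2 < (-(m2 * r1)) ^ 2 := by nlinarith
      have h4 : 0 ≤ -((m2 : ℝ) * r1) := by nlinarith [mul_pos (neg_pos.2 ha') hr1]
      have h5 := (le_abs_self _).trans_lt (abs_lt_of_sq_lt_sq h3 h4)
      linarith
  have h3 : (m1 : ℝ) * r1⁻¹ + m2 * r2⁻¹ = (m1 * r2 + m2 * r1) / (r1 * r2) := by
    field_simp
  rw [h3]
  exact div_neg_of_neg_of_pos key (mul_pos hr1 hr2)

lemma inner_pv (A B C D : Fin 6) : ⟪pv A - pv B, pv C - pv D⟫ = (ip A B C D : ℝ) := by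
  rw [pv_sub, pv_sub, inner_vec_vec, ip]

lemma norm_pv_sq (A B : Fin 6) : ‖pv A - pv B‖ ^ 2 = (ip A B A B : ℝ) := by
  rw [← real_inner_self_eq_norm_sq, inner_pv]

/-- The turn condition. -/
lemma exists_turn : ∃ ε : ℝ, 0 < ε ∧ ε ≤ 1 ∧ ∀ A B C, Adj A B → Adj B C → rk B C < rk A B ∨
    ∃ k, ⟪ed B C - ed A B, pv k - pv B⟫ ≤ - ε := by
  have key : ∀ t : Fin 6 × Fin 6 × Fin 6, ∀ᶠ ε : ℝ in nhdsWithin 0 (Set.Ioi 0),
      (Adj t.1 t.2.1 → Adj t.2.1 t.2.2 → rk t.2.1 t.2.2 < rk t.1 t.2.1 ∨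
        ∃ k, ⟪ed t.2.1 t.2.2 - ed t.1 t.2.1, pv k - pv t.2.1⟫ ≤ - ε) := by
    rintro ⟨A, B, C⟩
    by_cases hAB : Adj A B
    swap
    · exact Filter.Eventually.of_forall (fun ε h => absurd h hAB)
    by_cases hBC : Adj B C
    swap
    · exact Filter.Eventually.of_forall (fun ε _ h => absurd h hBC)
    rcases turn A B C hAB hBC with h | ⟨k, hk⟩
    · exact Filter.Eventually.of_forall (fun ε _ _ => Or.inl h)
    · have h1 := one_le_norm_pv hAB.ne.symm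
      have h2 := one_le_norm_pv hBC.ne
      have h3 : ⟪ed B C - ed A B, pv k - pv B⟫ < 0 := by
        have h4 := hk.lt (r1 := ‖pv A - pv B‖) (r2 := ‖pv C - pv B‖) (by linarith) (by linarith)
          (norm_pv_sq A B) (norm_pv_sq C B)
        have h5 : ⟪ed B C - ed A B, pv k - pv B⟫ =
            (ip A B k B : ℝ) * ‖pv A - pv B‖⁻¹ + (ip C B k B : ℝ) * ‖pv C - pv B‖⁻¹ := by
          rw [inner_sub_left, ← inner_pv, ← inner_pv, ← neg_neg (ed A B), ← ed_symm, ed, ed,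
            inner_neg_left, real_inner_smul_left, real_inner_smul_left]
          ring
        rw [h5]; exact h4
      have h6 : Set.Ioo (0 : ℝ) (-⟪ed B C - ed A B, pv k - pv B⟫) ∈
          nhdsWithin (0 : ℝ) (Set.Ioi 0) := Ioo_mem_nhdsGT (by linarith)
      filter_upwards [h6] with ε hε _ _
      exact Or.inr ⟨k, by linarith [hε.2]⟩
  have key2 := Filter.eventually_all.2 key
  have key3 : ∀ᶠ ε : ℝ in nhdsWithin 0 (Set.Ioi 0), ε ∈ Set.Ioc (0 : ℝ) 1 :=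
    Ioc_mem_nhdsGT (by norm_num)
  obtain ⟨ε, h1, h2⟩ := (key2.and key3).exists
  exact ⟨ε, h2.1, h2.2, fun A B C hAB hBC => h1 ⟨A, B, C⟩ hAB hBC⟩

lemma sl_sum (F : Fin 8) (μ : Fin 6 → ℝ) (hμ : ∑ k, μ k = 1) :
    sl F (∑ k, μ k • pv k) = ∑ k, μ k * (S F k : ℝ) := by
  have h : ∀ k, (S F k : ℝ) = (NB F : ℝ) - ⟪na F, pv k⟫ := fun k => by rw [← sl_pv, sl]
  simp only [h, mul_sub, Finset.sum_sub_distrib, ← Finset.sum_mul, hμ, one_mul, sl, inner_sum,
    real_inner_smul_right]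

lemma near_metric {A B : Fin 6} {F G : Fin 8} (h : IsE A B F G) {x : E3} (hx : x ∈ Qs) {κ : ℝ}
    (hF : sl F x ≤ κ) (hG : sl G x ≤ κ) :
    ∃ s : ℝ, 0 ≤ s ∧ s ≤ 1 ∧ ‖x - (pv A + s • (pv B - pv A))‖ ≤ 24 * κ := by
  obtain ⟨μ, h0, h1, hx'⟩ := vrep x hx
  have hle : ∀ k, μ k ≤ 1 := fun k => h1 ▸ Finset.single_le_sum (fun j _ => h0 j) (Finset.mem_univ k)
  have hS : sl F x + sl G x = ∑ k, μ k * ((S F k : ℝ) + S G k) := by
    rw [hx', sl_sum F μ h1, sl_sum G μ h1, ← Finset.sum_add_distrib]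
    exact Finset.sum_congr rfl fun k _ => by ring
  have hS2 : ∀ k, (if k = A ∨ k = B then 0 else μ k) ≤ μ k * ((S F k : ℝ) + S G k) := by
    intro k
    split_ifs with hk
    · have h2 := S_nonneg F k
      have h3 := S_nonneg G k
      have h2' : (0 : ℝ) ≤ S F k := by exact_mod_cast h2
      have h3' : (0 : ℝ) ≤ S G k := by exact_mod_cast h3
      exact mul_nonneg (h0 k) (add_nonneg h2' h3')
    · push Not at hk
      have h2 := S_vert A B F G h k hk.1 hk.2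
      have h2' : (1 : ℝ) ≤ (S F k : ℝ) + S G k := by exact_mod_cast h2
      nlinarith [h0 k]
  have hS3 : ∑ k, (if k = A ∨ k = B then 0 else μ k) ≤ 2 * κ := by
    calc _ ≤ ∑ k, μ k * ((S F k : ℝ) + S G k) := Finset.sum_le_sum fun k _ => hS2 k
      _ ≤ 2 * κ := by rw [← hS]; linarith
  refine ⟨μ B, h0 B, hle B, ?_⟩
  have hx2 : x - (pv A + μ B • (pv B - pv A)) =
      ∑ k, (if k = A ∨ k = B then 0 else μ k) • (pv k - pv A) := by
    have h4 : ∀ k, (if k = A ∨ k = B then 0 else μ k) • (pv k - pv A) =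
        μ k • (pv k - pv A) - (if k = B then μ B • (pv B - pv A) else 0) := by
      intro k
      by_cases hkA : k = A
      · subst hkA
        simp [h.ne]
      · by_cases hkB : k = B
        · subst hkB; simp
        · simp [hkA, hkB]
    simp only [h4, Finset.sum_sub_distrib, Finset.sum_ite_eq', Finset.mem_univ, if_true, smul_sub,
      ← Finset.sum_smul, h1, one_smul]
    rw [hx']
    abel
  rw [hx2]
  calc ‖∑ k, (if k = A ∨ k = B then 0 else μ k) • (pv k - pv A)‖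
      ≤ ∑ k, ‖(if k = A ∨ k = B then 0 else μ k) • (pv k - pv A)‖ := norm_sum_le _ _
    _ ≤ ∑ k, (if k = A ∨ k = B then 0 else μ k) * 12 := by
        refine Finset.sum_le_sum fun k _ => ?_
        rw [norm_smul]
        have h5 : 0 ≤ (if k = A ∨ k = B then 0 else μ k) := by
          split_ifs
          · exact le_rfl
          · exact h0 k
        rw [Real.norm_of_nonneg h5]
        exact mul_le_mul_of_nonneg_left (norm_pv_le _ _) h5
    _ ≤ 24 * κ := by rw [← Finset.sum_mul]; linarith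

/-- the centre of the base polytope -/
noncomputable def ctr : E3 := ∑ k : Fin 6, (1 / 6 : ℝ) • pv k

lemma one_le_sl_ctr (F : Fin 8) : 1 ≤ sl F ctr := by
  rw [ctr, sl_sum F (fun _ => 1 / 6) (by simp), ← Finset.mul_sum]
  have h := S_row F
  have h' : (6 : ℝ) ≤ ∑ k, (S F k : ℝ) := by exact_mod_cast h
  linarith

lemma norm_ctr_sub_le (A : Fin 6) : ‖ctr - pv A‖ ≤ 12 := by
  have h : ctr - pv A = ∑ k : Fin 6, (1 / 6 : ℝ) • (pv k - pv A) := by
    simp only [ctr, smul_sub, Finset.sum_sub_distrib]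
    rw [← Finset.sum_smul (f := fun _ : Fin 6 => (1 / 6 : ℝ)) (x := pv A)]
    norm_num
  rw [h]
  calc ‖∑ k : Fin 6, (1 / 6 : ℝ) • (pv k - pv A)‖ ≤ ∑ k : Fin 6, ‖(1 / 6 : ℝ) • (pv k - pv A)‖ :=
        norm_sum_le _ _
    _ ≤ ∑ k : Fin 6, (1 / 6 : ℝ) * 12 := by
        refine Finset.sum_le_sum fun k _ => ?_
        rw [norm_smul, Real.norm_of_nonneg (by norm_num)]
        exact mul_le_mul_of_nonneg_left (norm_pv_le _ _) (by norm_num)
    _ = 12 := by simp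

/-- the base polytope has diameter at most 24 -/
lemma norm_sub_le_of_mem {x : E3} (hx : x ∈ Qs) (A : Fin 6) : ‖x - pv A‖ ≤ 12 := by
  obtain ⟨μ, h0, h1, hx'⟩ := vrep x hx
  have h : x - pv A = ∑ k : Fin 6, μ k • (pv k - pv A) := by
    rw [hx']
    simp only [smul_sub, Finset.sum_sub_distrib, ← Finset.sum_smul, h1, one_smul]
  rw [h]
  calc ‖∑ k : Fin 6, μ k • (pv k - pv A)‖ ≤ ∑ k : Fin 6, ‖μ k • (pv k - pv A)‖ :=
        norm_sum_le _ _
    _ ≤ ∑ k : Fin 6, μ k * 12 := by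
        refine Finset.sum_le_sum fun k _ => ?_
        rw [norm_smul, Real.norm_of_nonneg (h0 k)]
        exact mul_le_mul_of_nonneg_left (norm_pv_le _ _) (h0 k)
    _ = 12 := by rw [← Finset.sum_mul, h1, one_mul]

lemma norm_sub_le_of_mem_mem {x y : E3} (hx : x ∈ Qs) (hy : y ∈ Qs) : ‖x - y‖ ≤ 12 := by
  obtain ⟨μ, h0, h1, hx'⟩ := vrep x hx
  have h : x - y = ∑ k : Fin 6, μ k • (pv k - y) := by
    rw [hx']
    simp only [smul_sub, Finset.sum_sub_distrib, ← Finset.sum_smul, h1, one_smul]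
  rw [h]
  calc ‖∑ k : Fin 6, μ k • (pv k - y)‖ ≤ ∑ k : Fin 6, ‖μ k • (pv k - y)‖ :=
        norm_sum_le _ _
    _ ≤ ∑ k : Fin 6, μ k * 12 := by
        refine Finset.sum_le_sum fun k _ => ?_
        rw [norm_smul, Real.norm_of_nonneg (h0 k)]
        refine mul_le_mul_of_nonneg_left ?_ (h0 k)
        rw [norm_sub_rev]
        exact norm_sub_le_of_mem hy k
    _ = 12 := by rw [← Finset.sum_mul, h1, one_mul]

end QG
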