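import Pool.Agent.Lib_helper2.QG.Defs

/-!
# Polytopes given by finitely many inequalities
-/

open scoped RealInnerProductSpace

namespace QG

/-- a polytope given by inequalities -/
def HP {J : Type*} (a : J → E3) (b : J → ℝ) : Set E3 := {x | ∀ j, ⟪a j, x⟫ ≤ b j}

theorem isClosed_HP {J : Type*} (a : J → E3) (b : J → ℝ) : IsClosed (HP a b) := by
  have h : HP a b = ⋂ j, {x | ⟪a j, x⟫ ≤ b j} := by
    ext x; simp [HP]
  rw [h]
  exact isClosed_iInter fun j => isClosed_le (by fun_prop) continuous_const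

theorem frontier_HP {J : Type*} [Finite J] (a : J → E3) (b : J → ℝ) {x : E3}
    (hx : x ∈ frontier (HP a b)) : x ∈ HP a b ∧ ∃ j, ⟪a j, x⟫ = b j := by
  have hcl := isClosed_HP a b
  have hxm : x ∈ HP a b := hcl.frontier_subset hx
  refine ⟨hxm, ?_⟩
  by_contra hcon
  push Not at hcon
  apply hx.2
  rw [mem_interior]
  refine ⟨⋂ j, {y | ⟪a j, y⟫ < b j}, ?_, ?_, ?_⟩
  · intro y hy j
    exact (Set.mem_iInter.1 hy j).le
  · exact isOpen_iInter_of_finite fun j => isOpen_lt (by fun_prop) continuous_const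
  · exact Set.mem_iInter.2 fun j => lt_of_le_of_ne (hxm j) (hcon j)

theorem cone_HP {J : Type*} [Finite J] (a : J → E3) (b : J → ℝ) {x w : E3} (hx : x ∈ HP a b)
    (hw : ∀ j, ⟪a j, x⟫ = b j → ⟪a j, w⟫ ≤ 0) : ∃ ε : ℝ, 0 < ε ∧ x + ε • w ∈ HP a b := by
  have key : ∀ j, ∀ᶠ ε : ℝ in nhdsWithin 0 (Set.Ioi 0), ⟪a j, x + ε • w⟫ ≤ b j := by
    intro j
    rcases eq_or_lt_of_le (hx j) with h | h
    · filter_upwards [self_mem_nhdsWithin] with ε hε
      rw [inner_add_right, real_inner_smul_right, h]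
      have := mul_nonpos_of_nonneg_of_nonpos (le_of_lt (Set.mem_Ioi.1 hε)) (hw j h)
      linarith
    · have hcont : Filter.Tendsto (fun ε : ℝ => ⟪a j, x + ε • w⟫) (nhdsWithin 0 (Set.Ioi 0))
          (nhds ⟪a j, x + (0 : ℝ) • w⟫) := by
        apply Filter.Tendsto.mono_left _ nhdsWithin_le_nhds
        have : Continuous fun ε : ℝ => ⟪a j, x + ε • w⟫ := by fun_prop
        exact this.tendsto 0
      rw [zero_smul, add_zero] at hcont
      exact (hcont.eventually (gt_mem_nhds h)).mono fun _ h => le_of_lt h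
  have key2 := (Filter.eventually_all.2 key).and (self_mem_nhdsWithin)
  obtain ⟨ε, h1, h2⟩ := key2.exists
  exact ⟨ε, h2, h1⟩

/-- At every point of an edge (extreme segment) two constraints with independent normals are
active. -/
theorem edge_HP {J : Type*} [Finite J] (a : J → E3) (b : J → ℝ) {p q x : E3} (hpq : p ≠ q)
    (hE : IsExtreme ℝ (HP a b) (segment ℝ p q)) (hx : x ∈ segment ℝ p q) :
    ∃ i j, ⟪a i, x⟫ = b i ∧ ⟪a j, x⟫ = b j ∧ LinearIndependent ℝ ![a i, a j] := by
  by_contra hcon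
  push Not at hcon
  have hxm : x ∈ HP a b := hE.1 hx
  -- all active normals are multiples of one vector
  have hν : ∃ ν : E3, ∀ j, ⟪a j, x⟫ = b j → ∃ c : ℝ, a j = c • ν := by
    by_cases h : ∃ i, ⟪a i, x⟫ = b i ∧ a i ≠ 0
    · obtain ⟨i, hi, hi0⟩ := h
      refine ⟨a i, fun j hj => ?_⟩
      have h1 := hcon i j hi hj
      rw [LinearIndependent.pair_iff' hi0] at h1
      push Not at h1
      obtain ⟨c, hc⟩ := h1
      exact ⟨c, hc.symm⟩
    · push Not at h
      exact ⟨0, fun j hj => ⟨0, by rw [h j hj, smul_zero]⟩⟩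
  obtain ⟨ν, hν⟩ := hν
  -- a direction perpendicular to ν, not parallel to the segment
  have hw : ∃ w : E3, ⟪ν, w⟫ = 0 ∧ w ∉ Submodule.span ℝ {q - p} := by
    by_contra hcon2
    push Not at hcon2
    have h1 : (Submodule.span ℝ {ν})ᗮ ≤ Submodule.span ℝ {q - p} := by
      intro w hw
      exact hcon2 w ((Submodule.mem_orthogonal_singleton_iff_inner_right).1 hw)
    have h2 := Submodule.finrank_mono h1
    have h3 := Submodule.finrank_add_finrank_orthogonal (Submodule.span ℝ {ν} : Submodule ℝ E3)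
    have h4 : Module.finrank ℝ (Submodule.span ℝ {ν} : Submodule ℝ E3) ≤ 1 :=
      (finrank_span_le_card ({ν} : Set E3)).trans (by simp)
    have h5 : Module.finrank ℝ (Submodule.span ℝ {q - p} : Submodule ℝ E3) ≤ 1 :=
      (finrank_span_le_card ({q - p} : Set E3)).trans (by simp)
    have h6 : Module.finrank ℝ E3 = 3 := by simp
    omega
  obtain ⟨w, hw1, hw2⟩ := hw
  have hzero : ∀ j, ⟪a j, x⟫ = b j → ⟪a j, w⟫ = 0 := by
    intro j hj
    obtain ⟨c, hc⟩ := hν j hj
    rw [hc, real_inner_smul_left, hw1, mul_zero]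
  obtain ⟨ε, hε, h1⟩ := cone_HP a b hxm (w := w) (fun j hj => (hzero j hj).le)
  obtain ⟨δ, hδ, h2⟩ := cone_HP a b hxm (w := -w) (fun j hj => by
    rw [inner_neg_right, hzero j hj, neg_zero])
  have hopen : x ∈ openSegment ℝ (x + ε • w) (x + δ • -w) := by
    refine ⟨δ / (ε + δ), ε / (ε + δ), by positivity, by positivity, ?_, ?_⟩
    · field_simp
      ring
    · rw [smul_add, smul_add, smul_neg, smul_neg, smul_smul, smul_smul]
      have e1 : ε / (ε + δ) * δ = δ / (ε + δ) * ε := by ring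
      rw [e1]
      have e2 : (δ / (ε + δ)) • x + (δ / (ε + δ) * ε) • w + ((ε / (ε + δ)) • x +
          -((δ / (ε + δ) * ε) • w)) = (δ / (ε + δ) + ε / (ε + δ)) • x := by
        rw [add_smul]; abel
      rw [e2]
      have e3 : δ / (ε + δ) + ε / (ε + δ) = 1 := by field_simp; ring
      rw [e3, one_smul]
  have h3 : x + ε • w ∈ segment ℝ p q := hE.2 h1 h2 hx hopen
  apply hw2
  rw [segment_eq_image'] at hx h3
  obtain ⟨s, _, hs⟩ := hx
  obtain ⟨t, _, ht⟩ := h3
  simp only at hs ht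
  have h4 : ε • w = (t - s) • (q - p) := by
    have h5 : ε • w = (x + ε • w) - x := by abel
    rw [h5, ← ht, ← hs, sub_smul]; abel
  have h6 : w = (ε⁻¹ * (t - s)) • (q - p) := by
    rw [mul_smul, ← h4, smul_smul, inv_mul_cancel₀ hε.ne', one_smul]
  rw [h6]
  exact Submodule.smul_mem _ _ (Submodule.mem_span_singleton_self _)

end QG
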