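import Pool.Agent.Lib_helper2.QG.Cross
import Pool.Agent.Lib_helper2.QG.HPoly

/-!
# The polytope and the structure of paths on it
-/

open scoped RealInnerProductSpace

namespace QG

/-- two faces of the base polytope share an edge -/
def AdjF (F G : Fin 8) : Prop := ∃ A B, IsE A B F G

instance (F G : Fin 8) : Decidable (AdjF F G) := by
  unfold AdjF; infer_instance

/-- a family of chains, one for each edge of the base polytope -/
structure Fam (κ : ℝ) (m : ℕ) where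
  /-- the chains -/
  ch : Fin 8 → Fin 8 → Chain κ m
  blunt : ∀ A B F G, IsE A B F G → (ch F G).Blunt (gr F F) (gr F G) (gr G G)
  hκ : 0 < κ
  κ1 : κ ≤ 1 / 4
  hm : 1 ≤ m

/-- index type of the constraints -/
abbrev J (m : ℕ) := Fin 8 × Fin 8 × Fin (m + 2)

namespace Fam

variable {κ : ℝ} {m : ℕ} (f : Fam κ m)

/-- normals of the constraints -/
noncomputable def nrm (j : J m) : E3 :=
  if j.1 < j.2.1 ∧ AdjF j.1 j.2.1 then
    (f.ch j.1 j.2.1).P j.2.2 • na j.1 + (f.ch j.1 j.2.1).Q j.2.2 • na j.2.1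
  else na j.1

/-- right hand sides of the constraints -/
noncomputable def bnd (j : J m) : ℝ :=
  if j.1 < j.2.1 ∧ AdjF j.1 j.2.1 then
    (f.ch j.1 j.2.1).P j.2.2 * NB j.1 + (f.ch j.1 j.2.1).Q j.2.2 * NB j.2.1 -
      (f.ch j.1 j.2.1).c j.2.2
  else NB j.1

/-- slack of the constraints -/
noncomputable def con (j : J m) (x : E3) : ℝ := f.bnd j - ⟪f.nrm j, x⟫

/-- The polytope. -/
def K : Set E3 := HP f.nrm f.bnd

lemma mem_K {x : E3} : x ∈ f.K ↔ ∀ j, 0 ≤ f.con j x := by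
  simp only [K, HP, Set.mem_ofPred_eq, con, sub_nonneg]

lemma con_of {j : J m} (h : j.1 < j.2.1 ∧ AdjF j.1 j.2.1) (x : E3) :
    f.con j x = (f.ch j.1 j.2.1).h j.2.2 (sl j.1 x) (sl j.2.1 x) := by
  rw [con, bnd, nrm, if_pos h, if_pos h, inner_add_left, real_inner_smul_left,
    real_inner_smul_left, Chain.h, sl, sl]
  ring

lemma con_of_not {j : J m} (h : ¬ (j.1 < j.2.1 ∧ AdjF j.1 j.2.1)) (x : E3) :
    f.con j x = sl j.1 x := by
  rw [con, bnd, nrm, if_neg h, if_neg h, sl]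

lemma sl_nonneg {x : E3} (hx : x ∈ f.K) (F : Fin 8) : 0 ≤ sl F x := by
  have h := f.mem_K.1 hx (F, F, 0)
  rwa [f.con_of_not (by simp)] at h

lemma K_subset : f.K ⊆ Qs := fun _ hx F => f.sl_nonneg hx F

/-- every constraint is either a face constraint or an inner line of a chain -/
lemma con_cases (j : J m) : (∃ F, f.nrm j = na F ∧ f.bnd j = NB F) ∨
    (j.1 < j.2.1 ∧ AdjF j.1 j.2.1 ∧ 1 ≤ (j.2.2 : ℕ) ∧ (j.2.2 : ℕ) ≤ m) := by
  by_cases h : j.1 < j.2.1 ∧ AdjF j.1 j.2.1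
  · rcases Nat.eq_zero_or_pos (j.2.2 : ℕ) with h0 | h0
    · left
      refine ⟨j.1, ?_, ?_⟩
      · rw [nrm, if_pos h, h0, Chain.P0, Chain.Q0, one_smul, zero_smul, add_zero]
      · rw [bnd, if_pos h, h0, Chain.P0, Chain.Q0, Chain.c0]; ring
    · rcases eq_or_lt_of_le (Nat.lt_succ_iff.1 j.2.2.2) with h1 | h1
      · left
        refine ⟨j.2.1, ?_, ?_⟩
        · rw [nrm, if_pos h, h1, Chain.Pm, Chain.Qm, one_smul, zero_smul, zero_add]
        · rw [bnd, if_pos h, h1, Chain.Pm, Chain.Qm, Chain.cm]; ring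
      · right
        exact ⟨h.1, h.2, h0, by omega⟩
  · left
    exact ⟨j.1, by rw [nrm, if_neg h], by rw [bnd, if_neg h]⟩

lemma con_eq_sl {j : J m} {F : Fin 8} (h1 : f.nrm j = na F) (h2 : f.bnd j = NB F) (x : E3) :
    f.con j x = sl F x := by
  rw [con, h1, h2, sl]

/-- points with large slacks satisfy all constraints strictly -/
lemma con_pos {x : E3} (hx : ∀ F, κ < sl F x) (j : J m) : 0 < f.con j x := by
  have hκ := f.hκ
  rcases f.con_cases j with ⟨F, h1, h2⟩ | ⟨h1, h2, h3, h4⟩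
  · rw [f.con_eq_sl h1 h2]; linarith [hx F]
  · rw [f.con_of ⟨h1, h2⟩, Chain.h]
    have h5 := (f.ch j.1 j.2.1).Ppos _ h4
    have h6 := (f.ch j.1 j.2.1).Qpos _ h3 (by omega)
    have h7 := (f.ch j.1 j.2.1).cle _ (by omega : (j.2.2 : ℕ) ≤ m + 1)
    have h8 := hx j.1
    have h9 := hx j.2.1
    nlinarith

lemma mem_K_of {x : E3} (hx : ∀ F, κ < sl F x) : x ∈ f.K :=
  f.mem_K.2 fun j => (f.con_pos hx j).le

lemma ball {x : E3} (hx : ‖x - ctr‖ ≤ 1 / 100) : x ∈ f.K := by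
  apply f.mem_K_of
  intro F
  have h1 := one_le_sl_ctr F
  have h2 := (abs_le.1 ((sl_lip F x ctr).trans (mul_le_mul_of_nonneg_left hx (by norm_num)))).1
  have := f.κ1
  linarith

lemma vert {ρ : ℝ} (hρ0 : 0 < ρ) (hρ1 : ρ ≤ 1) (hκρ : 12 * κ < ρ) (k : Fin 6) :
    ∃ x ∈ f.K, ‖x - pv k‖ ≤ ρ := by
  refine ⟨pv k + (ρ / 12) • (ctr - pv k), ?_, ?_⟩
  · apply f.mem_K_of
    intro F
    have h1 := one_le_sl_ctr F
    have h2 : sl F (pv k + (ρ / 12) • (ctr - pv k)) =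
        (1 - ρ / 12) * sl F (pv k) + ρ / 12 * sl F ctr := by
      have h3 := sl_sub F ctr (pv k)
      rw [sl_add, real_inner_smul_right]
      have h4 : ⟪na F, ctr - pv k⟫ = sl F (pv k) - sl F ctr := by linarith
      rw [h4]; ring
    have h5 : (0 : ℝ) ≤ S F k := by exact_mod_cast S_nonneg F k
    rw [h2, sl_pv]
    nlinarith
  · rw [add_sub_cancel_left, norm_smul, Real.norm_of_nonneg (by positivity)]
    have := norm_ctr_sub_le k
    nlinarith [norm_nonneg (ctr - pv k)]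

/-- corners are near edges -/
lemma near {x : E3} (hx : x ∈ f.K) {j1 j2 : J m} (h1 : f.con j1 x = 0) (h2 : f.con j2 x = 0)
    (hl : LinearIndependent ℝ ![f.nrm j1, f.nrm j2]) :
    ∃ A B F G, IsE A B F G ∧ sl F x ≤ κ ∧ sl G x ≤ κ := by
  have hκ := f.hκ
  have key : ∀ j : J m, f.con j x = 0 →
      (∃ A B F G, IsE A B F G ∧ sl F x ≤ κ ∧ sl G x ≤ κ) ∨
      ∃ F, f.nrm j = na F ∧ sl F x = 0 := by
    intro j hj
    rcases f.con_cases j with ⟨F, h3, h4⟩ | ⟨h3, h4, h5, h6⟩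
    · right
      exact ⟨F, h3, by rw [← f.con_eq_sl h3 h4, hj]⟩
    · left
      obtain ⟨A, B, hAB⟩ := h4
      rw [f.con_of ⟨h3, ⟨A, B, hAB⟩⟩] at hj
      obtain ⟨h7, h8⟩ := (f.ch j.1 j.2.1).le_of_h_eq h5 h6 (f.sl_nonneg hx _) (f.sl_nonneg hx _) hj
      exact ⟨A, B, _, _, hAB, h7, h8⟩
  rcases key j1 h1 with h3 | ⟨F, hF, hF0⟩
  · exact h3
  rcases key j2 h2 with h3 | ⟨G, hG, hG0⟩
  · exact h3
  have hFG : F ≠ G := by
    rintro rfl
    rw [hF, hG] at hl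
    have h3 := hl.injective
    have h4 : (0 : Fin 2) = 1 := h3 (by simp)
    exact absurd h4 (by decide)
  rcases S_pair F G hFG with ⟨A, B, hAB⟩ | ⟨k, hk⟩
  · exact ⟨A, B, F, G, hAB, by linarith, by linarith⟩
  · obtain ⟨μ, h0, hs, hx'⟩ := vrep x (f.K_subset hx)
    have e1 : ∀ H : Fin 8, sl H x = 0 → ∀ l, μ l * (S H l : ℝ) = 0 := by
      intro H hH l
      rw [hx', sl_sum H μ hs] at hH
      have h5 : ∀ l ∈ Finset.univ, 0 ≤ μ l * (S H l : ℝ) := by
        intro l _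
        exact mul_nonneg (h0 l) (by exact_mod_cast S_nonneg H l)
      exact (Finset.sum_eq_zero_iff_of_nonneg h5).1 hH l (Finset.mem_univ l)
    have e2 : ∀ l, l ≠ k → μ l = 0 := by
      intro l hl'
      by_contra hcon
      have h5 := (mul_eq_zero.1 (e1 F hF0 l)).resolve_left hcon
      have h6 := (mul_eq_zero.1 (e1 G hG0 l)).resolve_left hcon
      exact hl' (hk l (by exact_mod_cast h5) (by exact_mod_cast h6))
    have e3 : μ k = 1 := by
      rw [← hs, Finset.sum_eq_single k (fun l _ hl' => e2 l hl') (by simp)]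
    have e4 : x = pv k := by
      rw [hx', Finset.sum_eq_single k (fun l _ hl' => by rw [e2 l hl', zero_smul]) (by simp), e3,
        one_smul]
    obtain ⟨B, F', G', hE⟩ := exists_adj k
    refine ⟨k, B, F', G', hE, ?_, ?_⟩
    · rw [e4, sl_pv, hE.2.2.1]; simpa using hκ.le
    · rw [e4, sl_pv, hE.2.2.2.2.1]; simpa using hκ.le

/-- active constraints near the middle of an edge -/
lemma act_mid {A B : Fin 6} {F G : Fin 8} (hFG : F < G) {x : E3}
    (hx : x ∈ f.K) (hoth : ∀ H, H ≠ F → H ≠ G → κ < sl H x) {j : J m} (hj : f.con j x = 0)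
    (_h : IsE A B F G) :
    ∃ i ≤ m + 1, f.nrm j = (f.ch F G).P i • na F + (f.ch F G).Q i • na G ∧
      f.bnd j = (f.ch F G).P i * NB F + (f.ch F G).Q i * NB G - (f.ch F G).c i := by
  have hκ := f.hκ
  have hmem : ∀ H, sl H x ≤ κ → H = F ∨ H = G := by
    intro H hH
    by_contra hcon
    push Not at hcon
    have := hoth H hcon.1 hcon.2
    linarith
  rcases f.con_cases j with ⟨H, h3, h4⟩ | ⟨h3, h4, h5, h6⟩
  · rw [f.con_eq_sl h3 h4] at hj
    rcases hmem H (by linarith) with rfl | rfl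
    · refine ⟨0, by omega, ?_, ?_⟩
      · rw [h3, Chain.P0, Chain.Q0, one_smul, zero_smul, add_zero]
      · rw [h4, Chain.P0, Chain.Q0, Chain.c0]; ring
    · refine ⟨m + 1, le_rfl, ?_, ?_⟩
      · rw [h3, Chain.Pm, Chain.Qm, one_smul, zero_smul, zero_add]
      · rw [h4, Chain.Pm, Chain.Qm, Chain.cm]; ring
  · rw [f.con_of ⟨h3, h4⟩] at hj
    obtain ⟨h7, h8⟩ := (f.ch j.1 j.2.1).le_of_h_eq h5 h6 (f.sl_nonneg hx _) (f.sl_nonneg hx _) hj
    have h9 : j.1 = F ∧ j.2.1 = G := by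
      rcases hmem _ h7 with h10 | h10 <;> rcases hmem _ h8 with h11 | h11
      · rw [h10, h11] at h3; exact absurd h3 (lt_irrefl _)
      · exact ⟨h10, h11⟩
      · rw [h10, h11] at h3; exact absurd (h3.trans hFG) (lt_irrefl _)
      · rw [h10, h11] at h3; exact absurd h3 (lt_irrefl _)
    refine ⟨j.2.2, by omega, ?_, ?_⟩
    · rw [nrm, if_pos ⟨h3, h4⟩, h9.1, h9.2]
    · rw [bnd, if_pos ⟨h3, h4⟩, h9.1, h9.2]

lemma con_eq_h {F G : Fin 8} {j : J m} {i : ℕ}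
    (h1 : f.nrm j = (f.ch F G).P i • na F + (f.ch F G).Q i • na G)
    (h2 : f.bnd j = (f.ch F G).P i * NB F + (f.ch F G).Q i * NB G - (f.ch F G).c i) (x : E3) :
    f.con j x = (f.ch F G).h i (sl F x) (sl G x) := by
  rw [con, h1, h2, inner_add_left, real_inner_smul_left, real_inner_smul_left, Chain.h, sl, sl]
  ring

end Fam

/-- A path on the boundary of the polytope, with corners on the edges. -/
structure PPath {κ : ℝ} {m : ℕ} (f : Fam κ m) (γ : LPath f.K) : Prop where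
  mem : ∀ i, γ.p i ∈ f.K
  seg : ∀ i, ∃ j, f.con j (γ.p i) = 0 ∧ f.con j (γ.p (i + 1)) = 0
  crn : ∀ i, ∃ j1 j2, f.con j1 (γ.p i) = 0 ∧ f.con j2 (γ.p i) = 0 ∧
    LinearIndependent ℝ ![f.nrm j1, f.nrm j2]

namespace PPath

variable {κ : ℝ} {m : ℕ} {f : Fam κ m} {γ : LPath f.K} (Y : PPath f γ)

include Y

lemma rev : PPath f γ.rev where
  mem := fun i => Y.mem (-i)
  seg := fun i => by
    obtain ⟨j, h1, h2⟩ := Y.seg (-i - 1)
    rw [sub_add_cancel] at h2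
    refine ⟨j, h2, ?_⟩
    have h3 : γ.rev.p (i + 1) = γ.p (-i - 1) := by simp only [LPath.rev]; congr 1; ring
    rw [h3]; exact h1
  crn := fun i => Y.crn (-i)

lemma near (i : ℤ) : ∃ A B F G, IsE A B F G ∧ sl F (γ.p i) ≤ κ ∧ sl G (γ.p i) ≤ κ := by
  obtain ⟨j1, j2, h1, h2, h3⟩ := Y.crn i
  exact f.near (Y.mem i) h1 h2 h3

lemma nonadj {ρ : ℝ} (hρ : 1000000 * ρ ≤ 1) (i : ℤ) {A B : Fin 6} (hne : A ≠ B)
    (hadj : ¬ Adj A B) (hκ : κ < 1 / 4)
    (h1 : ‖γ.p i - pv A‖ ≤ 20 * ρ) (h2 : ‖γ.p (i + 1) - pv B‖ ≤ 20 * ρ) : False := by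
  obtain ⟨j, h3, h4⟩ := Y.seg i
  set x := (1 / 2 : ℝ) • γ.p i + (1 / 2 : ℝ) • γ.p (i + 1) with hx
  have h5 : f.con j x = 0 := by
    rw [Fam.con] at h3 h4 ⊢
    rw [hx, inner_add_right, real_inner_smul_right, real_inner_smul_right]
    linarith
  have h6 : ∀ F, κ < sl F x := by
    intro F
    have e1 : sl F x = (sl F (γ.p i) + sl F (γ.p (i + 1))) / 2 := by
      rw [hx, sl, sl, sl, inner_add_right, real_inner_smul_right, real_inner_smul_right]
      ring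
    have e2 := (abs_le.1 ((sl_lip F _ _).trans (mul_le_mul_of_nonneg_left h1 (by norm_num)))).1
    have e3 := (abs_le.1 ((sl_lip F _ _).trans (mul_le_mul_of_nonneg_left h2 (by norm_num)))).1
    rw [sl_pv] at e2 e3
    have e4 : (1 : ℝ) ≤ S F A + S F B := by exact_mod_cast S_nonadj A B hne hadj F
    rw [e1]
    linarith
  exact (f.con_pos h6 j).ne' h5

/-- other faces are far from the middle of an edge -/
lemma other {A B : Fin 6} {F G : Fin 8} (h : IsE A B F G) {σ : ℝ} (hσ : 15601 * κ < σ) {i : ℤ}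
    (hF : sl F (γ.p i) ≤ κ) (hG : sl G (γ.p i) ≤ κ) (h1 : σ ≤ sp A B (γ.p i))
    (h2 : sp A B (γ.p i) ≤ 1 - σ) (H : Fin 8) (hHF : H ≠ F) (hHG : H ≠ G) :
    κ < sl H (γ.p i) := by
  have hκ := f.hκ
  have h3 := (near_sp h (f.K_subset (Y.mem i)) hF hG).2.2
  have h4 := sl_mid h h3 h1 h2 (by linarith) hHF hHG
  linarith

lemma cross {A B : Fin 6} {F G : Fin 8} (h : IsE A B F G) (hFG : F < G) {σ : ℝ}
    (hσ : 15601 * κ < σ) : Cross γ A B F G σ (f.ch F G) where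
  hE := h
  hm := f.hm
  blunt := f.blunt A B F G h
  all := fun i j hj => by
    have h1 := f.mem_K.1 (Y.mem i) (F, G, ⟨j, by omega⟩)
    rw [f.con_of ⟨hFG, ⟨A, B, h⟩⟩] at h1
    exact h1
  corner := fun i hF hG h1 h2 => by
    obtain ⟨j1, j2, h3, h4, h5⟩ := Y.crn i
    have hoth := Y.other h hσ hF hG h1 h2
    obtain ⟨i1, hi1, e1, e2⟩ := f.act_mid hFG (Y.mem i) hoth h3 h
    obtain ⟨i2, hi2, e3, e4⟩ := f.act_mid hFG (Y.mem i) hoth h4 h
    have hne : i1 ≠ i2 := by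
      rintro rfl
      rw [e1, e3] at h5
      have h6 : (0 : Fin 2) = 1 := h5.injective (by simp)
      exact absurd h6 (by decide)
    rw [f.con_eq_h e1 e2] at h3
    rw [f.con_eq_h e3 e4] at h4
    have hall : ∀ j ≤ m + 1, 0 ≤ (f.ch F G).h j (sl F (γ.p i)) (sl G (γ.p i)) := by
      intro j hj
      have h1 := f.mem_K.1 (Y.mem i) (F, G, ⟨j, by omega⟩)
      rw [f.con_of ⟨hFG, ⟨A, B, h⟩⟩] at h1
      exact h1
    rcases lt_or_gt_of_ne hne with h6 | h6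
    · obtain ⟨h7, h8, h9⟩ := (f.ch F G).pair hall h6 hi2 h3 h4
      exact ⟨i1, by omega, h8, h9⟩
    · obtain ⟨h7, h8, h9⟩ := (f.ch F G).pair hall h6 hi1 h4 h3
      exact ⟨i2, by omega, h8, h9⟩
  seg := fun i hF hG h1 h2 => by
    obtain ⟨j, h3, h4⟩ := Y.seg i
    obtain ⟨i1, hi1, e1, e2⟩ := f.act_mid hFG (Y.mem i) (Y.other h hσ hF hG h1 h2) h3 h
    rw [f.con_eq_h e1 e2] at h3 h4
    exact ⟨i1, hi1, h3, h4⟩
  seg' := fun i hF hG h1 h2 => by
    obtain ⟨j, h3, h4⟩ := Y.seg (i - 1)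
    rw [sub_add_cancel] at h4
    obtain ⟨i1, hi1, e1, e2⟩ := f.act_mid hFG (Y.mem i) (Y.other h hσ hF hG h1 h2) h4 h
    rw [f.con_eq_h e1 e2] at h3 h4
    exact ⟨i1, hi1, h4, h3⟩
  cone := fun i h1 h2 k hk ha hb w h3 h4 => by
    have hkl := (f.ch F G).kink_le f.hm hk
    have hF : sl F (γ.p i) ≤ κ := ha ▸ hkl.1
    have hG : sl G (γ.p i) ≤ κ := hb ▸ hkl.2
    have hmem : γ.p i ∈ HP f.nrm f.bnd := Y.mem i
    apply cone_HP f.nrm f.bnd hmem
    intro j hj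
    have hj' : f.con j (γ.p i) = 0 := by rw [Fam.con]; linarith
    obtain ⟨i1, hi1, e1, e2⟩ := f.act_mid hFG (Y.mem i) (Y.other h hσ hF hG h1 h2) hj' h
    rw [f.con_eq_h e1 e2, ha, hb] at hj'
    have hi2 : i1 = k ∨ i1 = k + 1 := by
      by_contra hcon
      push Not at hcon
      exact ((f.ch F G).h_pos hk hi1 hcon.1 hcon.2).ne' hj'
    rw [e1, inner_add_left, real_inner_smul_left, real_inner_smul_left]
    rcases hi2 with rfl | rfl
    · exact h3
    · exact h4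

end PPath

end QG
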