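import Mathlib

/-!
# Convex chains of lines in the plane
-/

namespace QG

/-- A convex chain: lines `P i * a + Q i * b = c i` for `i = 0, …, m + 1`, with the kinks
`(α k, β k)`, the intersections of the lines `k` and `k + 1`, `k = 0, …, m`. -/
structure Chain (κ : ℝ) (m : ℕ) where
  /-- first coefficient -/
  P : ℕ → ℝ
  /-- second coefficient -/
  Q : ℕ → ℝ
  /-- constant -/
  c : ℕ → ℝ
  /-- first coordinate of the kinks -/
  α : ℕ → ℝ
  /-- second coordinate of the kinks -/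
  β : ℕ → ℝ
  P0 : P 0 = 1
  Q0 : Q 0 = 0
  Pm : P (m + 1) = 0
  Qm : Q (m + 1) = 1
  c0 : c 0 = 0
  cm : c (m + 1) = 0
  Ppos : ∀ i ≤ m, 1 ≤ P i
  Qpos : ∀ i, 1 ≤ i → i ≤ m + 1 → 1 ≤ Q i
  on1 : ∀ i ≤ m, P i * α i + Q i * β i = c i
  on2 : ∀ i ≤ m, P (i + 1) * α i + Q (i + 1) * β i = c (i + 1)
  cle : ∀ i ≤ m + 1, c i ≤ κ
  cross : ∀ i j, i < j → j ≤ m + 1 → P j * Q i < P i * Q j
  step : ∀ i < m, ∃ τ > 0, α (i + 1) - α i = τ * Q (i + 1) ∧ β (i + 1) - β i = -(τ * P (i + 1))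

namespace Chain

variable {κ : ℝ} {m : ℕ} (c : Chain κ m)

/-- the `i`-th constraint -/
def h (i : ℕ) (a b : ℝ) : ℝ := c.P i * a + c.Q i * b - c.c i

/-- the reversed chain -/
def rev : Chain κ m where
  P := fun i => c.Q (m + 1 - i)
  Q := fun i => c.P (m + 1 - i)
  c := fun i => c.c (m + 1 - i)
  α := fun k => c.β (m - k)
  β := fun k => c.α (m - k)
  P0 := by simpa using c.Qm
  Q0 := by simpa using c.Pm
  Pm := by simpa using c.Q0
  Qm := by simpa using c.P0
  c0 := by simpa using c.cm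
  cm := by simpa using c.c0
  Ppos := fun i hi => c.Qpos _ (by omega) (by omega)
  Qpos := fun i _ _ => c.Ppos _ (by omega)
  on1 := fun i hi => by
    have h1 := c.on2 (m - i) (by omega)
    rw [show m + 1 - i = m - i + 1 by omega]
    linarith
  on2 := fun i hi => by
    have h1 := c.on1 (m - i) (by omega)
    rw [show m + 1 - (i + 1) = m - i by omega]
    linarith
  cle := fun i hi => c.cle _ (by omega)
  cross := fun i j hij hj => by
    have := c.cross (m + 1 - j) (m + 1 - i) (by omega) (by omega)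
    linarith
  step := fun i hi => by
    obtain ⟨τ, hτ, h1, h2⟩ := c.step (m - (i + 1)) (by omega)
    rw [show m - (i + 1) + 1 = m - i by omega] at h1 h2
    refine ⟨τ, hτ, ?_, ?_⟩
    · rw [show m + 1 - (i + 1) = m - i by omega]
      linarith
    · rw [show m + 1 - (i + 1) = m - i by omega]
      linarith

/-- The normals of consecutive lines have positive inner product, with respect to the quadratic
form with coefficients `A`, `B`, `C`. -/
def Blunt (A B C : ℝ) : Prop := ∀ i ≤ m, 0 < c.P i * c.P (i + 1) * A +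
  (c.P i * c.Q (i + 1) + c.P (i + 1) * c.Q i) * B + c.Q i * c.Q (i + 1) * C

lemma Blunt.rev {c : Chain κ m} {A B C : ℝ} (h : c.Blunt A B C) : c.rev.Blunt C B A := by
  intro i hi
  have h1 := h (m - i) (by omega)
  simp only [Chain.rev]
  rw [show m + 1 - i = m - i + 1 by omega, show m + 1 - (i + 1) = m - i by omega]
  linarith

lemma rev_h {i : ℕ} (hi : i ≤ m + 1) (a b : ℝ) : c.rev.h i b a = c.h (m + 1 - i) a b := by
  simp only [h, rev]; ring

lemma h_on1 {i : ℕ} (hi : i ≤ m) : c.h i (c.α i) (c.β i) = 0 := by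
  rw [h, c.on1 i hi, sub_self]

lemma h_on2 {i : ℕ} (hi : i ≤ m) : c.h (i + 1) (c.α i) (c.β i) = 0 := by
  rw [h, c.on2 i hi, sub_self]

lemma h_sub (i : ℕ) (a b a' b' : ℝ) :
    c.h i a b - c.h i a' b' = c.P i * (a - a') + c.Q i * (b - b') := by
  simp only [h]; ring

lemma h_pos1 {j k : ℕ} (hjk : j < k) (hk : k ≤ m) : 0 < c.h j (c.α k) (c.β k) := by
  induction k, hjk using Nat.le_induction with
  | base =>
    obtain ⟨τ, hτ, h1, h2⟩ := c.step j (by omega)
    have h3 := c.h_on1 (i := j) (by omega)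
    have h4 := c.h_sub j (c.α (j + 1)) (c.β (j + 1)) (c.α j) (c.β j)
    have h5 := c.cross j (j + 1) (by omega) (by omega)
    rw [h1, h2, h3] at h4
    have h6 := mul_pos hτ (sub_pos.2 h5)
    simp only [Nat.succ_eq_add_one]
    nlinarith
  | succ k hk' ih =>
    obtain ⟨τ, hτ, h1, h2⟩ := c.step k (by omega)
    have h3 := ih (by omega)
    have h4 := c.h_sub j (c.α (k + 1)) (c.β (k + 1)) (c.α k) (c.β k)
    have h5 := c.cross j (k + 1) (by omega) (by omega)
    rw [h1, h2] at h4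
    have h6 := mul_pos hτ (sub_pos.2 h5)
    nlinarith

lemma h_pos2 {j k : ℕ} (hjk : k + 1 < j) (hj : j ≤ m + 1) : 0 < c.h j (c.α k) (c.β k) := by
  have h1 := c.rev.h_pos1 (j := m + 1 - j) (k := m - k) (by omega) (by omega)
  have h2 := c.rev_h (i := m + 1 - j) (by omega) (c.α k) (c.β k)
  have h3 : c.rev.α (m - k) = c.β k := by simp only [rev]; congr 1; omega
  have h4 : c.rev.β (m - k) = c.α k := by simp only [rev]; congr 1; omega
  rw [h3, h4, h2, show m + 1 - (m + 1 - j) = j by omega] at h1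
  exact h1

/-- only the lines `k` and `k + 1` pass through the kink `k` -/
lemma h_pos {j k : ℕ} (hk : k ≤ m) (hj : j ≤ m + 1) (h1 : j ≠ k) (h2 : j ≠ k + 1) :
    0 < c.h j (c.α k) (c.β k) := by
  rcases lt_or_gt_of_ne h1 with h3 | h3
  · exact c.h_pos1 h3 hk
  · exact c.h_pos2 (by omega) hj

lemma h_nonneg {j k : ℕ} (hk : k ≤ m) (hj : j ≤ m + 1) : 0 ≤ c.h j (c.α k) (c.β k) := by
  by_cases h1 : j = k
  · subst h1; exact (c.h_on1 hk).ge
  · by_cases h2 : j = k + 1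
    · subst h2; exact (c.h_on2 hk).ge
    · exact (c.h_pos hk hj h1 h2).le

lemma α_nonneg {k : ℕ} (hk : k ≤ m) : 0 ≤ c.α k := by
  have h1 := c.h_nonneg hk (Nat.zero_le (m + 1))
  rw [h, c.P0, c.Q0, c.c0] at h1
  linarith

lemma β_nonneg {k : ℕ} (hk : k ≤ m) : 0 ≤ c.β k := by
  have h1 := c.h_nonneg hk (le_refl (m + 1))
  rw [h, c.Pm, c.Qm, c.cm] at h1
  linarith

/-- points on the inner lines are close to the corner -/
lemma le_of_h_eq {i : ℕ} (h1 : 1 ≤ i) (h2 : i ≤ m) {a b : ℝ} (ha : 0 ≤ a) (hb : 0 ≤ b)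
    (hi : c.h i a b = 0) : a ≤ κ ∧ b ≤ κ := by
  have h3 := c.Ppos i h2
  have h4 := c.Qpos i h1 (by omega)
  have h5 := c.cle i (by omega)
  rw [h] at hi
  constructor <;> nlinarith [mul_nonneg (sub_nonneg.2 h3) ha, mul_nonneg (sub_nonneg.2 h4) hb]

lemma kink_le (hm : 1 ≤ m) {k : ℕ} (hk : k ≤ m) : c.α k ≤ κ ∧ c.β k ≤ κ := by
  rcases Nat.eq_zero_or_pos k with h0 | h0
  · subst h0
    exact c.le_of_h_eq le_rfl hm (c.α_nonneg hk) (c.β_nonneg hk) (c.h_on2 (Nat.zero_le m))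
  · exact c.le_of_h_eq h0 hk (c.α_nonneg hk) (c.β_nonneg hk) (c.h_on1 hk)

/-- two active lines meet at a kink -/
lemma pair {a b : ℝ} (hall : ∀ i ≤ m + 1, 0 ≤ c.h i a b) {i j : ℕ} (hij : i < j)
    (hj : j ≤ m + 1) (h1 : c.h i a b = 0) (h2 : c.h j a b = 0) :
    j = i + 1 ∧ a = c.α i ∧ b = c.β i := by
  have hi : i ≤ m := by omega
  have e1 := c.h_sub i a b (c.α i) (c.β i)
  rw [h1, c.h_on1 hi, sub_zero] at e1
  by_cases hj2 : j = i + 1
  · subst hj2
    have e2 := c.h_sub (i + 1) a b (c.α i) (c.β i)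
    rw [h2, c.h_on2 hi, sub_zero] at e2
    have e3 := c.cross i (i + 1) hij hj
    have e4 : (c.P i * c.Q (i + 1) - c.P (i + 1) * c.Q i) * (a - c.α i) = 0 := by
      linear_combination (-c.Q (i + 1)) * e1 + c.Q i * e2
    have e5 : (c.P i * c.Q (i + 1) - c.P (i + 1) * c.Q i) * (b - c.β i) = 0 := by
      linear_combination (c.P (i + 1)) * e1 - c.P i * e2
    have e6 : c.P i * c.Q (i + 1) - c.P (i + 1) * c.Q i ≠ 0 := by linarith
    refine ⟨rfl, ?_, ?_⟩
    · have := (mul_eq_zero.1 e4).resolve_left e6; linarith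
    · have := (mul_eq_zero.1 e5).resolve_left e6; linarith
  · exfalso
    have e2 := c.h_sub (i + 1) a b (c.α i) (c.β i)
    rw [c.h_on2 hi, sub_zero] at e2
    have e3 := c.h_sub j a b (c.α i) (c.β i)
    have e4 := c.h_pos hi hj (by omega) hj2
    have e5 := hall (i + 1) (by omega)
    have e6 := c.cross i (i + 1) (by omega) (by omega)
    have e7 := c.cross i j hij hj
    rw [h2] at e3
    have e8 : (c.P i * c.Q j - c.P j * c.Q i) * (c.P (i + 1) * (a - c.α i) +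
        c.Q (i + 1) * (b - c.β i)) = (c.P (i + 1) * c.Q j - c.P j * c.Q (i + 1)) *
        (c.P i * (a - c.α i) + c.Q i * (b - c.β i)) +
        (c.P i * c.Q (i + 1) - c.P (i + 1) * c.Q i) *
        (c.P j * (a - c.α i) + c.Q j * (b - c.β i)) := by ring
    rw [← e1, ← e2, ← e3, mul_zero, zero_add] at e8
    have e9 : 0 ≤ (c.P i * c.Q j - c.P j * c.Q i) * c.h (i + 1) a b :=
      mul_nonneg (by linarith) e5
    have e10 : (c.P i * c.Q (i + 1) - c.P (i + 1) * c.Q i) * (0 - c.h j (c.α i) (c.β i)) < 0 :=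
      mul_neg_of_pos_of_neg (by linarith) (by linarith)
    linarith

/-- a point of the chain region on the line `k + 1`, seen from the kink `k` -/
lemma up {k : ℕ} (hk : k ≤ m) {a b : ℝ} (hall : ∀ i ≤ m + 1, 0 ≤ c.h i a b)
    (h1 : c.h (k + 1) a b = 0) :
    ∃ σ : ℝ, 0 ≤ σ ∧ a - c.α k = σ * c.Q (k + 1) ∧ b - c.β k = -(σ * c.P (k + 1)) := by
  have e1 := c.h_sub (k + 1) a b (c.α k) (c.β k)
  rw [h1, c.h_on2 hk, sub_zero] at e1
  have hQ := c.Qpos (k + 1) (by omega) (by omega)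
  have hQ0 : c.Q (k + 1) ≠ 0 := by linarith
  have e2 : a - c.α k = (a - c.α k) / c.Q (k + 1) * c.Q (k + 1) := by field_simp
  have e3 : b - c.β k = -((a - c.α k) / c.Q (k + 1) * c.P (k + 1)) := by
    field_simp
    linarith
  refine ⟨(a - c.α k) / c.Q (k + 1), ?_, e2, e3⟩
  set σ := (a - c.α k) / c.Q (k + 1)
  have e4 := c.h_sub k a b (c.α k) (c.β k)
  rw [c.h_on1 hk, sub_zero, e2, e3] at e4
  have e5 := hall k (by omega)
  have e6 := c.cross k (k + 1) (by omega) (by omega)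
  rw [e4] at e5
  have e7 : 0 ≤ σ * (c.P k * c.Q (k + 1) - c.P (k + 1) * c.Q k) := by linarith
  exact nonneg_of_mul_nonneg_left e7 (by linarith)

lemma down {k : ℕ} (hk : k ≤ m) {a b : ℝ} (hall : ∀ i ≤ m + 1, 0 ≤ c.h i a b)
    (h1 : c.h k a b = 0) :
    ∃ σ : ℝ, 0 ≤ σ ∧ a - c.α k = -(σ * c.Q k) ∧ b - c.β k = σ * c.P k := by
  have h2 : ∀ i ≤ m + 1, 0 ≤ c.rev.h i b a := by
    intro i hi
    rw [c.rev_h hi]
    exact hall _ (by omega)
  have h3 : c.rev.h (m - k + 1) b a = 0 := by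
    rw [c.rev_h (by omega), show m + 1 - (m - k + 1) = k by omega, h1]
  obtain ⟨σ, h4, h5, h6⟩ := c.rev.up (k := m - k) (by omega) h2 h3
  simp only [rev] at h5 h6
  rw [show m - (m - k) = k by omega, show m + 1 - (m - k + 1) = k by omega] at h5 h6
  exact ⟨σ, h4, h6, h5⟩

end Chain

end QG
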