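import Pool.Agent.Lib_helper2.QG.Frame

/-!
# Crossing the chain of parallel edges near an edge of the base polytope
-/

open scoped RealInnerProductSpace

namespace QG

/-- The path is, near the middle of the edge `A B`, in the situation described by the chain `c`. -/
structure Cross {K : Set E3} (γ : LPath K) (A B : Fin 6) (F G : Fin 8) (σ : ℝ) {κ : ℝ} {m : ℕ}
    (c : Chain κ m) : Prop where
  hE : IsE A B F G
  hm : 1 ≤ m
  blunt : c.Blunt (gr F F) (gr F G) (gr G G)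
  all : ∀ i, ∀ j ≤ m + 1, 0 ≤ c.h j (sl F (γ.p i)) (sl G (γ.p i))
  corner : ∀ i, sl F (γ.p i) ≤ κ → sl G (γ.p i) ≤ κ → σ ≤ sp A B (γ.p i) →
    sp A B (γ.p i) ≤ 1 - σ → ∃ k ≤ m, sl F (γ.p i) = c.α k ∧ sl G (γ.p i) = c.β k
  seg : ∀ i, sl F (γ.p i) ≤ κ → sl G (γ.p i) ≤ κ → σ ≤ sp A B (γ.p i) →
    sp A B (γ.p i) ≤ 1 - σ → ∃ j ≤ m + 1, c.h j (sl F (γ.p i)) (sl G (γ.p i)) = 0 ∧
      c.h j (sl F (γ.p (i + 1))) (sl G (γ.p (i + 1))) = 0
  seg' : ∀ i, sl F (γ.p i) ≤ κ → sl G (γ.p i) ≤ κ → σ ≤ sp A B (γ.p i) →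
    sp A B (γ.p i) ≤ 1 - σ → ∃ j ≤ m + 1, c.h j (sl F (γ.p i)) (sl G (γ.p i)) = 0 ∧
      c.h j (sl F (γ.p (i - 1))) (sl G (γ.p (i - 1))) = 0
  cone : ∀ i, σ ≤ sp A B (γ.p i) → sp A B (γ.p i) ≤ 1 - σ → ∀ k ≤ m, sl F (γ.p i) = c.α k →
    sl G (γ.p i) = c.β k → ∀ w : E3, c.P k * ⟪na F, w⟫ + c.Q k * ⟪na G, w⟫ ≤ 0 →
    c.P (k + 1) * ⟪na F, w⟫ + c.Q (k + 1) * ⟪na G, w⟫ ≤ 0 → ∃ ε > 0, γ.p i + (ε : ℝ) • w ∈ K

/-- the corner `i` lies on the edge `k` of the chain, near the middle of the base edge -/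
def At {K : Set E3} (γ : LPath K) (A B : Fin 6) (F G : Fin 8) (σ : ℝ) {κ : ℝ} {m : ℕ}
    (c : Chain κ m) (i : ℤ) (k : ℕ) : Prop :=
  k ≤ m ∧ sl F (γ.p i) = c.α k ∧ sl G (γ.p i) = c.β k ∧ σ ≤ sp A B (γ.p i) ∧
    sp A B (γ.p i) ≤ 1 - σ

/-- `y` lies on the line `k + 1` on the far side of the kink `k` -/
def UpPt {κ : ℝ} {m : ℕ} (c : Chain κ m) (F G : Fin 8) (k : ℕ) (y : E3) : Prop :=
  ∃ s > 0, sl F y - c.α k = s * c.Q (k + 1) ∧ sl G y - c.β k = -(s * c.P (k + 1))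

/-- `y` lies on the line `k` on the near side of the kink `k` -/
def DownPt {κ : ℝ} {m : ℕ} (c : Chain κ m) (F G : Fin 8) (k : ℕ) (y : E3) : Prop :=
  ∃ s > 0, sl F y - c.α k = -(s * c.Q k) ∧ sl G y - c.β k = s * c.P k

lemma upPt_rev {κ : ℝ} {m : ℕ} (c : Chain κ m) (F G : Fin 8) {k : ℕ} (hk : k ≤ m) (y : E3) :
    UpPt c.rev G F (m - k) y ↔ DownPt c F G k y := by
  simp only [UpPt, DownPt, Chain.rev]
  rw [show m - (m - k) = k by omega, show m + 1 - (m - k + 1) = k by omega]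
  constructor
  · rintro ⟨s, hs, h1, h2⟩
    exact ⟨s, hs, h2, h1⟩
  · rintro ⟨s, hs, h1, h2⟩
    exact ⟨s, hs, h2, h1⟩

lemma downPt_rev {κ : ℝ} {m : ℕ} (c : Chain κ m) (F G : Fin 8) {k : ℕ} (hk : k ≤ m) (y : E3) :
    DownPt c.rev G F (m - k) y ↔ UpPt c F G k y := by
  simp only [UpPt, DownPt, Chain.rev]
  rw [show m - (m - k) = k by omega, show m + 1 - (m - k) = k + 1 by omega]
  constructor
  · rintro ⟨s, hs, h1, h2⟩
    exact ⟨s, hs, h2, h1⟩
  · rintro ⟨s, hs, h1, h2⟩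
    exact ⟨s, hs, h2, h1⟩

lemma at_rev {K : Set E3} {γ : LPath K} {A B : Fin 6} {F G : Fin 8} {σ κ : ℝ} {m : ℕ}
    {c : Chain κ m} {i : ℤ} {k : ℕ} (hk : k ≤ m) :
    At γ A B G F σ c.rev i (m - k) ↔ At γ A B F G σ c i k := by
  simp only [At, Chain.rev]
  rw [show m - (m - k) = k by omega]
  constructor
  · rintro ⟨h1, h2, h3, h4⟩
    exact ⟨hk, h3, h2, h4⟩
  · rintro ⟨h1, h2, h3, h4⟩
    exact ⟨by omega, h3, h2, h4⟩

namespace Cross

variable {K : Set E3} {γ : LPath K} {A B : Fin 6} {F G : Fin 8} {σ κ : ℝ} {m : ℕ}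
  {c : Chain κ m} (X : Cross γ A B F G σ c)

include X

lemma swap : Cross γ A B G F σ c.rev where
  hE := X.hE.swap
  hm := X.hm
  blunt := by
    rw [gr_comm G F]; exact X.blunt.rev
  all := fun i j hj => by
    rw [c.rev_h hj]; exact X.all i _ (by omega)
  corner := fun i h1 h2 h3 h4 => by
    obtain ⟨k, hk, h5, h6⟩ := X.corner i h2 h1 h3 h4
    refine ⟨m - k, by omega, ?_, ?_⟩
    · simp only [Chain.rev]; rw [show m - (m - k) = k by omega]; exact h6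
    · simp only [Chain.rev]; rw [show m - (m - k) = k by omega]; exact h5
  seg := fun i h1 h2 h3 h4 => by
    obtain ⟨j, hj, h5, h6⟩ := X.seg i h2 h1 h3 h4
    refine ⟨m + 1 - j, by omega, ?_, ?_⟩
    · rw [c.rev_h (by omega), show m + 1 - (m + 1 - j) = j by omega]; exact h5
    · rw [c.rev_h (by omega), show m + 1 - (m + 1 - j) = j by omega]; exact h6
  seg' := fun i h1 h2 h3 h4 => by
    obtain ⟨j, hj, h5, h6⟩ := X.seg' i h2 h1 h3 h4
    refine ⟨m + 1 - j, by omega, ?_, ?_⟩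
    · rw [c.rev_h (by omega), show m + 1 - (m + 1 - j) = j by omega]; exact h5
    · rw [c.rev_h (by omega), show m + 1 - (m + 1 - j) = j by omega]; exact h6
  cone := fun i h1 h2 k hk h3 h4 w h5 h6 => by
    simp only [Chain.rev] at h3 h4 h5 h6
    rw [show m + 1 - k = m - k + 1 by omega] at h5
    rw [show m + 1 - (k + 1) = m - k by omega] at h6
    exact X.cone i h1 h2 (m - k) (by omega) h4 h3 w (by linarith) (by linarith)

lemma rev : Cross γ.rev A B F G σ c where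
  hE := X.hE
  hm := X.hm
  blunt := X.blunt
  all := fun i => X.all (-i)
  corner := fun i => X.corner (-i)
  seg := fun i h1 h2 h3 h4 => by
    have h5 := X.seg' (-i) h1 h2 h3 h4
    rw [show -i - 1 = -(i + 1) by ring] at h5
    exact h5
  seg' := fun i h1 h2 h3 h4 => by
    have h5 := X.seg (-i) h1 h2 h3 h4
    rw [show -i + 1 = -(i - 1) by ring] at h5
    exact h5
  cone := fun i => X.cone (-i)

/-- the direction component along the edge is preserved -/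
lemma perp {i : ℤ} {k : ℕ} (h : At γ A B F G σ c i k) :
    ⟪ed A B, γ.u i⟫ = ⟪ed A B, γ.u (i - 1)⟫ := by
  obtain ⟨hk, h1, h2, h3, h4⟩ := h
  have hF := inner_na_ed X.hE
  have hG := inner_na_ed X.hE.swap
  obtain ⟨ε, hε, h5⟩ := X.cone i h3 h4 k hk h1 h2 (ed A B) (by rw [hF, hG]; simp)
    (by rw [hF, hG]; simp)
  obtain ⟨ε', hε', h6⟩ := X.cone i h3 h4 k hk h1 h2 (- ed A B)
    (by rw [inner_neg_right, inner_neg_right, hF, hG]; simp)
    (by rw [inner_neg_right, inner_neg_right, hF, hG]; simp)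
  have h7 := γ.lib' i h5
  have h8 := γ.lib' i h6
  rw [add_sub_cancel_left, real_inner_smul_right, inner_sub_left] at h7 h8
  rw [inner_neg_right, inner_neg_right] at h8
  have h9 : 0 ≤ ⟪γ.u i, ed A B⟫ - ⟪γ.u (i - 1), ed A B⟫ := nonneg_of_mul_nonneg_right h7 hε
  have h10 : 0 ≤ -⟪γ.u i, ed A B⟫ - -⟪γ.u (i - 1), ed A B⟫ := nonneg_of_mul_nonneg_right h8 hε'
  rw [real_inner_comm, real_inner_comm (γ.u (i - 1))]
  linarith

/-- no reflection: the two neighbours are not both up. -/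
lemma not_both_up {i : ℤ} {k : ℕ} (h : At γ A B F G σ c i k) (h1 : UpPt c F G k (γ.p (i + 1)))
    (h2 : UpPt c F G k (γ.p (i - 1))) : False := by
  have hperp := X.perp h
  obtain ⟨hk, ha, hb, h3, h4⟩ := h
  obtain ⟨s1, hs1, h5, h6⟩ := h1
  obtain ⟨s2, hs2, h7, h8⟩ := h2
  have hl1 := γ.len_pos i
  have hl2 := γ.len_pos (i - 1)
  have hst1 := γ.step i
  have hst2 := γ.step (i - 1)
  rw [sub_add_cancel] at hst2
  -- the inner products with the normals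
  have e1 : ⟪na F, γ.u i⟫ = - (s1 / γ.len i * c.Q (k + 1)) := by
    have : sl F (γ.p (i + 1)) = sl F (γ.p i) - γ.len i * ⟪na F, γ.u i⟫ := by
      rw [hst1, sl_add, real_inner_smul_right]
    have h9 : γ.len i * ⟪na F, γ.u i⟫ = - (s1 * c.Q (k + 1)) := by linarith
    field_simp
    linarith
  have e2 : ⟪na G, γ.u i⟫ = s1 / γ.len i * c.P (k + 1) := by
    have : sl G (γ.p (i + 1)) = sl G (γ.p i) - γ.len i * ⟪na G, γ.u i⟫ := by
      rw [hst1, sl_add, real_inner_smul_right]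
    have h9 : γ.len i * ⟪na G, γ.u i⟫ = s1 * c.P (k + 1) := by linarith
    field_simp
    linarith
  have e3 : ⟪na F, γ.u (i - 1)⟫ = s2 / γ.len (i - 1) * c.Q (k + 1) := by
    have : sl F (γ.p i) = sl F (γ.p (i - 1)) - γ.len (i - 1) * ⟪na F, γ.u (i - 1)⟫ := by
      conv_lhs => rw [hst2, sl_add, real_inner_smul_right]
    have h9 : γ.len (i - 1) * ⟪na F, γ.u (i - 1)⟫ = s2 * c.Q (k + 1) := by linarith
    field_simp
    linarith
  have e4 : ⟪na G, γ.u (i - 1)⟫ = - (s2 / γ.len (i - 1) * c.P (k + 1)) := by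
    have : sl G (γ.p i) = sl G (γ.p (i - 1)) - γ.len (i - 1) * ⟪na G, γ.u (i - 1)⟫ := by
      conv_lhs => rw [hst2, sl_add, real_inner_smul_right]
    have h9 : γ.len (i - 1) * ⟪na G, γ.u (i - 1)⟫ = - (s2 * c.P (k + 1)) := by linarith
    field_simp
    linarith
  set τ := s1 / γ.len i + s2 / γ.len (i - 1) with hτ
  have hτ0 : 0 < τ := add_pos (div_pos hs1 hl1) (div_pos hs2 hl2)
  have wF := inner_F_mk X.hE (-c.Q k) (c.P k) 0
  have wG := inner_G_mk X.hE (-c.Q k) (c.P k) 0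
  have wE := inner_ed_mk X.hE (-c.Q k) (c.P k) 0
  set w := vmk A B F G (-c.Q k) (c.P k) 0 with hw
  have hcr := c.cross k (k + 1) (by omega) (by omega)
  obtain ⟨ε, hε, h9⟩ := X.cone i h3 h4 k hk ha hb w (by rw [wF, wG]; linarith)
    (by rw [wF, wG]; linarith)
  have h10 := γ.lib' i h9
  rw [add_sub_cancel_left, real_inner_smul_right] at h10
  have h11 : 0 ≤ ⟪γ.u i - γ.u (i - 1), w⟫ := nonneg_of_mul_nonneg_right h10 hε
  rw [inner_frame X.hE, wE, wF, wG, mul_zero, zero_add, inner_sub_right, inner_sub_right, e1, e2,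
    e3, e4] at h11
  have h12 := X.blunt k hk
  have h13 := X.hE.disc_pos
  rw [le_div_iff₀ h13] at h11
  have h14 := mul_pos hτ0 h12
  rw [hτ] at h14
  nlinarith

lemma not_both_down {i : ℤ} {k : ℕ} (h : At γ A B F G σ c i k)
    (h1 : DownPt c F G k (γ.p (i + 1))) (h2 : DownPt c F G k (γ.p (i - 1))) : False := by
  have hk := h.1
  exact X.swap.not_both_up ((at_rev hk).2 h) ((upPt_rev c F G hk _).2 h1)
    ((upPt_rev c F G hk _).2 h2)

/-- displacement between neighbours -/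
lemma len_sq (i : ℤ) : γ.len i ^ 2 * (1 - ⟪ed A B, γ.u i⟫ ^ 2) =
    qf F G (sl F (γ.p (i + 1)) - sl F (γ.p i)) (sl G (γ.p (i + 1)) - sl G (γ.p i)) := by
  have h1 := norm_sq_frame X.hE (γ.p (i + 1) - γ.p i)
  rw [← sl_sub, ← sl_sub, ← γ.len_smul_u, real_inner_smul_right, norm_smul, γ.norm_u,
    Real.norm_of_nonneg (γ.len_pos i).le] at h1
  nlinarith

lemma cases_next {i : ℤ} {k : ℕ} (h : At γ A B F G σ c i k)
    (ht : ⟪ed A B, γ.u i⟫ ^ 2 < 1) :
    UpPt c F G k (γ.p (i + 1)) ∨ DownPt c F G k (γ.p (i + 1)) := by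
  obtain ⟨hk, ha, hb, h3, h4⟩ := h
  have hkl := c.kink_le X.hm hk
  obtain ⟨j, hj, h5, h6⟩ := X.seg i (ha ▸ hkl.1) (hb ▸ hkl.2) h3 h4
  have hne : ¬ (sl F (γ.p (i + 1)) - sl F (γ.p i) = 0 ∧
      sl G (γ.p (i + 1)) - sl G (γ.p i) = 0) := by
    rintro ⟨h7, h8⟩
    have h9 := X.len_sq i
    rw [h7, h8] at h9
    have h10 : qf F G 0 0 = 0 := by rw [qf]; simp
    rw [h10] at h9
    have h11 := mul_pos (pow_pos (γ.len_pos i) 2) (sub_pos.2 ht)
    linarith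
  rw [ha, hb] at h5 hne
  have hj2 : j = k ∨ j = k + 1 := by
    by_contra hcon
    push Not at hcon
    exact (c.h_pos hk hj hcon.1 hcon.2).ne' h5
  rcases hj2 with rfl | rfl
  · right
    obtain ⟨s, hs, h7, h8⟩ := c.down hk (X.all (i + 1)) h6
    refine ⟨s, lt_of_le_of_ne hs ?_, h7, h8⟩
    rintro rfl
    exact hne ⟨by linarith, by linarith⟩
  · left
    obtain ⟨s, hs, h7, h8⟩ := c.up hk (X.all (i + 1)) h6
    refine ⟨s, lt_of_le_of_ne hs ?_, h7, h8⟩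
    rintro rfl
    exact hne ⟨by linarith, by linarith⟩

lemma cases_prev {i : ℤ} {k : ℕ} (h : At γ A B F G σ c i k)
    (ht : ⟪ed A B, γ.u (i - 1)⟫ ^ 2 < 1) :
    UpPt c F G k (γ.p (i - 1)) ∨ DownPt c F G k (γ.p (i - 1)) := by
  have h1 : At γ.rev A B F G σ c (-i) k := by
    have : γ.rev.p (-i) = γ.p i := by simp [LPath.rev]
    rw [At, this]; exact h
  have h2 : γ.rev.p (-i + 1) = γ.p (i - 1) := by simp only [LPath.rev]; congr 1; ring
  have h3 : γ.rev.u (-i) = - γ.u (i - 1) := by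
    rw [LPath.u, h2, show γ.rev.p (-i) = γ.p i by simp [LPath.rev], γ.un_back]
  have h4 := X.rev.cases_next h1 (by rw [h3, inner_neg_right, neg_sq]; exact ht)
  rw [h2] at h4
  exact h4

/-- bound for the length of a transversal segment -/
lemma len_le {i : ℤ} {ξ : ℝ} (hξ : 0 < ξ) (ht : ⟪ed A B, γ.u i⟫ ^ 2 ≤ 1 - ξ ^ 2 / 2) :
    γ.len i ≤ 100 / ξ * (|sl F (γ.p (i + 1)) - sl F (γ.p i)| +
      |sl G (γ.p (i + 1)) - sl G (γ.p i)|) := by
  have h1 := X.len_sq i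
  have h2 := qf_le X.hE.2.1 (sl F (γ.p (i + 1)) - sl F (γ.p i)) (sl G (γ.p (i + 1)) - sl G (γ.p i))
  set D := |sl F (γ.p (i + 1)) - sl F (γ.p i)| + |sl G (γ.p (i + 1)) - sl G (γ.p i)| with hD
  have hD0 : 0 ≤ D := add_nonneg (abs_nonneg _) (abs_nonneg _)
  have hl := γ.len_pos i
  have h3 : γ.len i ^ 2 * (ξ ^ 2 / 2) ≤ 2500 * D ^ 2 := by
    have h4 : γ.len i ^ 2 * (ξ ^ 2 / 2) ≤ γ.len i ^ 2 * (1 - ⟪ed A B, γ.u i⟫ ^ 2) :=
      mul_le_mul_of_nonneg_left (by linarith) (sq_nonneg _)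
    linarith
  have h5 : (γ.len i * ξ) ^ 2 ≤ (100 * D) ^ 2 := by nlinarith [sq_nonneg D]
  have h6 : γ.len i * ξ ≤ 100 * D := by
    exact (sq_le_sq₀ (by positivity) (by positivity)).1 h5
  rw [div_mul_eq_mul_div, le_div_iff₀ hξ]
  exact h6

/-- an inner step of a transversal crossing -/
lemma up_next {i : ℤ} {k : ℕ} {ξ : ℝ} (hξ : 0 < ξ) (h : At γ A B F G σ c i k) (hk : k < m)
    (hup : UpPt c F G k (γ.p (i + 1))) (ht : ⟪ed A B, γ.u i⟫ ^ 2 ≤ 1 - ξ ^ 2 / 2)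
    (hs1 : σ + 200 / ξ * κ ≤ sp A B (γ.p i)) (hs2 : sp A B (γ.p i) ≤ 1 - (σ + 200 / ξ * κ)) :
    At γ A B F G σ c (i + 1) (k + 1) ∧ |sp A B (γ.p (i + 1)) - sp A B (γ.p i)| ≤
      100 / ξ * ((c.α (k + 1) - c.α k) + (c.β k - c.β (k + 1))) := by
  obtain ⟨hk', ha, hb, h3, h4⟩ := h
  obtain ⟨s, hs, h5, h6⟩ := hup
  have hkl := c.kink_le X.hm hk'
  have hall := X.all (i + 1)
  have hF0 : 0 ≤ sl F (γ.p (i + 1)) := by
    have := hall 0 (by omega)
    rw [Chain.h, c.P0, c.Q0, c.c0] at this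
    linarith
  have hG0 : 0 ≤ sl G (γ.p (i + 1)) := by
    have := hall (m + 1) le_rfl
    rw [Chain.h, c.Pm, c.Qm, c.cm] at this
    linarith
  have hh : c.h (k + 1) (sl F (γ.p (i + 1))) (sl G (γ.p (i + 1))) = 0 := by
    have e1 := c.h_sub (k + 1) (sl F (γ.p (i + 1))) (sl G (γ.p (i + 1))) (c.α k) (c.β k)
    rw [c.h_on2 hk', sub_zero, h5, h6] at e1
    rw [e1]; ring
  obtain ⟨h7, h8⟩ := c.le_of_h_eq (by omega) (by omega) hF0 hG0 hh
  have hα0 := c.α_nonneg hk'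
  have hβ0 := c.β_nonneg hk'
  have hξ100 : 0 < 100 / ξ := by positivity
  have hlen := X.len_le hξ ht
  rw [ha, hb] at hlen
  have hdF : |sl F (γ.p (i + 1)) - c.α k| ≤ κ := abs_le.2 ⟨by linarith [hkl.1], by linarith⟩
  have hdG : |sl G (γ.p (i + 1)) - c.β k| ≤ κ := abs_le.2 ⟨by linarith [hkl.2], by linarith⟩
  have hlen2 : γ.len i ≤ 200 / ξ * κ := by
    refine hlen.trans ?_
    have : 100 / ξ * (|sl F (γ.p (i + 1)) - c.α k| + |sl G (γ.p (i + 1)) - c.β k|) ≤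
      100 / ξ * (κ + κ) := mul_le_mul_of_nonneg_left (add_le_add hdF hdG) hξ100.le
    refine this.trans (le_of_eq ?_)
    ring
  have hsp : |sp A B (γ.p (i + 1)) - sp A B (γ.p i)| ≤ γ.len i := by
    have := abs_sp_sub_le X.hE.ne (γ.p (i + 1)) (γ.p i)
    exact this
  have hsp2 := abs_le.1 (hsp.trans hlen2)
  have hs3 : σ ≤ sp A B (γ.p (i + 1)) := by linarith [hsp2.1]
  have hs4 : sp A B (γ.p (i + 1)) ≤ 1 - σ := by linarith [hsp2.2]
  obtain ⟨l, hl, h9, h10⟩ := X.corner (i + 1) h7 h8 hs3 hs4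
  have hQ := c.Qpos (k + 1) (by omega) (by omega)
  have hP := c.Ppos (k + 1) (by omega)
  have hl2 : l = k + 1 := by
    by_contra hcon
    rcases Nat.lt_or_ge l k with h11 | h11
    · have := c.h_pos2 (j := k + 1) (k := l) (by omega) (by omega)
      rw [← h9, ← h10, hh] at this
      exact lt_irrefl _ this
    · rcases eq_or_lt_of_le h11 with h12 | h12
      · subst h12
        have := mul_pos hs (by linarith : 0 < c.Q (k + 1))
        rw [← h5, h9, sub_self] at this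
        exact lt_irrefl _ this
      · have := c.h_pos1 (j := k + 1) (k := l) (by omega) hl
        rw [← h9, ← h10, hh] at this
        exact lt_irrefl _ this
  subst hl2
  have ea : |sl F (γ.p (i + 1)) - c.α k| = c.α (k + 1) - c.α k := by
    rw [abs_of_nonneg (by rw [h5]; positivity), h9]
  have eb : |sl G (γ.p (i + 1)) - c.β k| = c.β k - c.β (k + 1) := by
    rw [abs_of_nonpos (by rw [h6]; nlinarith), h10]; ring
  refine ⟨⟨by omega, h9, h10, hs3, hs4⟩, hsp.trans (hlen.trans (le_of_eq ?_))⟩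
  rw [ea, eb]

/-- the forward half of a transversal crossing -/
lemma forward {i : ℤ} {k : ℕ} {ξ : ℝ} (hξ : 0 < ξ) (h : At γ A B F G σ c i k)
    (hup : UpPt c F G k (γ.p (i + 1))) (ht : ⟪ed A B, γ.u i⟫ ^ 2 ≤ 1 - ξ ^ 2 / 2)
    (hs1 : σ + 400 / ξ * κ ≤ sp A B (γ.p i)) (hs2 : sp A B (γ.p i) ≤ 1 - (σ + 400 / ξ * κ)) :
    ∀ j : ℕ, k + j ≤ m → At γ A B F G σ c (i + j) (k + j) ∧
      UpPt c F G (k + j) (γ.p (i + j + 1)) ∧ ⟪ed A B, γ.u (i + j)⟫ = ⟪ed A B, γ.u i⟫ ∧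
      |sp A B (γ.p (i + j)) - sp A B (γ.p i)| ≤
        100 / ξ * ((c.α (k + j) - c.α k) + (c.β k - c.β (k + j))) := by
  intro j
  induction j with
  | zero =>
    intro _
    simp only [Nat.cast_zero, add_zero, sub_self, abs_zero, mul_zero, le_refl, and_true]
    exact ⟨h, hup⟩
  | succ j ih =>
    intro hj
    obtain ⟨h1, h2, h3, h4⟩ := ih (by omega)
    have hdrift : 100 / ξ * ((c.α (k + j) - c.α k) + (c.β k - c.β (k + j))) ≤ 200 / ξ * κ := by
      have e1 := c.kink_le X.hm (k := k + j) (by omega)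
      have e2 := c.kink_le X.hm h.1
      have e3 := c.α_nonneg h.1
      have e4 := c.β_nonneg (k := k + j) (by omega)
      have e5 : (c.α (k + j) - c.α k) + (c.β k - c.β (k + j)) ≤ 2 * κ := by linarith [e1.1, e2.2]
      have e6 : 0 < 100 / ξ := by positivity
      have e7 := mul_le_mul_of_nonneg_left e5 e6.le
      refine e7.trans (le_of_eq ?_)
      ring
    have h5 := abs_le.1 (h4.trans hdrift)
    have e8 : 400 / ξ * κ = 200 / ξ * κ + 200 / ξ * κ := by ring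
    obtain ⟨h6, h7⟩ := X.up_next hξ h1 (by omega) h2 (by rw [h3]; exact ht)
      (by linarith [h5.1]) (by linarith [h5.2])
    have e9 : i + (j : ℤ) + 1 = i + ((j + 1 : ℕ) : ℤ) := by push_cast; ring
    have e10 := X.perp h6
    rw [add_sub_cancel_right, h3] at e10
    have hdown : DownPt c F G (k + j + 1) (γ.p (i + j + 1 - 1)) := by
      obtain ⟨τ, hτ, h8, h9⟩ := c.step (k + j) (by omega)
      refine ⟨τ, hτ, ?_, ?_⟩
      · rw [add_sub_cancel_right, h1.2.1]; linarith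
      · rw [add_sub_cancel_right, h1.2.2.1]; linarith
    have hcase := X.cases_next h6 (by rw [e10]; nlinarith [sq_nonneg ξ, mul_pos hξ hξ])
    rw [e9] at h6 h7 e10 hcase hdown
    refine ⟨h6, ?_, e10, ?_⟩
    · rcases hcase with h8 | h8
      · exact h8
      · exact (X.not_both_down h6 h8 hdown).elim
    · have e11 : sp A B (γ.p (i + ((j + 1 : ℕ) : ℤ))) - sp A B (γ.p i) =
          (sp A B (γ.p (i + ((j + 1 : ℕ) : ℤ))) - sp A B (γ.p (i + j))) +
          (sp A B (γ.p (i + j)) - sp A B (γ.p i)) := by ring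
      rw [e11]
      refine (abs_add_le _ _).trans ((add_le_add h7 h4).trans (le_of_eq ?_))
      rw [← add_assoc]
      ring

omit X in
lemma rev_u (i : ℤ) : γ.rev.u i = - γ.u (-i - 1) := by
  have h1 : γ.rev.p (i + 1) - γ.rev.p i = γ.p (-i - 1) - γ.p (-i) := by
    simp only [LPath.rev]; congr 2; ring
  rw [LPath.u, h1, γ.un_back]

/-- a transversal crossing, in the increasing direction -/
lemma crossUp {i : ℤ} {k : ℕ} {ξ : ℝ} (hξ : 0 < ξ) (h : At γ A B F G σ c i k)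
    (hup : UpPt c F G k (γ.p (i + 1))) (ht : ⟪ed A B, γ.u i⟫ ^ 2 ≤ 1 - ξ ^ 2 / 2)
    (hs1 : σ + 400 / ξ * κ ≤ sp A B (γ.p i)) (hs2 : sp A B (γ.p i) ≤ 1 - (σ + 400 / ξ * κ)) :
    ∃ i0 : ℤ, (∀ l : ℕ, l ≤ m → At γ A B F G σ c (i0 + l) l ∧
      ⟪ed A B, γ.u (i0 + l)⟫ = ⟪ed A B, γ.u i⟫) ∧ ⟪ed A B, γ.u (i0 - 1)⟫ = ⟪ed A B, γ.u i⟫ ∧
      DownPt c F G 0 (γ.p (i0 - 1)) ∧ UpPt c F G m (γ.p (i0 + m + 1)) := by
  have hk := h.1
  have hperp := X.perp h
  have hfor := X.forward hξ h hup ht hs1 hs2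
  have ht1 : ⟪ed A B, γ.u (i - 1)⟫ ^ 2 < 1 := by
    rw [← hperp]; nlinarith [mul_pos hξ hξ]
  have hdown : DownPt c F G k (γ.p (i - 1)) := by
    rcases X.cases_prev h ht1 with h1 | h1
    · exact (X.not_both_up h hup h1).elim
    · exact h1
  -- the reversed path
  have hrevp : γ.rev.p (-i) = γ.p i := by simp [LPath.rev]
  have hrev1 : γ.rev.p (-i + 1) = γ.p (i - 1) := by simp only [LPath.rev]; congr 1; ring
  have hrevu : γ.rev.u (-i) = - γ.u (i - 1) := by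
    rw [rev_u]; congr 2; ring
  have h1 : At γ.rev A B G F σ c.rev (-i) (m - k) := by
    rw [at_rev hk, At, hrevp]; exact h
  have h2 : UpPt c.rev G F (m - k) (γ.rev.p (-i + 1)) := by
    rw [upPt_rev c F G hk, hrev1]; exact hdown
  have ht2 : ⟪ed A B, γ.rev.u (-i)⟫ ^ 2 ≤ 1 - ξ ^ 2 / 2 := by
    rw [hrevu, inner_neg_right, neg_sq, ← hperp]; exact ht
  have hback := X.rev.swap.forward hξ h1 h2 ht2 (by rw [hrevp]; exact hs1)
    (by rw [hrevp]; exact hs2)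
  have hbAt : ∀ j : ℕ, j ≤ k → At γ A B F G σ c (i - j) (k - j) ∧
      ⟪ed A B, γ.u (i - j - 1)⟫ = ⟪ed A B, γ.u i⟫ := by
    intro j hj
    obtain ⟨h3, h4, h5, h6⟩ := hback j (by omega)
    have h7 : γ.rev.p (-i + j) = γ.p (i - j) := by simp only [LPath.rev]; congr 1; ring
    refine ⟨?_, ?_⟩
    · rw [show m - k + j = m - (k - j) by omega, at_rev (by omega), At, h7] at h3
      exact h3
    · rw [rev_u, hrevu, inner_neg_right, inner_neg_right, neg_inj, ← hperp] at h5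
      rw [← h5]; congr 2; ring
  refine ⟨i - k, ?_, ?_, ?_, ?_⟩
  · intro l hl
    rcases Nat.lt_or_ge l k with hlk | hlk
    · have h3 := (hbAt (k - l) (by omega)).1
      have h4 := (hbAt (k - l - 1) (by omega)).2
      have e1 : i - ((k - l : ℕ) : ℤ) = i - k + l := by omega
      have e2 : i - ((k - l - 1 : ℕ) : ℤ) - 1 = i - k + l := by omega
      rw [e1, show k - (k - l) = l by omega] at h3
      rw [e2] at h4
      exact ⟨h3, h4⟩
    · have h3 := hfor (l - k) (by omega)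
      have e1 : i + ((l - k : ℕ) : ℤ) = i - k + l := by omega
      rw [e1, show k + (l - k) = l by omega] at h3
      exact ⟨h3.1, h3.2.2.1⟩
  · exact (hbAt k le_rfl).2
  · obtain ⟨h3, h4, h5, h6⟩ := hback k (by omega)
    have e1 : m - k + k = m - 0 := by omega
    rw [e1, upPt_rev c F G (Nat.zero_le m)] at h4
    have e2 : γ.rev.p (-i + (k : ℤ) + 1) = γ.p (i - k - 1) := by
      simp only [LPath.rev]; congr 1; ring
    rw [e2] at h4
    exact h4
  · have h3 := (hfor (m - k) (by omega)).2.1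
    have e1 : i + ((m - k : ℕ) : ℤ) + 1 = i - k + m + 1 := by omega
    rw [e1, show k + (m - k) = m by omega] at h3
    exact h3

/-- The full crossing: either the path or its reverse crosses the whole chain. -/
theorem crossing {i : ℤ} {ξ : ℝ} (hξ : 0 < ξ) (hF : sl F (γ.p i) ≤ κ) (hG : sl G (γ.p i) ≤ κ)
    (hκ : 0 ≤ κ)
    (ht : ⟪ed A B, γ.u i⟫ ^ 2 ≤ 1 - ξ ^ 2 / 2)
    (hs1 : σ + 400 / ξ * κ ≤ sp A B (γ.p i)) (hs2 : sp A B (γ.p i) ≤ 1 - (σ + 400 / ξ * κ)) :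
    ∃ γ' : LPath K, (γ' = γ ∨ γ' = γ.rev) ∧ ∃ (i0 : ℤ) (c0 : ℝ), (c0 = ⟪ed A B, γ.u i⟫ ∨
      c0 = - ⟪ed A B, γ.u i⟫) ∧ (∀ l : ℕ, l ≤ m → At γ' A B F G σ c (i0 + l) l ∧
      ⟪ed A B, γ'.u (i0 + l)⟫ = c0) ∧ ⟪ed A B, γ'.u (i0 - 1)⟫ = c0 ∧
      DownPt c F G 0 (γ'.p (i0 - 1)) ∧ UpPt c F G m (γ'.p (i0 + m + 1)) := by
  have hpos : 0 ≤ 400 / ξ * κ := by positivity
  obtain ⟨k, hk, ha, hb⟩ := X.corner i hF hG (by linarith) (by linarith)
  have h : At γ A B F G σ c i k := ⟨hk, ha, hb, by linarith, by linarith⟩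
  have hperp := X.perp h
  have ht1 : ⟪ed A B, γ.u i⟫ ^ 2 < 1 := by nlinarith [mul_pos hξ hξ]
  rcases X.cases_next h ht1 with h1 | h1
  · obtain ⟨i0, h2, h3, h4, h5⟩ := X.crossUp hξ h h1 ht hs1 hs2
    exact ⟨γ, Or.inl rfl, i0, _, Or.inl rfl, h2, h3, h4, h5⟩
  · have ht2 : ⟪ed A B, γ.u (i - 1)⟫ ^ 2 < 1 := by rw [← hperp]; exact ht1
    have h2 : UpPt c F G k (γ.p (i - 1)) := by
      rcases X.cases_prev h ht2 with h3 | h3
      · exact h3
      · exact (X.not_both_down h h1 h3).elim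
    have hrevp : γ.rev.p (-i) = γ.p i := by simp [LPath.rev]
    have hrev1 : γ.rev.p (-i + 1) = γ.p (i - 1) := by simp only [LPath.rev]; congr 1; ring
    have hrevu : γ.rev.u (-i) = - γ.u (i - 1) := by
      rw [rev_u]; congr 2; ring
    have h3 : At γ.rev A B F G σ c (-i) k := by rw [At, hrevp]; exact h
    obtain ⟨i0, h4, h5, h6, h7⟩ := X.rev.crossUp hξ h3 (by rw [hrev1]; exact h2)
      (by rw [hrevu, inner_neg_right, neg_sq, ← hperp]; exact ht)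
      (by rw [hrevp]; exact hs1) (by rw [hrevp]; exact hs2)
    rw [hrevu, inner_neg_right, ← hperp] at h4 h5
    exact ⟨γ.rev, Or.inr rfl, i0, _, Or.inr rfl, h4, h5, h6, h7⟩

end Cross

end QG
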