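import Mathlib

/-!
# Closed quasigeodesics on convex polyhedra: definitions
-/

open scoped RealInnerProductSpace

namespace QG

/-- Euclidean three space. -/
abbrev E3 := EuclideanSpace ℝ (Fin 3)

/-- A point with rational coordinates, seen as a point of Euclidean space. -/
noncomputable def toE (v : Fin 3 → ℚ) : E3 := WithLp.toLp 2 (fun i => (v i : ℝ))

/-- The number of binary digits of a rational number written as `num / den`. -/
def bits (q : ℚ) : ℕ := 1 + Nat.size q.num.natAbs + Nat.size q.den

/-- A convex polyhedron in `ℝ³`, given by its vertices, which have rational coordinates.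
Every point of `verts` is a vertex (extreme point) of the convex hull, and the hull is solid. -/
structure Poly where
  /-- the vertices -/
  verts : Finset (Fin 3 → ℚ)
  /-- every listed point is a vertex of the hull -/
  ext : ∀ v ∈ verts, toE v ∈ Set.extremePoints ℝ (convexHull ℝ (toE '' (verts : Set (Fin 3 → ℚ))))
  /-- the hull is three-dimensional -/
  solid : (interior (convexHull ℝ (toE '' (verts : Set (Fin 3 → ℚ))))).Nonempty

/-- The solid convex body bounded by the polyhedron. -/
noncomputable def Poly.body (P : Poly) : Set E3 := convexHull ℝ (toE '' (P.verts : Set (Fin 3 → ℚ)))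

/-- The total number of binary digits of the coordinates of the vertices. -/
def Poly.size (P : Poly) : ℕ := ∑ v ∈ P.verts, ∑ i : Fin 3, bits (v i)

/-- `[a, b]` is an edge of the polyhedron `P`. -/
def IsEdge (P : Poly) (a b : Fin 3 → ℚ) : Prop :=
  a ∈ P.verts ∧ b ∈ P.verts ∧ a ≠ b ∧ IsExtreme ℝ P.body (segment ℝ (toE a) (toE b))

/-- The directions `a` and `b` at the boundary point `p` of the convex body `K` span a planar
sector of the surface of `K` (of angle less than `π`): all points `p + s a + t b` with small
`s, t ≥ 0` lie on the surface. For a convex body such a sector lies in one face. -/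
def Sector (K : Set E3) (p a b : E3) : Prop :=
  a ≠ 0 ∧ b ≠ 0 ∧ InnerProductGeometry.angle a b < Real.pi ∧
    ∃ ε > 0, ∀ s t : ℝ, 0 ≤ s → 0 ≤ t → s + t ≤ ε → p + s • a + t • b ∈ frontier K

/-- The sum of the angles between consecutive directions of a list. -/
noncomputable def angleSum : List E3 → ℝ
  | a :: b :: l => InnerProductGeometry.angle a b + angleSum (b :: l)
  | _ => 0

/-- The list of directions `l` sweeps the direction `w`: `w` lies in the sector spanned by two
consecutive directions of `l`. -/
def Sweeps : List E3 → E3 → Prop
  | a :: b :: l, w => (∃ s t : ℝ, 0 ≤ s ∧ 0 ≤ t ∧ w = s • a + t • b) ∨ Sweeps (b :: l) w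
  | _, _ => False

/-- `l` is a fan of sectors of the surface of `K` at `p`, turning from the direction `u` to the
direction `v`. -/
def IsFan (K : Set E3) (p u v : E3) (l : List E3) : Prop :=
  l.head? = some u ∧ l.getLast? = some v ∧ l.IsChain (Sector K p)

/-- The quasigeodesic condition at the point `p` of a curve on the surface of `K` which arrives
from direction `u` (i.e. `u` points backwards along the curve) and leaves in direction `v`: the
two fans of sectors from `u` to `v`, on the left and on the right of the curve, which together
sweep all directions of the surface at `p`, both have total angle at most `π`. -/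
def QuasigeodesicAt (K : Set E3) (p u v : E3) : Prop :=
  ∃ l r : List E3, IsFan K p u v l ∧ IsFan K p u v r ∧
    angleSum l ≤ Real.pi ∧ angleSum r ≤ Real.pi ∧
    ∀ w : E3, w ≠ 0 → (∃ ε > 0, ∀ t : ℝ, 0 ≤ t → t ≤ ε → p + t • w ∈ frontier K) →
      Sweeps l w ∨ Sweeps r w

/-- A closed quasigeodesic on the surface of the polyhedron `P`, not necessarily simple: a closed
polygonal curve on the surface, with a corner point wherever it meets an edge or a vertex of `P`,
which satisfies the quasigeodesic condition at every point (away from the corner points the curve
is straight). -/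
structure ClosedQuasigeodesic (P : Poly) where
  /-- number of corner points -/
  N : ℕ
  /-- at least one -/
  hN : N ≠ 0
  /-- the corner points, in cyclic order -/
  pt : ZMod N → E3
  /-- consecutive corner points are different -/
  ne : ∀ i, pt i ≠ pt (i + 1)
  /-- the corner points lie on edges of `P` -/
  onEdge : ∀ i, ∃ a b, IsEdge P a b ∧ pt i ∈ segment ℝ (toE a) (toE b)
  /-- the segments lie on the surface -/
  onSurface : ∀ i, segment ℝ (pt i) (pt (i + 1)) ⊆ frontier P.body
  /-- the quasigeodesic condition -/
  quasi : ∀ i, QuasigeodesicAt P.body (pt i) (pt (i - 1) - pt i) (pt (i + 1) - pt i)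

end QG
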