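import Pool.Agent.Lib_helper2.QG.Body

/-!
# Leaving the neighbourhood of an edge in the perpendicular direction
-/

open scoped RealInnerProductSpace

namespace QG

lemma face_edge : ∀ F A W, A ≠ W → S F A = 0 → S F W = 0 → ∃ G, IsE A W F G := by
  decide +kernel

lemma face_vert : ∀ F A B W, A ≠ B → W ≠ A → W ≠ B → S F A = 0 → S F B = 0 → S F W = 0 →
    ∀ k, S F k = 0 → k = A ∨ k = B ∨ k = W := by
  decide +kernel

lemma face_unique : ∀ F A B W, A ≠ B → W ≠ A → W ≠ B → S F A = 0 → S F B = 0 → S F W = 0 →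
    ∀ H, S H A = 0 → S H B = 0 → S H W = 0 → H = F := by
  decide +kernel

/-- barycentric coordinates in a face -/
lemma face_vrep {F : Fin 8} {A B W : Fin 6} (hAB : A ≠ B) (hWA : W ≠ A) (hWB : W ≠ B)
    (hA : S F A = 0) (hB : S F B = 0) (hW : S F W = 0) {y : E3} (hy : y ∈ Qs)
    (hF : sl F y = 0) : ∃ a b w : ℝ, 0 ≤ a ∧ 0 ≤ b ∧ 0 ≤ w ∧ a + b + w = 1 ∧
      y - pv A = b • (pv B - pv A) + w • (pv W - pv A) ∧
      ∀ H, sl H y = a * S H A + b * S H B + w * S H W := by
  obtain ⟨μ, h0, hs, hx'⟩ := vrep y hy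
  have e1 : ∀ l, μ l * (S F l : ℝ) = 0 := by
    intro l
    rw [hx', sl_sum F μ hs] at hF
    have h5 : ∀ l ∈ Finset.univ, 0 ≤ μ l * (S F l : ℝ) := by
      intro l _
      exact mul_nonneg (h0 l) (by exact_mod_cast S_nonneg F l)
    exact (Finset.sum_eq_zero_iff_of_nonneg h5).1 hF l (Finset.mem_univ l)
  have e2 : ∀ l, l ≠ A → l ≠ B → l ≠ W → μ l = 0 := by
    intro l h1 h2 h3
    by_contra hcon
    have h5 := (mul_eq_zero.1 (e1 l)).resolve_left hcon
    rcases face_vert F A B W hAB hWA hWB hA hB hW l (by exact_mod_cast h5) with h | h | h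
    · exact h1 h
    · exact h2 h
    · exact h3 h
  have e3 : ∀ {M : Type} [AddCommMonoid M] (g : Fin 6 → M), (∀ l, μ l = 0 → g l = 0) →
      ∑ l, g l = g A + g B + g W := by
    intro M _ g hg
    have h1 : ∑ l, g l = ∑ l ∈ ({A, B, W} : Finset (Fin 6)), g l := by
      symm
      apply Finset.sum_subset (Finset.subset_univ _)
      intro l _ hl
      simp only [Finset.mem_insert, Finset.mem_singleton, not_or] at hl
      exact hg l (e2 l hl.1 hl.2.1 hl.2.2)
    rw [h1, Finset.sum_insert (by simp [hAB, hWA.symm]), Finset.sum_insert (by simp [hWB.symm]),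
      Finset.sum_singleton, add_assoc]
  refine ⟨μ A, μ B, μ W, h0 A, h0 B, h0 W, ?_, ?_, ?_⟩
  · rw [← hs, e3 μ (fun _ h => h)]
  · have h1 : y - pv A = ∑ l, μ l • (pv l - pv A) := by
      rw [hx']
      simp only [smul_sub, Finset.sum_sub_distrib, ← Finset.sum_smul, hs, one_smul]
    rw [h1, e3 (fun l => μ l • (pv l - pv A)) (fun l hl => by rw [hl, zero_smul]), sub_self,
      smul_zero, zero_add]
  · intro H
    rw [hx', sl_sum H μ hs, e3 (fun l => μ l * (S H l : ℝ)) (fun l hl => by rw [hl, zero_mul])]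

/-- constants -/
structure Cst (ρ κ ξ : ℝ) : Prop where
  ρ0 : 0 < ρ
  ρ1 : 1000000 * ρ ≤ 1
  κ0 : 0 < κ
  κρ : 1000000 * κ ≤ ρ
  ξ0 : 0 < ξ
  ξρ : 100000 * ξ ≤ ρ
  κξ : 30000 * κ ≤ ξ * ρ

lemma exit_b {A B W : Fin 6} {F G : Fin 8} {ρ κ ξ : ℝ} (hc : Cst ρ κ ξ) (h : IsE A B F G)
    (hW : S F W = 0) (hWA : W ≠ A) (hWB : W ≠ B) {q y : E3} (hq : sl F q = 0) (hy : sl F y = 0)
    (hsp1 : ρ / 2 ≤ sp A B q) (hperp : ⟪ed A B, y - q⟫ = 0) (hne : y ≠ q)
    (hnear : ∃ A' B' F' G', IsE A' B' F' G' ∧ sl F' y ≤ κ ∧ sl G' y ≤ κ)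
    (hG2 : ∀ A2 B2 F2 G2, IsE A2 B2 F2 G2 → sl F2 y ≤ κ → sl G2 y ≤ κ → ρ / 30 ≤ sp A2 B2 y →
      sp A2 B2 y ≤ 1 - ρ / 30 → ⟪ed A2 B2, un (y - q)⟫ = 0 ∨
        1 - ξ ^ 2 / 2 < ⟪ed A2 B2, un (y - q)⟫ ^ 2)
    {b w : ℝ} (hb0 : 0 ≤ b) (hw0 : 0 ≤ w) (hw1 : w ≤ 1)
    (hyA : y - pv A = b • (pv B - pv A) + w • (pv W - pv A)) (hb : b ≤ κ) :
    ‖y - pv W‖ ≤ 20 * ρ := by
  have hρ0 := hc.ρ0
  have hρ1 := hc.ρ1
  have hκ0 := hc.κ0
  have hκρ := hc.κρ
  have hξ0 := hc.ξ0
  have hξρ := hc.ξρ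
  rcases le_or_gt (1 - ρ) w with h1 | h1
  · have e1 : y - pv W = (1 - w) • (pv A - pv W) + b • (pv B - pv A) := by
      have : y - pv W = (y - pv A) + (pv A - pv W) := by abel
      rw [this, hyA, sub_smul, one_smul, ← neg_sub (pv A) (pv W), smul_neg]
      abel
    rw [e1]
    refine (norm_add_le _ _).trans ?_
    rw [norm_smul, norm_smul, Real.norm_of_nonneg (by linarith), Real.norm_of_nonneg hb0]
    have e2 := mul_le_mul (by linarith : 1 - w ≤ ρ) (norm_pv_le W A) (norm_nonneg _) hρ0.le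
    have e3 := mul_le_mul hb (norm_pv_le A B) (norm_nonneg _) hκ0.le
    linarith
  · exfalso
    obtain ⟨G2, hE2⟩ := face_edge F A W hWA.symm h.2.2.1 hW
    have hn := one_le_norm_pv h.ne
    have hn2 := one_le_norm_pv hWA.symm
    -- projection parameters
    have hspy : sp A B y = sp A B q := by
      have e1 : y = q + (y - q) := by abel
      rw [e1, sp_add, real_inner_comm, hperp, zero_div, add_zero]
    set t := ⟪pv W - pv A, ed A B⟫ / ‖pv B - pv A‖ with ht
    have hspt : sp A B y = b + w * t := by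
      rw [sp, hyA, inner_add_left, real_inner_smul_left, real_inner_smul_left]
      have e2 : ⟪pv B - pv A, ed A B⟫ = ‖pv B - pv A‖ := by
        rw [ed, real_inner_smul_right, real_inner_self_eq_norm_sq]
        have : ‖pv B - pv A‖ ≠ 0 := by linarith
        field_simp
      rw [e2, ht]
      have : ‖pv B - pv A‖ ≠ 0 := by linarith
      field_simp
    have ht12 : |t| ≤ 12 := by
      rw [ht, abs_div, abs_of_pos (by linarith : 0 < ‖pv B - pv A‖), div_le_iff₀ (by linarith)]
      have e3 := abs_real_inner_le_norm (pv W - pv A) (ed A B)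
      rw [norm_ed h.ne, mul_one] at e3
      have e4 := norm_pv_le A W
      nlinarith
    have ht12' := (abs_le.1 ht12).2
    have hwt : ρ / 2 - κ ≤ w * t := by linarith
    have htpos : 0 < t := by
      by_contra hcon
      push Not at hcon
      have := mul_nonpos_of_nonneg_of_nonpos hw0 hcon
      linarith
    have hwlow : ρ / 25 ≤ w := by nlinarith
    have hline : ‖y - (pv A + w • (pv W - pv A))‖ ≤ 12 * κ := by
      have e1 : y - (pv A + w • (pv W - pv A)) = b • (pv B - pv A) := by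
        have : y - (pv A + w • (pv W - pv A)) = (y - pv A) - w • (pv W - pv A) := by abel
        rw [this, hyA]; abel
      rw [e1, norm_smul, Real.norm_of_nonneg hb0]
      have e3 := mul_le_mul hb (norm_pv_le A B) (norm_nonneg _) hκ0.le
      linarith
    have hspW := (abs_le.1 (line_dist hWA.symm hline).1)
    obtain ⟨A', B', F', G', hE', hF', hG'⟩ := hnear
    have hslack : sl F y ≤ κ ∧ sl G2 y ≤ κ := by
      rcases near_unique hE2 hline (by linarith : ρ / 30 ≤ w) (by linarith) (by linarith)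
        (by linarith) hE' hF' hG' with e | e
      · rw [e.1] at hF'; rw [e.2] at hG'; exact ⟨hF', hG'⟩
      · rw [e.1] at hF'; rw [e.2] at hG'; exact ⟨hG', hF'⟩
    have hv := norm_un (sub_ne_zero.2 hne)
    have hvs := norm_smul_un (sub_ne_zero.2 hne)
    have hn0 : 0 < ‖y - q‖ := norm_pos_iff.2 (sub_ne_zero.2 hne)
    set v := un (y - q) with hvdef
    have hpv : ⟪ed A B, v⟫ = 0 := by
      rw [hvdef, un, real_inner_smul_right, hperp, mul_zero]
    rcases hG2 A W F G2 hE2 hslack.1 hslack.2 (by linarith [hspW.1]) (by linarith [hspW.2]) with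
      h2 | h2
    · -- perpendicular to two edges
      have hz : y - q = 0 := by
        apply eq_zero_of_det (face_det F A B W h.2.2.1 h.2.2.2.1 hW h.ne hWA hWB)
        · change ⟪na F, y - q⟫ = 0
          have e1 := sl_sub F y q
          rw [hy, hq] at e1
          linarith
        · rw [← vec_sub, ← pv, ← pv, ← norm_smul_ed h.ne, real_inner_smul_left, hperp, mul_zero]
        · rw [← vec_sub, ← pv, ← pv, ← norm_smul_ed hWA.symm, real_inner_smul_left, ← hvs,
            real_inner_smul_right, h2, mul_zero, mul_zero]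
      exact sub_ne_zero.2 hne hz
    · -- nearly parallel to the second edge
      have he2 := norm_ed hWA.symm
      have he := norm_ed h.ne
      set c := ⟪ed A W, v⟫ with hcdef
      have e1 : ⟪ed A B, ed A W⟫ = ⟪ed A B, ed A W - c • v⟫ := by
        rw [inner_sub_right, real_inner_smul_right, hpv, mul_zero, sub_zero]
      have e2 : ‖ed A W - c • v‖ ^ 2 = 1 - c ^ 2 := by
        rw [norm_sub_sq_real, he2, norm_smul, hv, real_inner_smul_right, ← hcdef,
          Real.norm_eq_abs, mul_one, sq_abs]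
        ring
      have e3 : ‖ed A W - c • v‖ ≤ ξ := by
        have : ‖ed A W - c • v‖ ^ 2 ≤ ξ ^ 2 := by rw [e2]; nlinarith
        exact (sq_le_sq₀ (norm_nonneg _) hξ0.le).1 this
      have e4 : ⟪ed A B, ed A W⟫ ≤ ξ := by
        rw [e1]
        refine (real_inner_le_norm _ _).trans ?_
        rw [he, one_mul]; exact e3
      -- lower bound
      have e5 : ⟪ed A B, ed A W⟫ * (‖pv B - pv A‖ * ‖pv W - pv A‖) =
          ⟪pv B - pv A, pv W - pv A⟫ := by
        rw [← norm_smul_ed h.ne, ← norm_smul_ed hWA.symm, real_inner_smul_left,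
          real_inner_smul_right, norm_smul_ed h.ne, norm_smul_ed hWA.symm]
        ring
      have e6 : 0 < ⟪pv B - pv A, pv W - pv A⟫ := by
        have e7 : ⟪pv B - pv A, pv W - pv A⟫ = t * ‖pv B - pv A‖ ^ 2 := by
          rw [ht, real_inner_comm]
          conv_lhs => rw [← norm_smul_ed h.ne, real_inner_smul_right]
          have : ‖pv B - pv A‖ ≠ 0 := by linarith
          field_simp
        rw [e7]; positivity
      rw [inner_pv] at e5 e6
      have e7 : (1 : ℝ) ≤ (ip B A W A : ℝ) := by exact_mod_cast e6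
      have e8 : ‖pv B - pv A‖ * ‖pv W - pv A‖ ≤ 144 := by
        have := mul_le_mul (norm_pv_le A B) (norm_pv_le A W) (norm_nonneg _) (by norm_num)
        linarith
      have e9 : 0 < ‖pv B - pv A‖ * ‖pv W - pv A‖ := by positivity
      have e10 : ⟪ed A B, ed A W⟫ * (‖pv B - pv A‖ * ‖pv W - pv A‖) ≤ ξ * 144 := by
        refine (mul_le_mul_of_nonneg_right e4 e9.le).trans ?_
        exact mul_le_mul_of_nonneg_left e8 hξ0.le
      linarith

/-- A segment in a face, starting near the middle of an edge of the face in the direction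
perpendicular to the edge, ends near the opposite vertex. -/
lemma face_exit {A B W : Fin 6} {F G : Fin 8} {ρ κ ξ : ℝ} (hc : Cst ρ κ ξ) (h : IsE A B F G)
    (hW : S F W = 0) (hWA : W ≠ A) (hWB : W ≠ B) {q y : E3} (hyQ : y ∈ Qs) (hq : sl F q = 0)
    (hy : sl F y = 0)
    (hsp1 : ρ / 2 ≤ sp A B q) (hsp2 : sp A B q ≤ 1 - ρ / 2)
    (hperp : ⟪ed A B, y - q⟫ = 0) (hne : y ≠ q)
    (hnear : ∃ A' B' F' G', IsE A' B' F' G' ∧ sl F' y ≤ κ ∧ sl G' y ≤ κ)
    (hG2 : ∀ A2 B2 F2 G2, IsE A2 B2 F2 G2 → sl F2 y ≤ κ → sl G2 y ≤ κ → ρ / 30 ≤ sp A2 B2 y →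
      sp A2 B2 y ≤ 1 - ρ / 30 → ⟪ed A2 B2, un (y - q)⟫ = 0 ∨
        1 - ξ ^ 2 / 2 < ⟪ed A2 B2, un (y - q)⟫ ^ 2)
    (hnot : ¬ (sl G y ≤ κ)) :
    ‖y - pv W‖ ≤ 20 * ρ := by
  have hρ0 := hc.ρ0
  have hκ0 := hc.κ0
  have hκρ := hc.κρ
  obtain ⟨a, b, w, ha0, hb0, hw0, hs, hyA, hsl⟩ :=
    face_vrep h.ne hWA hWB h.2.2.1 h.2.2.2.1 hW hyQ hy
  obtain ⟨A', B', F', G', hE', hF', hG'⟩ := id hnear
  have hH : ∃ H, H ≠ F ∧ sl H y ≤ κ := by
    by_cases h1 : F' = F
    · exact ⟨G', fun h2 => hE'.2.1 (h1.trans h2.symm), hG'⟩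
    · exact ⟨F', h1, hF'⟩
  obtain ⟨H, hHF, hH⟩ := hH
  rw [hsl] at hH
  have hSA : (0 : ℝ) ≤ S H A := by exact_mod_cast S_nonneg H A
  have hSB : (0 : ℝ) ≤ S H B := by exact_mod_cast S_nonneg H B
  have hSW : (0 : ℝ) ≤ S H W := by exact_mod_cast S_nonneg H W
  have hcase : a ≤ κ ∨ b ≤ κ ∨ w ≤ κ := by
    by_cases h1 : S H A = 0
    · by_cases h2 : S H B = 0
      · by_cases h3 : S H W = 0
        · exact absurd (face_unique F A B W h.ne hWA hWB h.2.2.1 h.2.2.2.1 hW H h1 h2 h3) hHF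
        · have h4 : (1 : ℝ) ≤ S H W := by
            have := S_nonneg H W
            exact_mod_cast (by omega : 1 ≤ S H W)
          right; right
          nlinarith [mul_nonneg ha0 hSA, mul_nonneg hb0 hSB]
      · have h4 : (1 : ℝ) ≤ S H B := by
          have := S_nonneg H B
          exact_mod_cast (by omega : 1 ≤ S H B)
        right; left
        nlinarith [mul_nonneg ha0 hSA, mul_nonneg hw0 hSW]
    · have h4 : (1 : ℝ) ≤ S H A := by
        have := S_nonneg H A
        exact_mod_cast (by omega : 1 ≤ S H A)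
      left
      nlinarith [mul_nonneg hb0 hSB, mul_nonneg hw0 hSW]
  rcases hcase with h1 | h1 | h1
  · -- close to the edge B W
    have hyB : y - pv B = a • (pv A - pv B) + w • (pv W - pv B) := by
      have e1 : y - pv B = (y - pv A) - (a + b + w) • (pv B - pv A) := by
        rw [hs, one_smul]; abel
      rw [e1, hyA, add_smul, add_smul, ← neg_sub (pv A) (pv B), smul_neg, smul_neg, smul_neg,
        show pv W - pv B = (pv W - pv A) + (pv A - pv B) by abel, smul_add]
      abel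
    exact exit_b hc h.symm hW hWB hWA hq hy (by rw [sp_symm h.ne]; linarith)
      (by rw [ed_symm, inner_neg_left, hperp, neg_zero]) hne hnear hG2 ha0 hw0 (by linarith) hyB h1
  · exact exit_b hc h hW hWA hWB hq hy hsp1 hperp hne hnear hG2 hb0 hw0 (by linarith) hyA h1
  · exfalso
    have hline : ‖y - (pv A + b • (pv B - pv A))‖ ≤ 12 * κ := by
      have e1 : y - (pv A + b • (pv B - pv A)) = w • (pv W - pv A) := by
        have : y - (pv A + b • (pv B - pv A)) = (y - pv A) - b • (pv B - pv A) := by abel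
        rw [this, hyA]; abel
      rw [e1, norm_smul, Real.norm_of_nonneg hw0]
      have e3 := mul_le_mul h1 (norm_pv_le A W) (norm_nonneg _) hκ0.le
      linarith
    have hspy : sp A B y = sp A B q := by
      have e1 : y = q + (y - q) := by abel
      rw [e1, sp_add, real_inner_comm, hperp, zero_div, add_zero]
    have hl2 := (line_dist h.ne hline).2
    rw [hspy] at hl2
    rcases near_unique h hl2 hsp1 hsp2 (by linarith) (by linarith) hE' hF' hG' with e | e
    · rw [e.2] at hG'; exact hnot hG'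
    · rw [e.1] at hF'; exact hnot hF'

end QG
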