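import Pool.Agent.Lib_helper2.QG.Assemble
import Pool.Agent.Lib_helper56.QGPoly
import Pool.Agent.Lib_helper56.QGChain

/-!
# The family of polytopes
-/

open scoped RealInnerProductSpace

namespace QG

lemma gZ_pos : ∀ F, 0 < gZ F F := by decide +kernel

lemma gZ_lt : ∀ F G, F ≠ G → gZ F G ^ 2 < gZ F F * gZ G G := by decide +kernel

/-- the data of a chain with integrality and size bounds -/
def Good (κ : ℝ) (F G : Fin 8) (n e : ℕ) (c : Chain κ (n + 2)) : Prop :=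
  c.Blunt (gr F F) (gr F G) (gr G G) ∧
  (∃ (q : Fin (n + 1) → ℕ) (l : ℝ), 0 < l ∧
    Pairwise (fun i j => Nat.Coprime (q i) (q j)) ∧ (∀ i, ¬ IsSquare (q i)) ∧
    ∀ j : Fin (n + 1), qf F G (c.α (j + 2) - c.α (j + 1)) (c.β (j + 2) - c.β (j + 1)) =
      l ^ 2 * (q j : ℝ)) ∧
  ∃ Λ : ℤ, 1 ≤ Λ ∧ Λ ≤ 2 ^ e ∧ ∀ i ≤ n + 3, ∃ P Q c' : ℤ, c.P i = P ∧ c.Q i = Q ∧
    (Λ : ℝ) * c.c i = c' ∧ |P| ≤ 2 ^ e ∧ |Q| ≤ 2 ^ e ∧ |c'| ≤ 2 ^ e

lemma exists_good {κ : ℝ} (hκ : 0 < κ) {F G : Fin 8} (hFG : F ≠ G) :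
    ∃ K : ℕ, ∀ n : ℕ, K ≤ n → ∃ c : Chain κ (n + 2), Good κ F G n (K * n ^ 3) c := by
  obtain ⟨K, hK⟩ := exists_chain (gZ F F) (gZ F G) (gZ G G) (gZ_pos F) (gZ_pos G)
    (gZ_lt F G hFG) κ hκ
  refine ⟨K, fun n hn => ?_⟩
  obtain ⟨c, q, l, hl, hb, hq1, hq2, hq3, hΛ⟩ := hK n hn
  refine ⟨c, ?_, ⟨q, l / √(disc F G), ?_, hq1, hq2, ?_⟩, hΛ⟩
  · rw [gr_eq, gr_eq, gr_eq]; exact hb
  · have := one_le_disc hFG
    exact div_pos hl (Real.sqrt_pos.2 (by linarith))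
  · intro j
    have h1 := one_le_disc hFG
    rw [qf, gr_eq, gr_eq, gr_eq, hq3 j, div_pow, Real.sq_sqrt (by linarith)]
    ring

lemma Good.mono {κ : ℝ} {F G : Fin 8} {n e e' : ℕ} {c : Chain κ (n + 2)} (h : Good κ F G n e c)
    (he : e ≤ e') : Good κ F G n e' c := by
  obtain ⟨h1, h2, Λ, h3, h4, h5⟩ := h
  have h6 : (2 : ℤ) ^ e ≤ 2 ^ e' := pow_le_pow_right₀ (by norm_num) he
  refine ⟨h1, h2, Λ, h3, h4.trans h6, fun i hi => ?_⟩
  obtain ⟨P, Q, c', e1, e2, e3, e4, e5, e6⟩ := h5 i hi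
  exact ⟨P, Q, c', e1, e2, e3, e4.trans h6, e5.trans h6, e6.trans h6⟩

lemma exists_fam {κ : ℝ} (hκ : 0 < κ) (hκ1 : κ ≤ 1 / 4) :
    ∃ K : ℕ, ∀ n : ℕ, K ≤ n → ∃ f : Fam κ (n + 2), ∀ F G, F ≠ G →
      Good κ F G n (K * n ^ 3) (f.ch F G) := by
  classical
  have h1 : ∀ t : Fin 8 × Fin 8, ∃ K : ℕ, t.1 ≠ t.2 → ∀ n : ℕ, K ≤ n →
      ∃ c : Chain κ (n + 2), Good κ t.1 t.2 n (K * n ^ 3) c := by
    rintro ⟨F, G⟩
    by_cases hFG : F = G
    · exact ⟨0, fun h => absurd hFG h⟩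
    · obtain ⟨K, hK⟩ := exists_good hκ hFG
      exact ⟨K, fun _ => hK⟩
  choose K hK using h1
  refine ⟨∑ t, K t, fun n hn => ?_⟩
  have hle : ∀ t, K t ≤ ∑ t, K t := fun t => Finset.single_le_sum (fun _ _ => Nat.zero_le _)
    (Finset.mem_univ t)
  have h2 : ∀ F G : Fin 8, ∃ c : Chain κ (n + 2), F ≠ G →
      Good κ F G n ((∑ t, K t) * n ^ 3) c := by
    intro F G
    by_cases hFG : F = G
    · obtain ⟨c, _⟩ := hK (0, 1) (by decide) n ((hle _).trans hn)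
      exact ⟨c, fun h => absurd hFG h⟩
    · obtain ⟨c, hc⟩ := hK (F, G) hFG n ((hle _).trans hn)
      exact ⟨c, fun _ => hc.mono (Nat.mul_le_mul_right _ (hle _))⟩
  choose c hc using h2
  exact ⟨⟨c, fun A B F G h => (hc F G h.2.1).1, hκ, hκ1, by omega⟩, hc⟩

lemma NA_le : ∀ F j, |NA F j| ≤ 50 := by decide +kernel

lemma NB_le : ∀ F, |NB F| ≤ 267 := by decide +kernel

/-- integer form of the constraints -/
lemma exists_int {κ : ℝ} {n e : ℕ} (f : Fam κ (n + 2))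
    (hf : ∀ F G, F ≠ G → Good κ F G n e (f.ch F G)) (j : J (n + 2)) :
    ∃ (av : Fin 3 → ℤ) (bv : ℤ), (∀ i, |av i| ≤ 2 ^ (2 * e + 10)) ∧ |bv| ≤ 2 ^ (2 * e + 10) ∧
      ∀ x : E3, (∑ i, (av i : ℝ) * x i ≤ (bv : ℝ)) ↔ 0 ≤ f.con j x := by
  have hpow : (1 : ℤ) ≤ 2 ^ e := one_le_pow₀ (by norm_num)
  have hpow2 : (2 : ℤ) ^ (2 * e + 10) = 2 ^ e * 2 ^ e * 1024 := by
    rw [pow_add, two_mul, pow_add]; norm_num
  have hpp : (2 : ℤ) ^ e ≤ 2 ^ e * 2 ^ e := by nlinarith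
  by_cases hj : j.1 < j.2.1 ∧ AdjF j.1 j.2.1
  · obtain ⟨_, _, Λ, hΛ1, hΛ2, hΛ3⟩ := hf j.1 j.2.1 hj.1.ne
    obtain ⟨P, Q, c', hP, hQ, hc, hP2, hQ2, hc2⟩ := hΛ3 j.2.2 (by omega)
    have hΛ0 : |Λ| ≤ 2 ^ e := by rw [abs_of_pos (by omega)]; exact hΛ2
    have hΛP : |Λ * P| ≤ 2 ^ e * 2 ^ e := by
      rw [abs_mul]; exact mul_le_mul hΛ0 hP2 (abs_nonneg _) (by positivity)
    have hΛQ : |Λ * Q| ≤ 2 ^ e * 2 ^ e := by
      rw [abs_mul]; exact mul_le_mul hΛ0 hQ2 (abs_nonneg _) (by positivity)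
    refine ⟨fun i => Λ * P * NA j.1 i + Λ * Q * NA j.2.1 i,
      Λ * P * NB j.1 + Λ * Q * NB j.2.1 - c', ?_, ?_, ?_⟩
    · intro i
      have h1 : |Λ * P * NA j.1 i| ≤ 2 ^ e * 2 ^ e * 50 := by
        rw [abs_mul]; exact mul_le_mul hΛP (NA_le _ _) (abs_nonneg _) (by positivity)
      have h2 : |Λ * Q * NA j.2.1 i| ≤ 2 ^ e * 2 ^ e * 50 := by
        rw [abs_mul]; exact mul_le_mul hΛQ (NA_le _ _) (abs_nonneg _) (by positivity)
      refine (abs_add_le _ _).trans ?_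
      rw [hpow2]
      linarith
    · have h1 : |Λ * P * NB j.1| ≤ 2 ^ e * 2 ^ e * 267 := by
        rw [abs_mul]; exact mul_le_mul hΛP (NB_le _) (abs_nonneg _) (by positivity)
      have h2 : |Λ * Q * NB j.2.1| ≤ 2 ^ e * 2 ^ e * 267 := by
        rw [abs_mul]; exact mul_le_mul hΛQ (NB_le _) (abs_nonneg _) (by positivity)
      refine (abs_sub _ _).trans ((add_le_add_left (abs_add_le _ _) _).trans ?_)
      rw [hpow2]
      linarith
    · intro x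
      have hΛpos : (0 : ℝ) < Λ := by
        have : 0 < Λ := by omega
        exact_mod_cast this
      have h1 : ((Λ * P * NB j.1 + Λ * Q * NB j.2.1 - c' : ℤ) : ℝ) -
          ∑ i, ((Λ * P * NA j.1 i + Λ * Q * NA j.2.1 i : ℤ) : ℝ) * x i = Λ * f.con j x := by
        rw [f.con_of hj, Chain.h, hP, hQ, sl, sl, na, na, inner_vec, inner_vec]
        have h2 : ∑ i, ((Λ * P * NA j.1 i + Λ * Q * NA j.2.1 i : ℤ) : ℝ) * x i =
            Λ * P * ∑ i, (NA j.1 i : ℝ) * x i + Λ * Q * ∑ i, (NA j.2.1 i : ℝ) * x i := by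
          rw [Finset.mul_sum, Finset.mul_sum, ← Finset.sum_add_distrib]
          refine Finset.sum_congr rfl fun i _ => ?_
          push_cast; ring
        rw [h2]
        push_cast
        linear_combination hc
      constructor
      · intro h
        have : 0 ≤ (Λ : ℝ) * f.con j x := by rw [← h1]; linarith
        exact nonneg_of_mul_nonneg_right this hΛpos
      · intro h
        have : 0 ≤ (Λ : ℝ) * f.con j x := mul_nonneg hΛpos.le h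
        linarith
  · refine ⟨NA j.1, NB j.1, ?_, ?_, ?_⟩
    · intro i
      refine (NA_le _ _).trans ?_
      rw [hpow2]; linarith
    · refine (NB_le _).trans ?_
      rw [hpow2]; linarith
    · intro x
      rw [f.con_of_not hj, sl, na, inner_vec, sub_nonneg]

/-- the polytope as a `Poly` -/
lemma exists_P {κ : ℝ} {n e : ℕ} (f : Fam κ (n + 2))
    (hf : ∀ F G, F ≠ G → Good κ F G n e (f.ch F G)) :
    ∃ P : Poly, P.body = f.K ∧ P.size ≤ 30 * (64 * (n + 4)) ^ 3 * (2 * e + 11) := by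
  have h1 := exists_int f hf
  choose av bv h2 h3 h4 using h1
  have hcard : Fintype.card (J (n + 2)) = 64 * (n + 4) := by
    simp only [Fintype.card_prod, Fintype.card_fin]; ring
  set eq := (Fintype.equivFin (J (n + 2))).trans (finCongr hcard) with heq
  have hK : f.K = {x : E3 | ∀ i : Fin (64 * (n + 4)), ∑ j, ((av ∘ eq.symm) i j : ℝ) * x j ≤
      ((bv ∘ eq.symm) i : ℝ)} := by
    ext x
    rw [f.mem_K, Set.mem_ofPred_eq]
    constructor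
    · intro h i
      exact (h4 _ x).2 (h _)
    · intro h j
      have := h (eq j)
      simp only [Function.comp, Equiv.symm_apply_apply] at this
      exact (h4 _ x).1 this
  refine exists_poly (64 * (n + 4)) (2 * e + 10) (av ∘ eq.symm) (bv ∘ eq.symm)
    (fun i j => h2 _ _) (fun i => h3 _) f.K hK ?_ ?_
  · rw [Metric.isBounded_iff_subset_closedBall (pv 0)]
    refine ⟨12, fun x hx => ?_⟩
    rw [Metric.mem_closedBall, dist_eq_norm]
    exact norm_sub_le_of_mem (f.K_subset hx) 0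
  · refine ⟨ctr, ?_⟩
    rw [mem_interior_iff_mem_nhds, Metric.mem_nhds_iff]
    refine ⟨1 / 100, by norm_num, fun x hx => f.ball ?_⟩
    rw [Metric.mem_ball, dist_eq_norm] at hx
    exact hx.le

end QG
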