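import Pool.Agent.Lib_helper2.QG.Defs

/-!
# Input size and exact outputs
-/

open scoped Polynomial

namespace QG

/-- The input size of a polyhedron with `V` vertices: the number of binary digits of all vertex
coordinates, plus `6 V ^ 2`. The second summand bounds the number of bits needed for the face
structure (by Euler's formula the vertex lists of all faces have total length at most `6 V`, and
the number of a vertex has at most `V` bits). -/
def Poly.inputSize (P : Poly) : ℕ := P.size + 6 * P.verts.card ^ 2

/-- The real number `z` is not a root of a nonzero integer polynomial of degree at most `D`, and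
it does not lie in a number field of degree at most `D`. -/
def HighDeg (D : ℕ) (z : ℝ) : Prop :=
  (∀ f : ℤ[X], f ≠ 0 → Polynomial.aeval z f = 0 → D < f.natDegree) ∧
  ∀ F : IntermediateField ℚ ℝ, FiniteDimensional ℚ F → z ∈ F → D < Module.finrank ℚ F

/-- One item of an exact output: a vertex of the polyhedron, or the crossing of the edge `[a, b]`
at the point `a + t (b - a)`, where the real algebraic number `t` is given by a defining integer
polynomial `f` and an isolating interval `(lo, hi)`. -/
inductive Item
  /-- a vertex -/
  | vertex (v : Fin 3 → ℚ)
  /-- a crossing of an edge -/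
  | crossing (a b : Fin 3 → ℚ) (f : ℤ[X]) (lo hi : ℚ)

/-- A lower bound for the number of symbols of an item: the `natDegree + 1` coefficients of the
defining polynomial have to be written down. -/
noncomputable def Item.length : Item → ℕ
  | .vertex _ => 1
  | .crossing _ _ f _ _ => f.natDegree + 1

/-- The item is a correct description of the point `x`. -/
def Item.Describes (P : Poly) : Item → E3 → Prop
  | .vertex v, x => v ∈ P.verts ∧ x = toE v
  | .crossing a b f lo hi, x => IsEdge P a b ∧ f ≠ 0 ∧ ∃ t : ℝ, 0 < t ∧ t < 1 ∧
      x = toE a + t • (toE b - toE a) ∧ Polynomial.aeval t f = 0 ∧ (lo : ℝ) < t ∧ t < (hi : ℝ) ∧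
      ∀ t' : ℝ, (lo : ℝ) < t' → t' < (hi : ℝ) → Polynomial.aeval t' f = 0 → t' = t

/-- `l` is a correct exact output for the closed quasigeodesic `γ`: the list of its corner points
(vertices and edge crossings) in cyclic order. -/
def IsOutput (P : Poly) (γ : ClosedQuasigeodesic P) (l : List Item) : Prop :=
  l.length = γ.N ∧ ∀ k < γ.N, ∃ I, l[k]? = some I ∧ I.Describes P (γ.pt (k : ZMod γ.N))

/-- The length of an output. -/
noncomputable def outputLength (l : List Item) : ℕ := (l.map Item.length).sum

end QG
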