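import Pool.Agent.Lib_helper2.QG.Family
import Pool.Agent.Lib_helper2.QG.Output

/-!
# Closed quasigeodesics have no short exact description
-/

open scoped RealInnerProductSpace Polynomial

namespace QG

lemma highDeg_of {D : ℕ} {z : ℝ} (h : ¬ LowDeg D z) : HighDeg D z := by
  refine ⟨fun f hf hz => ?_, fun F hF hz => ?_⟩
  · by_contra hcon
    exact h ⟨f, hf, hz, not_lt.1 hcon⟩
  · by_contra hcon
    exact h (lowDeg_iff.2 ⟨F, hF, hz, not_lt.1 hcon⟩)

lemma card_le_size (P : Poly) : P.verts.card ≤ P.size := by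
  rw [Poly.size, Finset.card_eq_sum_ones]
  refine Finset.sum_le_sum fun v _ => ?_
  calc 1 ≤ bits (v 0) := by rw [bits]; omega
    _ ≤ ∑ i : Fin 3, bits (v i) :=
      Finset.single_le_sum (f := fun i => bits (v i)) (fun _ _ => Nat.zero_le _)
        (Finset.mem_univ 0)

/-- The family of polyhedra. -/
theorem family_aux : ∃ C : ℕ, ∀ n : ℕ, ∃ P : Poly, P.inputSize ≤ C * (n + 1) ^ 12 ∧
    ∀ γ : ClosedQuasigeodesic P, ∃ (i : ZMod γ.N) (a b : Fin 3 → ℚ) (t : ℝ),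
      IsEdge P a b ∧ 0 < t ∧ t < 1 ∧ γ.pt i = toE a + t • (toE b - toE a) ∧
      (∀ s : ℝ, γ.pt (i + 1) ≠ toE a + s • (toE b - toE a)) ∧
      (∀ s : ℝ, γ.pt (i - 1) ≠ toE a + s • (toE b - toE a)) ∧
      HighDeg (2 ^ n) t ∧ ∀ j, a j ≠ b j → HighDeg (2 ^ n) (γ.pt i j) := by
  obtain ⟨ε, hε0, hε1, hturn⟩ := exists_turn
  -- constants
  set ρ : ℝ := ε / 1000000 with hρ
  have hρ0 : 0 < ρ := by positivity
  have hρε : 1000000 * ρ ≤ ε := by rw [hρ]; linarith
  set ξ : ℝ := ρ / 100000 with hξ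
  have hξ0 : 0 < ξ := by positivity
  set κ : ℝ := ξ * ρ / 30000 with hκ
  have hκ0 : 0 < κ := by positivity
  have hξ1 : ξ ≤ 1 / 1000000 := by rw [hξ]; linarith
  have hκρ : 1000000 * κ ≤ ρ := by rw [hκ]; nlinarith
  have hc : Cst ρ κ ξ := ⟨hρ0, by linarith, hκ0, hκρ, hξ0, by rw [hξ]; linarith,
    by rw [hκ]; linarith⟩
  have hσ : 15601 * κ < ρ / 60 := by linarith
  obtain ⟨K, hK⟩ := exists_fam hκ0 (by linarith : κ ≤ 1 / 4)
  set C0 : ℕ := 30 * 64 ^ 3 * (K + 5) ^ 3 * (2 * K * (K + 5) ^ 3 + 11) with hC0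
  refine ⟨7 * C0 ^ 2, fun n => ?_⟩
  set n' := 3 * n + 1 + K with hn'
  obtain ⟨f, hf⟩ := hK n' (by omega)
  obtain ⟨P, hP, hsize⟩ := exists_P f hf
  refine ⟨P, ?_, fun γ => ?_⟩
  · -- the size
    have h1 : n' + 4 ≤ (K + 5) * (n + 1) := by
      have e1 : (K + 5) * (n + 1) = K * n + K + 5 * n + 5 := by ring
      have e2 : 0 ≤ K * n := Nat.zero_le _
      omega
    have h2 : n' ≤ (K + 5) * (n + 1) := by omega
    have h3 : P.size ≤ C0 * (n + 1) ^ 6 := by
      refine hsize.trans ?_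
      calc 30 * (64 * (n' + 4)) ^ 3 * (2 * (K * n' ^ 3) + 11)
          ≤ 30 * (64 * ((K + 5) * (n + 1))) ^ 3 *
            (2 * (K * ((K + 5) * (n + 1)) ^ 3) + 11 * (n + 1) ^ 3) := by
            gcongr
            exact Nat.le_mul_of_pos_right _ (by positivity)
        _ = C0 * (n + 1) ^ 6 := by rw [hC0]; ring
    have h4 := card_le_size P
    rw [Poly.inputSize]
    have h5 : P.size ≤ P.size ^ 2 := Nat.le_self_pow (by norm_num) _
    have h6 : P.verts.card ^ 2 ≤ P.size ^ 2 := Nat.pow_le_pow_left h4 2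
    have h7 : P.size ^ 2 ≤ (C0 * (n + 1) ^ 6) ^ 2 := Nat.pow_le_pow_left h3 2
    calc P.size + 6 * P.verts.card ^ 2 ≤ 7 * P.size ^ 2 := by omega
      _ ≤ 7 * (C0 * (n + 1) ^ 6) ^ 2 := by omega
      _ = 7 * C0 ^ 2 * (n + 1) ^ 12 := by ring
  · -- the crossing
    have hN : HasNodes f := fun A B F G h => (hf F G h.2.1).2.1
    have hD : (2 ^ n) ^ 3 < 2 ^ n' := by
      rw [← pow_mul]
      exact Nat.pow_lt_pow_right (by norm_num) (by omega)
    have h1 := main_contradiction hε1 hturn hρε hc hN hD (toPPath hP γ)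
    rw [AllLow] at h1
    push Not at h1
    obtain ⟨i, A, B, F, G, k, hE, hFG, hAt, hu, hlow⟩ := h1
    obtain ⟨a, b, t, h2, h3, h4, h5, h6, h7, h8, h9⟩ :=
      edge_of_at hP γ hE hFG hσ hAt hu Nat.one_le_two_pow hlow
    exact ⟨(i : ZMod γ.N), a, b, t, h2, h3, h4, h5, h6, h7, highDeg_of h8,
      fun j hj => highDeg_of (h9 j hj)⟩

lemma poly_lt_pow (C k : ℕ) : ∃ n : ℕ, (C * (n + 1) ^ 12) ^ k + k < 2 ^ n := by
  have h1 : (fun n : ℕ => ((n : ℝ)) ^ (12 * k)) =o[Filter.atTop] fun n => (2 : ℝ) ^ n :=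
    isLittleO_pow_const_const_pow_of_one_lt (12 * k) (by norm_num)
  have h2 := h1.comp_tendsto (Filter.tendsto_add_atTop_nat 1)
  have hpos : (0 : ℝ) < 1 / (2 * ((C : ℝ) ^ k + k + 1)) := by positivity
  have h3 := h2.def hpos
  obtain ⟨n, hn⟩ := h3.exists
  refine ⟨n, ?_⟩
  simp only [Function.comp] at hn
  rw [Real.norm_of_nonneg (by positivity), Real.norm_of_nonneg (by positivity)] at hn
  have h4 : ((C : ℝ) ^ k + k + 1) * ((n + 1 : ℕ) : ℝ) ^ (12 * k) ≤ 2 ^ n := by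
    rw [div_mul_eq_mul_div, le_div_iff₀ (by positivity), one_mul, pow_succ] at hn
    nlinarith
  have h5 : (1 : ℝ) ≤ ((n + 1 : ℕ) : ℝ) ^ (12 * k) := by
    apply one_le_pow₀
    push_cast
    linarith [Nat.cast_nonneg (α := ℝ) n]
  have h6 : (((C * (n + 1) ^ 12) ^ k + k : ℕ) : ℝ) < 2 ^ n := by
    refine lt_of_lt_of_le ?_ h4
    push_cast
    push_cast at h5
    rw [mul_pow, ← pow_mul]
    have hk : (0 : ℝ) ≤ k := Nat.cast_nonneg k
    nlinarith
  exact_mod_cast h6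

/-- an output for a polyhedron of the family is long -/
lemma output_long {P : Poly} {γ : ClosedQuasigeodesic P} {D : ℕ} (hD : 1 ≤ D) {i : ZMod γ.N}
    {a b : Fin 3 → ℚ} (hab : a ≠ b) (hcoord : ∀ j, a j ≠ b j → HighDeg D (γ.pt i j))
    {l : List Item} (hl : IsOutput P γ l) : D < outputLength l := by
  have : NeZero γ.N := ⟨γ.hN⟩
  obtain ⟨hγ1, hγ2⟩ := hl
  obtain ⟨I, hI1, hI2⟩ := hγ2 i.val (ZMod.val_lt i)
  rw [ZMod.natCast_zmod_val] at hI2
  have hne : ∃ j, a j ≠ b j := by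
    by_contra hcon
    push Not at hcon
    exact hab (funext hcon)
  obtain ⟨j, hj⟩ := hne
  have hx1 := (hcoord j hj).1
  have hlow : ¬ LowDeg D (γ.pt i j) := by
    rintro ⟨f, hf1, hf2, hf3⟩
    exact absurd (hx1 f hf1 hf2) (not_lt.2 hf3)
  have hlong : D < I.length := by
    rcases I with v | ⟨a', b', f, lo, hi⟩
    · exfalso
      obtain ⟨_, h2⟩ := hI2
      apply hlow
      rw [h2]
      exact lowDeg_rat hD (v j)
    · obtain ⟨_, hf0, t', _, _, h3, h4, _⟩ := hI2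
      rw [Item.length]
      by_contra hcon
      apply hlow
      have h5 : γ.pt i j = ((a' j : ℚ) : ℝ) + t' * ((b' j - a' j : ℚ) : ℝ) := by
        rw [h3]
        simp only [toE, PiLp.add_apply, PiLp.smul_apply, PiLp.sub_apply, smul_eq_mul]
        push_cast
        ring
      rw [h5]
      exact lowDeg_affine ⟨f, hf0, h4, by omega⟩ _ _
  have hmem : I ∈ l := List.mem_of_getElem? hI1
  have h6 : I.length ≤ outputLength l :=
    List.single_le_sum (fun _ _ => Nat.zero_le _) _ (List.mem_map_of_mem hmem)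
  omega

/-- The family of polyhedra on which closed quasigeodesics have no short exact description. -/
theorem family : ∃ C : ℕ, ∀ n : ℕ, ∃ P : Poly, P.inputSize ≤ C * (n + 1) ^ 12 ∧
    ∀ γ : ClosedQuasigeodesic P,
      (∃ (i : ZMod γ.N) (a b : Fin 3 → ℚ) (t : ℝ),
        IsEdge P a b ∧ 0 < t ∧ t < 1 ∧ γ.pt i = toE a + t • (toE b - toE a) ∧
        (∀ s : ℝ, γ.pt (i + 1) ≠ toE a + s • (toE b - toE a)) ∧
        (∀ s : ℝ, γ.pt (i - 1) ≠ toE a + s • (toE b - toE a)) ∧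
        HighDeg (2 ^ n) t ∧ ∀ j, a j ≠ b j → HighDeg (2 ^ n) (γ.pt i j)) ∧
      ∀ l : List Item, IsOutput P γ l → 2 ^ n < outputLength l := by
  obtain ⟨C, hC⟩ := family_aux
  refine ⟨C, fun n => ?_⟩
  obtain ⟨P, hP1, hP2⟩ := hC n
  refine ⟨P, hP1, fun γ => ⟨hP2 γ, fun l hl => ?_⟩⟩
  obtain ⟨i, a, b, t, hab, _, _, _, _, _, _, hcoord⟩ := hP2 γ
  exact output_long Nat.one_le_two_pow hab.2.2.1 hcoord hl

/-- **Negative answer.** No function, hence no algorithm, gives for every convex polyhedron an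
exact description of a closed quasigeodesic of length polynomially bounded in the input size. -/
theorem no_output (k : ℕ) : ¬ ∃ out : Poly → List Item, ∀ P : Poly,
    (∃ γ : ClosedQuasigeodesic P, IsOutput P γ (out P)) ∧
    outputLength (out P) ≤ P.inputSize ^ k + k := by
  rintro ⟨out, hout⟩
  obtain ⟨C, hC⟩ := family
  obtain ⟨n, hn⟩ := poly_lt_pow C k
  obtain ⟨P, hP1, hP2⟩ := hC n
  obtain ⟨⟨γ, hγ⟩, hlen⟩ := hout P
  have h1 := (hP2 γ).2 _ hγ
  have h7 : P.inputSize ^ k ≤ (C * (n + 1) ^ 12) ^ k := Nat.pow_le_pow_left hP1 k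
  omega

end QG
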