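import Pool.Agent.Lib_helper2.QG.BaseArg
import Pool.Agent.Lib_helper2.QG.Chain

/-!
# Coordinates adapted to an edge of the base polytope
-/

open scoped RealInnerProductSpace

namespace QG

/-- integer determinant -/
def det3 (a b c : Fin 3 → ℤ) : ℤ :=
  a 0 * (b 1 * c 2 - b 2 * c 1) - a 1 * (b 0 * c 2 - b 2 * c 0) + a 2 * (b 0 * c 1 - b 1 * c 0)

lemma eq_zero_of_det {a b c : Fin 3 → ℤ} (hd : det3 a b c ≠ 0) {x : E3} (ha : ⟪vec a, x⟫ = 0)
    (hb : ⟪vec b, x⟫ = 0) (hc : ⟪vec c, x⟫ = 0) : x = 0 := by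
  rw [inner_vec, Fin.sum_univ_three] at ha hb hc
  have hd' : ((det3 a b c : ℤ) : ℝ) ≠ 0 := by exact_mod_cast hd
  have h0 : ((det3 a b c : ℤ) : ℝ) * x 0 = 0 := by
    simp only [det3]; push_cast
    linear_combination ((b 1 : ℝ) * c 2 - b 2 * c 1) * ha - ((a 1 : ℝ) * c 2 - a 2 * c 1) * hb +
      ((a 1 : ℝ) * b 2 - a 2 * b 1) * hc
  have h1 : ((det3 a b c : ℤ) : ℝ) * x 1 = 0 := by
    simp only [det3]; push_cast
    linear_combination (-((b 0 : ℝ) * c 2 - b 2 * c 0)) * ha +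
      ((a 0 : ℝ) * c 2 - a 2 * c 0) * hb - ((a 0 : ℝ) * b 2 - a 2 * b 0) * hc
  have h2 : ((det3 a b c : ℤ) : ℝ) * x 2 = 0 := by
    simp only [det3]; push_cast
    linear_combination ((b 0 : ℝ) * c 1 - b 1 * c 0) * ha - ((a 0 : ℝ) * c 1 - a 1 * c 0) * hb +
      ((a 0 : ℝ) * b 1 - a 1 * b 0) * hc
  ext j
  fin_cases j
  · simpa using (mul_eq_zero.1 h0).resolve_left hd'
  · simpa using (mul_eq_zero.1 h1).resolve_left hd'
  · simpa using (mul_eq_zero.1 h2).resolve_left hd'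

lemma edge_det : ∀ A B F G, IsE A B F G →
    det3 (NA F) (NA G) (fun j => V B j - V A j) ≠ 0 := by
  decide +kernel

/-- two edges of a face and the normal of the face are independent -/
lemma face_det : ∀ F A B W, S F A = 0 → S F B = 0 → S F W = 0 → A ≠ B → W ≠ A → W ≠ B →
    det3 (NA F) (fun j => V B j - V A j) (fun j => V W j - V A j) ≠ 0 := by
  decide +kernel

/-- integer Gram entries of the normals -/
def gZ (F G : Fin 8) : ℤ := ∑ j, NA F j * NA G j

/-- Gram entries of the normals -/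
noncomputable def gr (F G : Fin 8) : ℝ := ⟪na F, na G⟫

lemma gr_eq (F G : Fin 8) : gr F G = (gZ F G : ℝ) := by
  rw [gr, na, na, inner_vec_vec, gZ]

lemma gr_comm (F G : Fin 8) : gr F G = gr G F := real_inner_comm _ _

lemma gr_le (F G : Fin 8) : |gr F G| ≤ 2500 := by
  refine (abs_real_inner_le_norm _ _).trans ?_
  have := mul_le_mul (norm_na_le F) (norm_na_le G) (norm_nonneg _) (by norm_num)
  linarith

lemma gZ_disc : ∀ F G, F ≠ G → 1 ≤ gZ F F * gZ G G - gZ F G ^ 2 := by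
  decide +kernel

/-- the discriminant -/
noncomputable def disc (F G : Fin 8) : ℝ := gr F F * gr G G - gr F G ^ 2

lemma one_le_disc {F G : Fin 8} (h : F ≠ G) : 1 ≤ disc F G := by
  have := gZ_disc F G h
  simp only [disc, gr_eq]
  exact_mod_cast this

lemma disc_comm (F G : Fin 8) : disc F G = disc G F := by
  rw [disc, disc, gr_comm F G]; ring

/-- the quadratic form of displacements perpendicular to an edge -/
noncomputable def qf (F G : Fin 8) (ξ η : ℝ) : ℝ :=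
  (gr G G * ξ ^ 2 - 2 * gr F G * ξ * η + gr F F * η ^ 2) / disc F G

lemma qf_comm (F G : Fin 8) (ξ η : ℝ) : qf F G ξ η = qf G F η ξ := by
  rw [qf, qf, disc_comm F G, gr_comm F G]; ring

lemma qf_le {F G : Fin 8} (h : F ≠ G) (ξ η : ℝ) : qf F G ξ η ≤ 2500 * (|ξ| + |η|) ^ 2 := by
  have h1 := one_le_disc h
  have h2 := (abs_le.1 (gr_le F F)).2
  have h3 := (abs_le.1 (gr_le G G)).2
  have h4 := gr_le F G
  have h5 : gr G G * ξ ^ 2 - 2 * gr F G * ξ * η + gr F F * η ^ 2 ≤ 2500 * (|ξ| + |η|) ^ 2 := by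
    have h6 : - (2 * gr F G * ξ * η) ≤ 2 * 2500 * (|ξ| * |η|) := by
      refine (neg_le_abs _).trans ?_
      rw [abs_mul, abs_mul, abs_mul, abs_two, mul_assoc (2 * |gr F G|)]
      have := mul_nonneg (abs_nonneg ξ) (abs_nonneg η)
      nlinarith
    have h7 : gr G G * ξ ^ 2 ≤ 2500 * |ξ| ^ 2 := by
      rw [sq_abs]; exact mul_le_mul_of_nonneg_right h3 (sq_nonneg _)
    have h8 : gr F F * η ^ 2 ≤ 2500 * |η| ^ 2 := by
      rw [sq_abs]; exact mul_le_mul_of_nonneg_right h2 (sq_nonneg _)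
    nlinarith
  rw [qf, div_le_iff₀ (by linarith)]
  have h6 : 0 ≤ 2500 * (|ξ| + |η|) ^ 2 := by positivity
  nlinarith

lemma IsE.norm_pos {A B : Fin 6} {F G : Fin 8} (h : IsE A B F G) : 0 < ‖pv B - pv A‖ := by
  have := one_le_norm_pv h.ne
  linarith

lemma IsE.disc_pos {A B : Fin 6} {F G : Fin 8} (h : IsE A B F G) : 0 < disc F G := by
  have := one_le_disc h.2.1
  linarith

lemma inner_na_ed {A B : Fin 6} {F G : Fin 8} (h : IsE A B F G) : ⟪na F, ed A B⟫ = 0 := by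
  rw [ed, real_inner_smul_right, h.inner, mul_zero]

/-- the vector with given coordinates -/
noncomputable def vmk (A B : Fin 6) (F G : Fin 8) (ξ η ζ : ℝ) : E3 :=
  (-((gr G G * ξ - gr F G * η) / disc F G)) • na F +
    (-((gr F F * η - gr F G * ξ) / disc F G)) • na G + ζ • ed A B

section
variable {A B : Fin 6} {F G : Fin 8} (h : IsE A B F G)
include h

lemma inner_F_mk (ξ η ζ : ℝ) : ⟪na F, vmk A B F G ξ η ζ⟫ = - ξ := by
  have hd := h.disc_pos.ne'
  have h1 := inner_na_ed h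
  simp only [vmk, inner_add_right, real_inner_smul_right, h1, mul_zero, add_zero]
  change -((gr G G * ξ - gr F G * η) / disc F G) * gr F F +
    -((gr F F * η - gr F G * ξ) / disc F G) * gr F G = - ξ
  field_simp
  rw [disc]; ring

lemma inner_G_mk (ξ η ζ : ℝ) : ⟪na G, vmk A B F G ξ η ζ⟫ = - η := by
  have hd := h.disc_pos.ne'
  have h1 := inner_na_ed h.swap
  simp only [vmk, inner_add_right, real_inner_smul_right, h1, mul_zero, add_zero]
  change -((gr G G * ξ - gr F G * η) / disc F G) * gr G F +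
    -((gr F F * η - gr F G * ξ) / disc F G) * gr G G = - η
  rw [gr_comm G F]
  field_simp
  rw [disc]; ring

lemma inner_ed_mk (ξ η ζ : ℝ) : ⟪ed A B, vmk A B F G ξ η ζ⟫ = ζ := by
  have h1 := inner_na_ed h
  have h2 := inner_na_ed h.swap
  rw [real_inner_comm] at h1 h2
  simp only [vmk, inner_add_right, real_inner_smul_right, h1, h2, mul_zero, zero_add]
  rw [real_inner_self_eq_norm_sq, norm_ed h.ne]; ring

lemma eq_mk (w : E3) : w = vmk A B F G (-⟪na F, w⟫) (-⟪na G, w⟫) ⟪ed A B, w⟫ := by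
  rw [← sub_eq_zero]
  apply eq_zero_of_det (edge_det A B F G h)
  · change ⟪na F, _⟫ = 0
    rw [inner_sub_right, inner_F_mk h, neg_neg, sub_self]
  · change ⟪na G, _⟫ = 0
    rw [inner_sub_right, inner_G_mk h, neg_neg, sub_self]
  · rw [← vec_sub, ← pv, ← pv, ← norm_smul_ed h.ne, real_inner_smul_left, inner_sub_right,
      inner_ed_mk h, sub_self, mul_zero]

/-- the inner product in the adapted coordinates -/
lemma inner_frame (w w' : E3) : ⟪w, w'⟫ = ⟪ed A B, w⟫ * ⟪ed A B, w'⟫ +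
    (gr G G * ⟪na F, w⟫ * ⟪na F, w'⟫ - gr F G * (⟪na F, w⟫ * ⟪na G, w'⟫ + ⟪na G, w⟫ * ⟪na F, w'⟫) +
      gr F F * ⟪na G, w⟫ * ⟪na G, w'⟫) / disc F G := by
  conv_lhs => rw [eq_mk h w]
  simp only [vmk, inner_add_left, real_inner_smul_left]
  have hd := h.disc_pos.ne'
  field_simp
  ring

lemma norm_sq_frame (w : E3) : ‖w‖ ^ 2 = ⟪ed A B, w⟫ ^ 2 + qf F G (-⟪na F, w⟫) (-⟪na G, w⟫) := by
  rw [← real_inner_self_eq_norm_sq, inner_frame h w w, qf]
  ring

end

end QG
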