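import Pool.Agent.Lib_helper2.QG.Exit
import Pool.Agent.Lib_helper99.QGDegree

/-!
# There is a crossing of high degree
-/

open scoped RealInnerProductSpace

namespace QG

/-- the nodes of a family of chains -/
def HasNodes {κ : ℝ} {n : ℕ} (f : Fam κ (n + 2)) : Prop :=
  ∀ A B F G, IsE A B F G → ∃ (q : Fin (n + 1) → ℕ) (l : ℝ), 0 < l ∧
    Pairwise (fun i j => Nat.Coprime (q i) (q j)) ∧ (∀ i, ¬ IsSquare (q i)) ∧
    ∀ j : Fin (n + 1), qf F G ((f.ch F G).α (j + 2) - (f.ch F G).α (j + 1))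
      ((f.ch F G).β (j + 2) - (f.ch F G).β (j + 1)) = l ^ 2 * (q j : ℝ)

/-- All transversal crossings happen at positions of low degree. -/
def AllLow {κ : ℝ} {m : ℕ} (f : Fam κ m) (γ : LPath f.K) (σ : ℝ) (D : ℕ) : Prop :=
  ∀ i A B F G k, IsE A B F G → F < G → At γ A B F G σ (f.ch F G) i k →
    ⟪ed A B, γ.u i⟫ ^ 2 < 1 → LowDeg D ⟪pv B - pv A, γ.p i⟫

lemma AllLow.rev {κ : ℝ} {m : ℕ} {f : Fam κ m} {γ : LPath f.K} {σ : ℝ} {D : ℕ}
    (Y : PPath f γ) (hσ : 15601 * κ < σ)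
    (h : AllLow f γ σ D) : AllLow f γ.rev σ D := by
  intro i A B F G k hE hFG hAt hu
  have X := Y.cross hE hFG hσ
  have h1 : At γ A B F G σ (f.ch F G) (-i) k := hAt
  rw [Cross.rev_u, inner_neg_right, neg_sq, ← X.perp h1] at hu
  exact h (-i) A B F G k hE hFG h1 hu

section

variable {κ ρ ξ : ℝ} {n : ℕ} {f : Fam κ (n + 2)} {D : ℕ}

lemma Cst.div_le (hc : Cst ρ κ ξ) : 400 / ξ * κ ≤ ρ / 75 := by
  have h1 := hc.κξ
  have h2 := hc.ξ0
  rw [div_mul_eq_mul_div, div_le_iff₀ h2]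
  linarith

lemma perp_aux (hc : Cst ρ κ ξ) (hN : HasNodes f) (hD : D ^ 3 < 2 ^ n) {γ : LPath f.K}
    (Y : PPath f γ) (hL : AllLow f γ (ρ / 60) D) {A B : Fin 6} {F G : Fin 8} (h : IsE A B F G)
    (hFG : F < G) {i0 : ℤ} {c0 : ℝ} (hc0 : c0 ^ 2 < 1)
    (hAt : ∀ l : ℕ, l ≤ n + 2 → At γ A B F G (ρ / 60) (f.ch F G) (i0 + l) l ∧
      ⟪ed A B, γ.u (i0 + l)⟫ = c0) : c0 = 0 := by
  by_contra hne
  obtain ⟨q, l, hl, hq1, hq2, hq3⟩ := hN A B F G h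
  have X := Y.cross h hFG (σ := ρ / 60) (by linarith [hc.κρ, hc.κ0])
  have hlow : ∀ l : ℕ, l ≤ n + 2 → LowDeg D ⟪pv B - pv A, γ.p (i0 + l)⟫ := by
    intro l hl
    obtain ⟨h1, h2⟩ := hAt l hl
    exact hL _ A B F G l h hFG h1 (by rw [h2]; exact hc0)
  have hs : 0 < √(1 - c0 ^ 2) := Real.sqrt_pos.2 (by linarith)
  set K0 := ‖pv B - pv A‖ * c0 * l / √(1 - c0 ^ 2) with hK0
  have hnorm := h.norm_pos
  have hK0ne : K0 ≠ 0 := by
    rw [hK0]
    exact div_ne_zero (mul_ne_zero (mul_ne_zero hnorm.ne' hne) hl.ne') hs.ne'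
  have hstep : ∀ j : Fin (n + 1), ⟪pv B - pv A, γ.p (i0 + (j + 2 : ℕ))⟫ -
      ⟪pv B - pv A, γ.p (i0 + (j + 1 : ℕ))⟫ = K0 * √(q j : ℝ) := by
    intro j
    obtain ⟨h1, h2⟩ := hAt (j + 1) (by omega)
    obtain ⟨h3, h4⟩ := hAt (j + 2) (by omega)
    have e1 : i0 + ((j + 2 : ℕ) : ℤ) = i0 + ((j + 1 : ℕ) : ℤ) + 1 := by push_cast; ring
    have e2 := X.len_sq (i0 + ((j + 1 : ℕ) : ℤ))
    rw [← e1, h2, h3.2.1, h3.2.2.1, h1.2.1, h1.2.2.1, hq3 j] at e2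
    have e3 : γ.len (i0 + ((j + 1 : ℕ) : ℤ)) = l * √(q j : ℝ) / √(1 - c0 ^ 2) := by
      rw [eq_div_iff hs.ne']
      have e4 : (γ.len (i0 + ((j + 1 : ℕ) : ℤ)) * √(1 - c0 ^ 2)) ^ 2 = (l * √(q j : ℝ)) ^ 2 := by
        rw [mul_pow, mul_pow, Real.sq_sqrt (by linarith), Real.sq_sqrt (Nat.cast_nonneg _), e2]
      have hlen := γ.len_pos (i0 + ((j + 1 : ℕ) : ℤ))
      exact (sq_eq_sq₀ (by positivity) (by positivity)).1 e4
    rw [← inner_sub_right, e1, ← γ.len_smul_u, real_inner_smul_right, ← norm_smul_ed h.ne,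
      real_inner_smul_left, h2, e3, hK0]
    field_simp
  have hsum : ⟪pv B - pv A, γ.p (i0 + (n + 2 : ℕ))⟫ - ⟪pv B - pv A, γ.p (i0 + (1 : ℕ))⟫ =
      K0 * ∑ j, √(q j : ℝ) := by
    rw [Finset.mul_sum]
    simp only [← hstep]
    rw [Fin.sum_univ_eq_sum_range (fun j => ⟪pv B - pv A, γ.p (i0 + (j + 2 : ℕ))⟫ -
      ⟪pv B - pv A, γ.p (i0 + (j + 1 : ℕ))⟫) (n + 1)]
    have := Finset.sum_range_sub (fun j : ℕ => ⟪pv B - pv A, γ.p (i0 + (j + 1 : ℕ))⟫) (n + 1)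
    simp only [zero_add] at this
    rw [← this]
  have hfirst := hstep 0
  simp only [Fin.val_zero, zero_add] at hfirst
  have hq0 : 0 < √(q 0 : ℝ) := by
    apply Real.sqrt_pos.2
    have : q 0 ≠ 0 := by
      intro h0; apply hq2 0; rw [h0]; exact ⟨0, rfl⟩
    exact_mod_cast Nat.pos_of_ne_zero this
  refine degree_bound n D q hq1 hq2 hD ⟪pv B - pv A, γ.p (i0 + (1 : ℕ))⟫
    ⟪pv B - pv A, γ.p (i0 + (2 : ℕ))⟫ ⟪pv B - pv A, γ.p (i0 + (n + 2 : ℕ))⟫ ?_ ?_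
    ⟨hlow 1 (by omega), hlow 2 (by omega), hlow (n + 2) le_rfl⟩
  · intro h1
    rw [h1, sub_self] at hfirst
    exact (mul_ne_zero hK0ne hq0.ne') hfirst.symm
  · rw [hsum, hfirst]; ring

/-- transversal crossings are perpendicular. -/
lemma perp_of_trans (hc : Cst ρ κ ξ) (hN : HasNodes f) (hD : D ^ 3 < 2 ^ n) {γ : LPath f.K}
    (Y : PPath f γ) (hL : AllLow f γ (ρ / 60) D) {A B : Fin 6} {F G : Fin 8} (h : IsE A B F G)
    {i : ℤ} (hF : sl F (γ.p i) ≤ κ) (hG : sl G (γ.p i) ≤ κ) (hs1 : ρ / 30 ≤ sp A B (γ.p i))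
    (hs2 : sp A B (γ.p i) ≤ 1 - ρ / 30) (ht : ⟪ed A B, γ.u i⟫ ^ 2 ≤ 1 - ξ ^ 2 / 2) :
    ⟪ed A B, γ.u i⟫ = 0 := by
  wlog hFG : F < G generalizing F G
  · have hGF : G < F := lt_of_le_of_ne (not_lt.1 hFG) h.2.1.symm
    exact this h.swap hG hF hGF
  have hdiv := hc.div_le
  have hσ : 15601 * κ < ρ / 60 := by linarith [hc.κρ, hc.κ0]
  have X := Y.cross h hFG hσ
  have hρ0 := hc.ρ0
  obtain ⟨γ', hγ', i0, c0, hc0, hAt, _, _, _⟩ := X.crossing hc.ξ0 hF hG hc.κ0.le ht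
    (by linarith) (by linarith)
  have hξ := hc.ξ0
  have hc02 : c0 ^ 2 < 1 := by
    have : c0 ^ 2 = ⟪ed A B, γ.u i⟫ ^ 2 := by
      rcases hc0 with h1 | h1 <;> rw [h1]
      ring
    rw [this]
    nlinarith [mul_pos hξ hξ]
  have h0 : c0 = 0 := by
    rcases hγ' with rfl | rfl
    · exact perp_aux hc hN hD Y hL h hFG hc02 hAt
    · exact perp_aux hc hN hD Y.rev (hL.rev Y hσ) h hFG hc02 hAt
  rcases hc0 with h1 | h1
  · rw [← h1, h0]
  · rw [h0] at h1; linarith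

lemma exists_third : ∀ A B F G, IsE A B F G → ∃ W, S F W = 0 ∧ W ≠ A ∧ W ≠ B := by
  decide +kernel

/-- one side of a perpendicular crossing -/
lemma side (hc : Cst ρ κ ξ) (hN : HasNodes f) (hD : D ^ 3 < 2 ^ n) {γ : LPath f.K}
    (Y : PPath f γ) (hL : AllLow f γ (ρ / 60) D) {A B : Fin 6} {F G : Fin 8}
    {c : Chain κ (n + 2)} (X : Cross γ A B F G (ρ / 2) c) {i0 : ℤ}
    (hAt : At γ A B F G (ρ / 2) c i0 0) (hdown : DownPt c F G 0 (γ.p (i0 - 1)))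
    (hu : ⟪ed A B, γ.u (i0 - 1)⟫ = 0) {W : Fin 6} (hW : S F W = 0) (hWA : W ≠ A) (hWB : W ≠ B) :
    ‖γ.p (i0 - 1) - pv W‖ ≤ 20 * ρ := by
  have h := X.hE
  obtain ⟨_, ha, hb, hs1, hs2⟩ := hAt
  obtain ⟨s, hs, h1, h2⟩ := hdown
  have hα0 : c.α 0 = 0 := by
    have := c.on1 0 (Nat.zero_le _)
    rw [c.P0, c.Q0, c.c0] at this
    linarith
  rw [c.Q0, mul_zero, neg_zero, hα0, sub_zero] at h1
  rw [c.P0, mul_one] at h2
  rw [hα0] at ha
  have hst := γ.step (i0 - 1)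
  rw [sub_add_cancel] at hst
  have hlen := γ.len_pos (i0 - 1)
  have hne : γ.p (i0 - 1) ≠ γ.p i0 := by
    have := γ.ne (i0 - 1)
    rw [sub_add_cancel] at this
    exact this.symm
  have hperp : ⟪ed A B, γ.p (i0 - 1) - γ.p i0⟫ = 0 := by
    have e1 : γ.p (i0 - 1) - γ.p i0 = - (γ.len (i0 - 1) • γ.u (i0 - 1)) := by
      conv_lhs => rw [hst]
      abel
    rw [e1, inner_neg_right, real_inner_smul_right, hu, mul_zero, neg_zero]
  have hspy : sp A B (γ.p (i0 - 1)) = sp A B (γ.p i0) := by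
    have e1 : γ.p (i0 - 1) = γ.p i0 + (γ.p (i0 - 1) - γ.p i0) := by abel
    conv_lhs => rw [e1]
    rw [sp_add, real_inner_comm, hperp, zero_div, add_zero]
  refine face_exit hc h hW hWA hWB (f.K_subset (Y.mem _)) ha h1 hs1 hs2 hperp hne (Y.near _) ?_ ?_
  · intro A2 B2 F2 G2 hE2 hF2 hG2 h3 h4
    have e1 : un (γ.p (i0 - 1) - γ.p i0) = - γ.u (i0 - 1) := γ.un_back i0
    rw [e1, inner_neg_right, neg_sq]
    rcases le_or_gt (⟪ed A2 B2, γ.u (i0 - 1)⟫ ^ 2) (1 - ξ ^ 2 / 2) with h5 | h5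
    · left
      rw [perp_of_trans hc hN hD Y hL hE2 hF2 hG2 h3 h4 h5, neg_zero]
    · right; exact h5
  · intro hG
    obtain ⟨k, hk, h3, h4⟩ := X.corner (i0 - 1) (by rw [h1]; exact hc.κ0.le) hG
      (by rw [hspy]; exact hs1) (by rw [hspy]; exact hs2)
    rcases Nat.eq_zero_or_pos k with h5 | h5
    · subst h5
      rw [h4, sub_self] at h2
      linarith
    · have h6 := c.h_pos1 (j := 0) (k := k) h5 hk
      rw [Chain.h, c.P0, c.Q0, c.c0, ← h3, h1] at h6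
      linarith

lemma no_trans_aux (hc : Cst ρ κ ξ) (hN : HasNodes f) (hD : D ^ 3 < 2 ^ n) {γ : LPath f.K}
    (Y : PPath f γ) (hL : AllLow f γ (ρ / 60) D) {A B : Fin 6} {F G : Fin 8} (h : IsE A B F G)
    (hFG : F < G) {i0 : ℤ}
    (hAt : ∀ l : ℕ, l ≤ n + 2 → At γ A B F G (ρ / 2) (f.ch F G) (i0 + l) l ∧
      ⟪ed A B, γ.u (i0 + l)⟫ = 0) (hu : ⟪ed A B, γ.u (i0 - 1)⟫ = 0)
    (hdown : DownPt (f.ch F G) F G 0 (γ.p (i0 - 1)))
    (hup : UpPt (f.ch F G) F G (n + 2) (γ.p (i0 + (n + 2 : ℕ) + 1))) : False := by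
  have hρ0 := hc.ρ0
  have hρ1 := hc.ρ1
  have hσ : 15601 * κ < ρ / 2 := by linarith [hc.κρ, hc.κ0]
  have hσ2 : 15601 * κ < ρ / 60 := by linarith [hc.κρ, hc.κ0]
  have X := Y.cross h hFG hσ
  obtain ⟨W, hW, hWA, hWB⟩ := exists_third A B F G h
  obtain ⟨W', hW', hWA', hWB'⟩ := exists_third A B G F h.swap
  have hAt0 := hAt 0 (Nat.zero_le _)
  simp only [Nat.cast_zero, add_zero] at hAt0
  have s1 := side hc hN hD Y hL X hAt0.1 hdown hu hW hWA hWB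
  -- the other side
  have hAtm := hAt (n + 2) le_rfl
  set i1 : ℤ := i0 + (n + 2 : ℕ) with hi1
  have e1 : γ.rev.p (-i1 - 1) = γ.p (i1 + 1) := by simp only [LPath.rev]; congr 1; ring
  have hAt' : At γ.rev A B G F (ρ / 2) (f.ch F G).rev (-i1) 0 := by
    have e2 := (at_rev (γ := γ.rev) (A := A) (B := B) (F := F) (G := G) (σ := ρ / 2)
      (c := f.ch F G) (i := -i1) (k := n + 2) le_rfl).2
    rw [Nat.sub_self] at e2
    apply e2
    have : γ.rev.p (-i1) = γ.p i1 := by simp [LPath.rev]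
    rw [At, this]; exact hAtm.1
  have hdown' : DownPt (f.ch F G).rev G F 0 (γ.rev.p (-i1 - 1)) := by
    have e2 := (downPt_rev (f.ch F G) F G (k := n + 2) le_rfl (γ.p (i1 + 1))).2 hup
    rw [Nat.sub_self] at e2
    rw [e1]; exact e2
  have hu' : ⟪ed A B, γ.rev.u (-i1 - 1)⟫ = 0 := by
    rw [Cross.rev_u, inner_neg_right, show -(-i1 - 1) - 1 = i1 by ring, hAtm.2, neg_zero]
  have s2 := side hc hN hD Y.rev (hL.rev Y hσ2) X.rev.swap hAt' hdown' hu' hW' hWA' hWB'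
  rw [e1] at s2
  -- the path stays perpendicular to the edge
  have hconst : ∀ l : ℕ, l ≤ n + 2 → ⟪ed A B, γ.p (i0 + l)⟫ = ⟪ed A B, γ.p i0⟫ := by
    intro l
    induction l with
    | zero => intro _; simp
    | succ l ih =>
      intro hl
      have e2 : i0 + ((l + 1 : ℕ) : ℤ) = i0 + l + 1 := by push_cast; ring
      rw [e2, γ.step, inner_add_right, real_inner_smul_right, (hAt l (by omega)).2, mul_zero,
        add_zero, ih (by omega)]
  have e3 := hconst (n + 2) le_rfl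
  rw [← hi1] at e3
  have e4 : ⟪ed A B, γ.p (i1 + 1)⟫ = ⟪ed A B, γ.p i1⟫ := by
    rw [γ.step, inner_add_right, real_inner_smul_right, hAtm.2, mul_zero, add_zero]
  have e5 : ⟪ed A B, γ.p i0⟫ = ⟪ed A B, γ.p (i0 - 1)⟫ := by
    have hst := γ.step (i0 - 1)
    rw [sub_add_cancel] at hst
    conv_lhs => rw [hst]
    rw [inner_add_right, real_inner_smul_right, hu, mul_zero, add_zero]
  have he := norm_ed h.ne
  have e6 : |⟪ed A B, pv W - pv W'⟫| ≤ 40 * ρ := by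
    have e7 : ⟪ed A B, pv W - pv W'⟫ = ⟪ed A B, γ.p (i1 + 1) - pv W'⟫ -
        ⟪ed A B, γ.p (i0 - 1) - pv W⟫ := by
      simp only [inner_sub_right]
      linarith
    rw [e7]
    refine (abs_sub _ _).trans ?_
    have e8 := abs_real_inner_le_norm (ed A B) (γ.p (i1 + 1) - pv W')
    have e9 := abs_real_inner_le_norm (ed A B) (γ.p (i0 - 1) - pv W)
    rw [he, one_mul] at e8 e9
    linarith
  have e10 := M5 A B F G h W W' hWA hWB hW hWA' hWB' hW'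
  have e11 : ⟪pv W - pv W', pv B - pv A⟫ = (ip W W' B A : ℝ) := inner_pv _ _ _ _
  have e12 : (1 : ℝ) ≤ |(ip W W' B A : ℝ)| := by
    have : 1 ≤ |ip W W' B A| := Int.one_le_abs e10
    exact_mod_cast this
  rw [← e11, ← norm_smul_ed h.ne, real_inner_smul_right, real_inner_comm, abs_mul,
    abs_of_pos h.norm_pos] at e12
  have e13 := norm_pv_le A B
  have e14 := mul_le_mul e13 e6 (abs_nonneg _) (by norm_num)
  linarith

/-- There are no transversal crossings in the middle of an edge. -/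
lemma no_trans (hc : Cst ρ κ ξ) (hN : HasNodes f) (hD : D ^ 3 < 2 ^ n) {γ : LPath f.K}
    (Y : PPath f γ) (hL : AllLow f γ (ρ / 60) D) {A B : Fin 6} {F G : Fin 8} (h : IsE A B F G)
    {i : ℤ} (hF : sl F (γ.p i) ≤ κ) (hG : sl G (γ.p i) ≤ κ) (hs1 : ρ ≤ sp A B (γ.p i))
    (hs2 : sp A B (γ.p i) ≤ 1 - ρ) : 1 - ξ ^ 2 / 2 < ⟪ed A B, γ.u i⟫ ^ 2 := by
  wlog hFG : F < G generalizing F G
  · have hGF : G < F := lt_of_le_of_ne (not_lt.1 hFG) h.2.1.symm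
    exact this h.swap hG hF hGF
  by_contra hcon
  push Not at hcon
  have hρ0 := hc.ρ0
  have hdiv := hc.div_le
  have hσ : 15601 * κ < ρ / 2 := by linarith [hc.κρ, hc.κ0]
  have hσ2 : 15601 * κ < ρ / 60 := by linarith [hc.κρ, hc.κ0]
  have X := Y.cross h hFG hσ
  have h0 := perp_of_trans hc hN hD Y hL h hF hG (by linarith) (by linarith) hcon
  obtain ⟨γ', hγ', i0, c0, hc0, hAt, hu, hdown, hup⟩ := X.crossing hc.ξ0 hF hG hc.κ0.le hcon
    (by linarith) (by linarith)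
  rw [h0] at hc0
  have hc00 : c0 = 0 := by
    rcases hc0 with h1 | h1
    · exact h1
    · rw [h1, neg_zero]
  rw [hc00] at hAt hu
  rcases hγ' with rfl | rfl
  · exact no_trans_aux hc hN hD Y hL h hFG hAt hu hdown hup
  · exact no_trans_aux hc hN hD Y.rev (hL.rev Y hσ2) h hFG hAt hu hdown hup

/-- The main contradiction. -/
theorem main_contradiction {ε : ℝ} (hε1 : ε ≤ 1)
    (hturn : ∀ A B C, Adj A B → Adj B C → rk B C < rk A B ∨
      ∃ k, ⟪ed B C - ed A B, pv k - pv B⟫ ≤ - ε) (hρε : 1000000 * ρ ≤ ε)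
    (hc : Cst ρ κ ξ) (hN : HasNodes f) (hD : D ^ 3 < 2 ^ n) {γ : LPath f.K}
    (Y : PPath f γ) : ¬ AllLow f γ (ρ / 60) D := by
  intro hL
  have hρ0 := hc.ρ0
  have hσ2 : 15601 * κ < ρ := by linarith [hc.κρ, hc.κ0]
  have hξ0 := hc.ξ0
  have H : Hyp f.K γ ε ρ κ ξ := {
    ε1 := hε1
    turn := hturn
    ρ0 := hc.ρ0
    ρε := hρε
    κ0 := hc.κ0
    κρ := hc.κρ
    ξ0 := hc.ξ0
    ξρ := hc.ξρ
    KQ := f.K_subset
    mem := Y.mem
    ball := fun x hx => f.ball hx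
    vert := fun k => f.vert hc.ρ0 (by linarith [hc.ρ1]) (by linarith [hc.κρ, hc.κ0]) k
    near := Y.near
    nonadj := fun i A B hne hadj h1 h2 => Y.nonadj hc.ρ1 i hne hadj
      (by linarith [hc.κρ, hc.κ0, hc.ρ1]) h1 h2
    par := by
      intro i A B hmid
      obtain ⟨F, G, hE, hF, hG, hs1, hs2⟩ := hmid
      have h1 := no_trans hc hN hD Y hL hE hF hG hs1 hs2
      have h2 : ⟪ed A B, γ.u i⟫ = ⟪ed A B, γ.u (i - 1)⟫ := by
        rcases lt_or_ge F G with hFG | hFG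
        · have X := Y.cross hE hFG hσ2
          obtain ⟨k, hk, ha, hb⟩ := X.corner i hF hG hs1 hs2
          exact X.perp ⟨hk, ha, hb, hs1, hs2⟩
        · have hGF : G < F := lt_of_le_of_ne hFG hE.2.1.symm
          have X := Y.cross hE.swap hGF hσ2
          obtain ⟨k, hk, ha, hb⟩ := X.corner i hG hF hs1 hs2
          exact X.perp ⟨hk, ha, hb, hs1, hs2⟩
      have he := norm_ed hE.ne
      have key : ∀ v : E3, ‖v‖ = 1 → 1 - ξ ^ 2 / 2 < ⟪ed A B, v⟫ ^ 2 → 0 ≤ ⟪ed A B, v⟫ →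
          ‖v - ed A B‖ ≤ ξ := by
        intro v hv h3 h4
        have h5 := real_inner_le_norm (ed A B) v
        rw [he, hv, one_mul] at h5
        have h6 : ‖v - ed A B‖ ^ 2 ≤ ξ ^ 2 := by
          rw [norm_sub_sq_real, hv, he, real_inner_comm]
          nlinarith
        exact (sq_le_sq₀ (norm_nonneg _) hξ0.le).1 h6
      have key2 : ∀ v : E3, ‖v‖ = 1 → 1 - ξ ^ 2 / 2 < ⟪ed A B, v⟫ ^ 2 → ⟪ed A B, v⟫ ≤ 0 →
          ‖v + ed A B‖ ≤ ξ := by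
        intro v hv h3 h4
        have h5 := key (-v) (by rw [norm_neg, hv]) (by rw [inner_neg_right, neg_sq]; exact h3)
          (by rw [inner_neg_right]; linarith)
        rw [← norm_neg, neg_sub, sub_neg_eq_add, add_comm] at h5
        exact h5
      rcases le_or_gt 0 ⟪ed A B, γ.u i⟫ with h3 | h3
      · left
        exact ⟨key _ (γ.norm_u i) h1 h3, key _ (γ.norm_u _) (h2 ▸ h1) (h2 ▸ h3)⟩
      · right
        exact ⟨key2 _ (γ.norm_u i) h1 h3.le, key2 _ (γ.norm_u _) (h2 ▸ h1) (h2 ▸ h3.le)⟩ }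
  exact H.contradiction

end

end QG
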