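import Pool.Agent.Lib_helper2.QG.BaseReal

/-!
# Closed polygonal paths with Liberman's inequality
-/

open scoped RealInnerProductSpace

namespace QG

/-- the unit vector in the direction of `w` -/
noncomputable def un (w : E3) : E3 := ‖w‖⁻¹ • w

lemma norm_un {w : E3} (hw : w ≠ 0) : ‖un w‖ = 1 := by
  have h : ‖w‖ ≠ 0 := norm_ne_zero_iff.2 hw
  rw [un, norm_smul, norm_inv, norm_norm, inv_mul_cancel₀ h]

lemma norm_smul_un {w : E3} (hw : w ≠ 0) : ‖w‖ • un w = w := by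
  have h : ‖w‖ ≠ 0 := norm_ne_zero_iff.2 hw
  rw [un, smul_smul, mul_inv_cancel₀ h, one_smul]

lemma un_neg (w : E3) : un (-w) = - un w := by
  rw [un, un, norm_neg, smul_neg]

lemma ed_eq_un (A B : Fin 6) : ed A B = un (pv B - pv A) := rfl

lemma norm_un_sub_le {w w0 : E3} (hw : w ≠ 0) (hw0 : w0 ≠ 0) :
    ‖un w - un w0‖ * ‖w0‖ ≤ 2 * ‖w - w0‖ := by
  have h : ‖w‖ ≠ 0 := norm_ne_zero_iff.2 hw
  have h0 : ‖w0‖ ≠ 0 := norm_ne_zero_iff.2 hw0
  have h1 : ‖w0‖ • (un w - un w0) = (‖w0‖ - ‖w‖) • un w + (w - w0) := by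
    rw [smul_sub, norm_smul_un hw0, sub_smul, norm_smul_un hw]
    abel
  have h2 : ‖un w - un w0‖ * ‖w0‖ = ‖‖w0‖ • (un w - un w0)‖ := by
    rw [norm_smul, norm_norm, mul_comm]
  rw [h2, h1]
  calc ‖(‖w0‖ - ‖w‖) • un w + (w - w0)‖ ≤ ‖(‖w0‖ - ‖w‖) • un w‖ + ‖w - w0‖ := norm_add_le _ _
    _ = |‖w0‖ - ‖w‖| + ‖w - w0‖ := by rw [norm_smul, norm_un hw, mul_one, Real.norm_eq_abs]
    _ ≤ ‖w - w0‖ + ‖w - w0‖ := by
        rw [norm_sub_rev w w0]
        gcongr
        exact abs_norm_sub_norm_le _ _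
    _ = 2 * ‖w - w0‖ := by ring

/-- A closed polygonal path with Liberman's inequality with respect to `K` at every corner. -/
structure LPath (K : Set E3) where
  /-- the period -/
  N : ℕ
  /-- positive -/
  hN : 0 < N
  /-- the corners -/
  p : ℤ → E3
  /-- periodic -/
  per : ∀ i, p (i + N) = p i
  /-- no repetition -/
  ne : ∀ i, p (i + 1) ≠ p i
  /-- Liberman's inequality -/
  lib : ∀ i, ∀ x ∈ K, 0 ≤ ⟪un (p (i + 1) - p i) + un (p (i - 1) - p i), x - p i⟫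

namespace LPath

variable {K : Set E3} (γ : LPath K)

/-- direction of the `i`-th segment -/
noncomputable def u (i : ℤ) : E3 := un (γ.p (i + 1) - γ.p i)

/-- length of the `i`-th segment -/
noncomputable def len (i : ℤ) : ℝ := ‖γ.p (i + 1) - γ.p i‖

lemma norm_u (i : ℤ) : ‖γ.u i‖ = 1 := norm_un (sub_ne_zero.2 (γ.ne i))

lemma len_pos (i : ℤ) : 0 < γ.len i := norm_pos_iff.2 (sub_ne_zero.2 (γ.ne i))

lemma len_smul_u (i : ℤ) : γ.len i • γ.u i = γ.p (i + 1) - γ.p i :=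
  norm_smul_un (sub_ne_zero.2 (γ.ne i))

lemma step (i : ℤ) : γ.p (i + 1) = γ.p i + γ.len i • γ.u i := by
  rw [len_smul_u]; abel

lemma un_back (i : ℤ) : un (γ.p (i - 1) - γ.p i) = - γ.u (i - 1) := by
  rw [u, ← un_neg, neg_sub, sub_add_cancel]

lemma lib' (i : ℤ) {x : E3} (hx : x ∈ K) : 0 ≤ ⟪γ.u i - γ.u (i - 1), x - γ.p i⟫ := by
  have h := γ.lib i x hx
  rw [un_back, ← u, ← sub_eq_add_neg] at h
  exact h

lemma u_per (i : ℤ) : γ.u (i + γ.N) = γ.u i := by
  rw [u, u, γ.per, show i + (γ.N : ℤ) + 1 = (i + 1) + γ.N by ring, γ.per]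

/-- the reversed path -/
noncomputable def rev : LPath K where
  N := γ.N
  hN := γ.hN
  p := fun i => γ.p (-i)
  per := fun i => by
    have h := γ.per (-(i + γ.N))
    rw [← h]; congr 1; ring
  ne := fun i => by
    have h := γ.ne (-(i + 1))
    rw [show -(i + 1) + 1 = -i by ring] at h
    exact h.symm
  lib := fun i x hx => by
    have h := γ.lib (-i) x hx
    rw [show -i + 1 = -(i - 1) by ring, show -i - 1 = -(i + 1) by ring, add_comm] at h
    exact h

lemma tel (j : ℤ) (n : ℕ) :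
    ∑ k ∈ Finset.range n, (γ.u (j + k + 1) - γ.u (j + k)) = γ.u (j + n) - γ.u j := by
  induction n with
  | zero => simp
  | succ n ih =>
    rw [Finset.sum_range_succ, ih]
    push_cast
    rw [← add_assoc]
    abel

/-- the ball inequality -/
lemma ball {r : ℝ} (hr : 0 ≤ r) {c : E3} (hball : ∀ x, ‖x - c‖ ≤ r → x ∈ K) (i : ℤ) :
    r * ‖γ.u i - γ.u (i - 1)‖ ≤ ⟪γ.u i - γ.u (i - 1), c - γ.p i⟫ := by
  rcases eq_or_ne (γ.u i - γ.u (i - 1)) 0 with h | h
  · rw [h]; simp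
  · set t := γ.u i - γ.u (i - 1) with ht
    have hx : c - r • un t ∈ K := by
      apply hball
      rw [sub_sub_cancel_left, norm_neg, norm_smul, norm_un h, mul_one, Real.norm_of_nonneg hr]
    have h1 := γ.lib' i hx
    rw [← ht] at h1
    have h2 : ⟪t, un t⟫ = ‖t‖ := by
      rw [un, real_inner_smul_right, real_inner_self_eq_norm_sq]
      have : ‖t‖ ≠ 0 := norm_ne_zero_iff.2 h
      field_simp
    have h3 : c - r • un t - γ.p i = (c - γ.p i) - r • un t := by abel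
    rw [h3, inner_sub_right, real_inner_smul_right, h2] at h1
    linarith

/-- The total curvature of a run of corners near the point `b`. -/
lemma curv {r ρ : ℝ} {c b : E3} (hr : ρ < r) (hρ : 0 ≤ ρ)
    (hball : ∀ x, ‖x - c‖ ≤ r → x ∈ K) (j : ℤ) (n : ℕ)
    (hb : ∀ k < n, ‖γ.p (j + k + 1) - b‖ ≤ ρ) :
    (r - ρ) * ∑ k ∈ Finset.range n, ‖γ.u (j + k + 1) - γ.u (j + k)‖ ≤
      ⟪γ.u (j + n) - γ.u j, c - b⟫ := by
  rw [← γ.tel j n, sum_inner, Finset.mul_sum]
  refine Finset.sum_le_sum fun k hk => ?_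
  have h1 := γ.ball (hρ.trans hr.le) hball (j + k + 1)
  rw [add_sub_cancel_right] at h1
  have h2 := hb k (Finset.mem_range.1 hk)
  have h3 : ⟪γ.u (j + k + 1) - γ.u (j + k), b - γ.p (j + k + 1)⟫ ≤
      ‖γ.u (j + k + 1) - γ.u (j + k)‖ * ρ := by
    refine (real_inner_le_norm _ _).trans ?_
    rw [norm_sub_rev b]
    exact mul_le_mul_of_nonneg_left h2 (norm_nonneg _)
  have h4 : c - γ.p (j + k + 1) = (c - b) + (b - γ.p (j + k + 1)) := by abel
  rw [h4, inner_add_right] at h1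
  linarith

/-- The summed Liberman inequality. -/
lemma sum_lib {ρ : ℝ} {b x : E3} (hx : x ∈ K) (j : ℤ) (n : ℕ)
    (hb : ∀ k < n, ‖γ.p (j + k + 1) - b‖ ≤ ρ) :
    - (ρ * ∑ k ∈ Finset.range n, ‖γ.u (j + k + 1) - γ.u (j + k)‖) ≤
      ⟪γ.u (j + n) - γ.u j, x - b⟫ := by
  rw [← γ.tel j n, sum_inner, Finset.mul_sum, ← Finset.sum_neg_distrib]
  refine Finset.sum_le_sum fun k hk => ?_
  have h1 := γ.lib' (j + k + 1) hx
  rw [add_sub_cancel_right] at h1
  have h2 := hb k (Finset.mem_range.1 hk)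
  have h3 : ⟪γ.u (j + k + 1) - γ.u (j + k), b - γ.p (j + k + 1)⟫ ≤
      ‖γ.u (j + k + 1) - γ.u (j + k)‖ * ρ := by
    refine (real_inner_le_norm _ _).trans ?_
    rw [norm_sub_rev b]
    exact mul_le_mul_of_nonneg_left h2 (norm_nonneg _)
  have h4 : x - γ.p (j + k + 1) = (x - b) + (b - γ.p (j + k + 1)) := by abel
  rw [h4, inner_add_right] at h1
  linarith

/-- The path does not stay near a point. -/
lemma leave {r ρ : ℝ} {c b : E3} (hr : ρ < r) (hρ : 0 ≤ ρ)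
    (hball : ∀ x, ‖x - c‖ ≤ r → x ∈ K) (j : ℤ) (h0 : ‖γ.p (j + 1) - b‖ ≤ ρ) :
    ∃ n : ℕ, 0 < n ∧ (∀ k < n, ‖γ.p (j + k + 1) - b‖ ≤ ρ) ∧ ρ < ‖γ.p (j + n + 1) - b‖ := by
  by_contra hcon
  push Not at hcon
  have hall : ∀ k : ℕ, ‖γ.p (j + k + 1) - b‖ ≤ ρ := by
    intro k
    induction k using Nat.strong_induction_on with
    | _ k ih =>
      rcases Nat.eq_zero_or_pos k with h | h
      · subst h; simpa using h0
      · exact hcon k h ih
  have h1 := γ.curv hr hρ hball j γ.N (fun k _ => hall k)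
  rw [γ.u_per, sub_self, inner_zero_left] at h1
  have h2 : ∑ k ∈ Finset.range γ.N, ‖γ.u (j + k + 1) - γ.u (j + k)‖ = 0 := by
    have h3 : 0 ≤ ∑ k ∈ Finset.range γ.N, ‖γ.u (j + k + 1) - γ.u (j + k)‖ :=
      Finset.sum_nonneg fun _ _ => norm_nonneg _
    nlinarith
  rw [Finset.sum_eq_zero_iff_of_nonneg (fun _ _ => norm_nonneg _)] at h2
  have h4 : ∀ k : ℕ, k ≤ γ.N → γ.u (j + k) = γ.u j := by
    intro k
    induction k with
    | zero => intro _; simp
    | succ k ih =>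
      intro hk
      have h5 := h2 k (Finset.mem_range.2 hk)
      rw [norm_eq_zero, sub_eq_zero, ih (by omega)] at h5
      rw [← h5]; congr 1; push_cast; ring
  have h6 : ∀ k : ℕ, k ≤ γ.N → γ.p (j + k) = γ.p j +
      (∑ m ∈ Finset.range k, γ.len (j + m)) • γ.u j := by
    intro k
    induction k with
    | zero => intro _; simp
    | succ k ih =>
      intro hk
      rw [Finset.sum_range_succ, add_smul, ← add_assoc, ← ih (by omega), ← h4 k (by omega),
        ← γ.step]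
      congr 1; push_cast; ring
  have h7 := h6 γ.N le_rfl
  rw [γ.per, left_eq_add, smul_eq_zero] at h7
  rcases h7 with h7 | h7
  · have h8 : 0 < ∑ m ∈ Finset.range γ.N, γ.len (j + m) :=
      Finset.sum_pos (fun _ _ => γ.len_pos _) ⟨0, Finset.mem_range.2 γ.hN⟩
    exact h8.ne' h7
  · have h9 := γ.norm_u j
    rw [h7, norm_zero] at h9
    exact zero_ne_one h9

end LPath

end QG
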